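import Mathlib
import Pool.Agent.TH222.QP5

/-! Division of a bounded holomorphic function by a Blaschke product with simple zeros. -/

set_option autoImplicit false

open Filter Topology Metric MeasureTheory Set

namespace Pool.Agent.R261.BDiv

open Pool.Agent.TH222.QP

/-- `bf a z * ua a z = z - a`. -/
noncomputable def ua (a z : ℂ) : ℂ :=
  if a = 0 then 1 else -(a / (‖a‖ : ℂ)) * (1 - (starRingEnd ℂ) a * z)

lemma bf_mul_ua {a z : ℂ} (ha : ‖a‖ < 1) (hz : ‖z‖ ≤ 1) : bf a z * ua a z = z - a := by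
  rw [bf, ua]
  split_ifs with h
  · subst h; ring
  · have hd := den_ne ha hz
    have hn : (‖a‖ : ℂ) ≠ 0 := by exact_mod_cast norm_ne_zero_iff.2 h
    have e1 : (‖a‖ : ℂ) / a * (a / (‖a‖ : ℂ)) = 1 := by field_simp
    have e2 : (a - z) / (1 - (starRingEnd ℂ) a * z) * (1 - (starRingEnd ℂ) a * z) = a - z :=
      div_mul_cancel₀ _ hd
    calc _ = -((‖a‖ : ℂ) / a * (a / (‖a‖ : ℂ))) *
          ((a - z) / (1 - (starRingEnd ℂ) a * z) * (1 - (starRingEnd ℂ) a * z)) := by ring
      _ = z - a := by rw [e1, e2]; ring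

lemma differentiable_ua (a : ℂ) : Differentiable ℂ (ua a) := by
  unfold ua
  split_ifs with h
  · exact differentiable_const _
  · fun_prop

/-- Division by one Blaschke factor. -/
lemma div_one {f : ℂ → ℂ} (hf : DifferentiableOn ℂ f (ball 0 1)) {M : ℝ}
    (hb : ∀ z, ‖z‖ < 1 → ‖f z‖ ≤ M) {a : ℂ} (ha : ‖a‖ < 1) (h0 : f a = 0) :
    ∃ g : ℂ → ℂ, DifferentiableOn ℂ g (ball 0 1) ∧ (∀ z, ‖z‖ < 1 → ‖g z‖ ≤ M) ∧
      ∀ z, ‖z‖ < 1 → f z = bf a z * g z := by
  have hfac : ∀ z, ‖z‖ < 1 → f z = bf a z * (ua a z * dslope f a z) := by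
    intro z hz
    have h1 := sub_smul_dslope f a z
    rw [h0, sub_zero, smul_eq_mul] at h1
    rw [← mul_assoc, bf_mul_ua ha hz.le, h1]
  have hgd : DifferentiableOn ℂ (fun z => ua a z * dslope f a z) (ball 0 1) := by
    refine (differentiable_ua a).differentiableOn.mul ?_
    exact (Complex.differentiableOn_dslope (isOpen_ball.mem_nhds (mem_ball_zero_iff.2 ha))).2 hf
  refine ⟨fun z => ua a z * dslope f a z, hgd, fun z hz => ?_, hfac⟩
  set g : ℂ → ℂ := fun z => ua a z * dslope f a z with hg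
  set K : ℝ := 1 / (1 - ‖a‖) ^ 2 with hK
  have hlim : Tendsto (fun r : ℝ => 1 - K * (1 - r ^ 2)) (𝓝[<] 1) (𝓝 1) := by
    have : Tendsto (fun r : ℝ => 1 - K * (1 - r ^ 2)) (𝓝 1) (𝓝 (1 - K * (1 - 1 ^ 2))) := by
      apply Continuous.tendsto
      fun_prop
    have h2 : Tendsto (fun r : ℝ => 1 - K * (1 - r ^ 2)) (𝓝[<] 1) (𝓝 (1 - K * (1 - 1 ^ 2))) :=
      this.mono_left nhdsWithin_le_nhds
    simpa using h2
  have hev1 : ∀ᶠ r : ℝ in 𝓝[<] 1, 0 < 1 - K * (1 - r ^ 2) :=
    hlim.eventually (lt_mem_nhds one_pos)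
  have hev2 : ∀ᶠ r : ℝ in 𝓝[<] 1, ‖z‖ < r :=
    nhdsWithin_le_nhds (lt_mem_nhds hz)
  have hev3 : ∀ᶠ r : ℝ in 𝓝[<] 1, r < 1 := eventually_mem_nhdsWithin
  have hfin : Tendsto (fun r : ℝ => ‖g z‖ * (1 - K * (1 - r ^ 2))) (𝓝[<] 1) (𝓝 (‖g z‖ * 1)) :=
    hlim.const_mul _
  rw [mul_one] at hfin
  refine le_of_tendsto hfin ?_
  filter_upwards [hev1, hev2, hev3] with r hr1 hr2 hr3
  have hr0 : 0 < r := (norm_nonneg z).trans_lt hr2
  rw [← le_div_iff₀ hr1]
  have hsub : closedBall (0:ℂ) r ⊆ ball 0 1 := closedBall_subset_ball hr3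
  have hdc : DiffContOnCl ℂ g (ball 0 r) := by
    refine DifferentiableOn.diffContOnCl ?_
    rw [closure_ball _ hr0.ne']
    exact hgd.mono hsub
  refine Complex.norm_le_of_forall_mem_frontier_norm_le isBounded_ball hdc (fun w hw => ?_)
    (subset_closure (mem_ball_zero_iff.2 hr2))
  rw [frontier_ball _ hr0.ne', mem_sphere_zero_iff_norm] at hw
  have hw1 : ‖w‖ < 1 := by rw [hw]; exact hr3
  rw [le_div_iff₀ hr1]
  have h1 := one_sub_bf_le ha hw1
  rw [hw] at h1
  have h2 : 1 - K * (1 - r ^ 2) ≤ ‖bf a w‖ := by rw [hK]; linarith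
  have h3 := hb w hw1
  rw [hfac w hw1, norm_mul] at h3
  calc ‖g w‖ * (1 - K * (1 - r ^ 2)) ≤ ‖g w‖ * ‖bf a w‖ :=
        mul_le_mul_of_nonneg_left h2 (norm_nonneg _)
    _ ≤ M := by rw [mul_comm]; exact h3

lemma prod_ne {β : ℕ → ℂ} (h : BSeq β) (hi : Function.Injective β) (n : ℕ) :
    ∏ k ∈ Finset.range n, bf (β k) (β n) ≠ 0 := by
  rw [Finset.prod_ne_zero_iff]
  intro k hk h0
  have := hi (bf_eq_zero (h.lt_one k) (h.lt_one n) h0)
  rw [Finset.mem_range] at hk
  omega

lemma div_n {β : ℕ → ℂ} (h : BSeq β) (hi : Function.Injective β) {f : ℂ → ℂ}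
    (hf : DifferentiableOn ℂ f (ball 0 1)) {M : ℝ}
    (hb : ∀ z, ‖z‖ < 1 → ‖f z‖ ≤ M) (h0 : ∀ k, f (β k) = 0) (n : ℕ) :
    ∃ g : ℂ → ℂ, DifferentiableOn ℂ g (ball 0 1) ∧ (∀ z, ‖z‖ < 1 → ‖g z‖ ≤ M) ∧
      ∀ z, ‖z‖ < 1 → f z = (∏ k ∈ Finset.range n, bf (β k) z) * g z := by
  induction n with
  | zero => exact ⟨f, hf, hb, fun z _ => by simp⟩
  | succ n ih =>
    obtain ⟨g, hg, hgb, hfac⟩ := ih
    have hgn : g (β n) = 0 := by
      have h1 := hfac (β n) (h.lt_one n)
      rw [h0 n] at h1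
      rcases mul_eq_zero.1 h1.symm with h2 | h2
      · exact absurd h2 (prod_ne h hi n)
      · exact h2
    obtain ⟨g', hg', hgb', hfac'⟩ := div_one hg hgb (h.lt_one n) hgn
    refine ⟨g', hg', hgb', fun z hz => ?_⟩
    rw [Finset.prod_range_succ, hfac z hz, hfac' z hz]
    ring

lemma norm_le_B {β : ℕ → ℂ} (h : BSeq β) (hi : Function.Injective β) {f : ℂ → ℂ}
    (hf : DifferentiableOn ℂ f (ball 0 1)) {M : ℝ}
    (hb : ∀ z, ‖z‖ < 1 → ‖f z‖ ≤ M) (h0 : ∀ k, f (β k) = 0) {z : ℂ} (hz : ‖z‖ < 1) :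
    ‖f z‖ ≤ M * ‖B β z‖ := by
  have h1 := (h.hasProd hz).tendsto_prod_nat
  refine ge_of_tendsto (h1.norm.const_mul M) (Eventually.of_forall fun n => ?_)
  obtain ⟨g, -, hgb, hfac⟩ := div_n h hi hf hb h0 n
  rw [hfac z hz, norm_mul, mul_comm M]
  exact mul_le_mul_of_nonneg_left (hgb z hz) (norm_nonneg _)

lemma exists_zero {β : ℕ → ℂ} (h : BSeq β) {z : ℂ} (hz : ‖z‖ < 1) (h0 : B β z = 0) :
    ∃ k, z = β k := by
  by_contra hcon
  push Not at hcon
  exact h.B_ne_zero hz hcon h0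

lemma dslope_B_ne {β : ℕ → ℂ} (h : BSeq β) (hi : Function.Injective β) (k : ℕ) :
    deriv (B β) (β k) ≠ 0 := by
  set R : ℂ → ℂ := fun z => (∏ j ∈ Finset.range k, bf (β j) z) * B (fun j => β (j + (k + 1))) z
    with hR
  have hk := h.lt_one k
  have hmem : ball (0:ℂ) 1 ∈ 𝓝 (β k) := isOpen_ball.mem_nhds (mem_ball_zero_iff.2 hk)
  have hRd : DifferentiableAt ℂ R (β k) := by
    refine DifferentiableAt.mul ?_ ?_
    · refine (DifferentiableOn.fun_finsetProd fun j _ => differentiableOn_bf (h.lt_one j)).differentiableAt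
        hmem
    · exact ((h.shift (k + 1)).differentiableOn).differentiableAt hmem
  have hR0 : R (β k) ≠ 0 := by
    refine mul_ne_zero (prod_ne h hi k) ?_
    refine (h.shift (k + 1)).B_ne_zero hk fun j hj => ?_
    have := hi hj
    omega
  have hua : ua (β k) (β k) ≠ 0 := by
    rw [ua]
    split_ifs with h0
    · exact one_ne_zero
    · have hn : (‖β k‖ : ℂ) ≠ 0 := by exact_mod_cast norm_ne_zero_iff.2 h0
      exact mul_ne_zero (neg_ne_zero.2 (div_ne_zero h0 hn)) (den_ne hk hk.le)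
  -- `B = bf * R`, and `bf * ua = z - β k`
  have hBeq : ∀ z, ‖z‖ < 1 → B β z = bf (β k) z * R z := by
    intro z hz
    rw [h.B_split (k + 1) hz, Finset.prod_range_succ, hR]
    ring
  have hBd : DifferentiableAt ℂ (B β) (β k) := h.differentiableOn.differentiableAt hmem
  intro hd0
  have e1 : (fun z => B β z * ua (β k) z) =ᶠ[𝓝 (β k)] fun z => (z - β k) * R z := by
    filter_upwards [hmem] with z hz
    have hz1 := mem_ball_zero_iff.1 hz
    rw [hBeq z hz1, mul_right_comm, bf_mul_ua hk hz1.le]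
  have e2 := e1.deriv_eq
  have e3 : HasDerivAt (fun z => B β z * ua (β k) z)
      (deriv (B β) (β k) * ua (β k) (β k) + B β (β k) * deriv (ua (β k)) (β k)) (β k) :=
    hBd.hasDerivAt.mul ((differentiable_ua (β k)) (β k)).hasDerivAt
  have e4 : HasDerivAt (fun z => (z - β k) * R z)
      (1 * R (β k) + (β k - β k) * deriv R (β k)) (β k) :=
    ((hasDerivAt_id (β k)).sub_const (β k)).mul hRd.hasDerivAt
  rw [e3.deriv, e4.deriv, hd0, h.B_zero k] at e2
  apply hR0
  simpa using e2.symm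

/-- Division by the Blaschke product. -/
lemma exists_div {β : ℕ → ℂ} (h : BSeq β) (hi : Function.Injective β) {f : ℂ → ℂ}
    (hf : DifferentiableOn ℂ f (ball 0 1)) {M : ℝ}
    (hb : ∀ z, ‖z‖ < 1 → ‖f z‖ ≤ M) (h0 : ∀ k, f (β k) = 0) :
    ∃ E : ℂ → ℂ, DifferentiableOn ℂ E (ball 0 1) ∧ (∀ z, ‖z‖ < 1 → ‖E z‖ ≤ M) ∧
      ∀ z, ‖z‖ < 1 → f z = B β z * E z := by
  classical
  set E : ℂ → ℂ := fun z => if B β z = 0 then deriv f z / deriv (B β) z else f z / B β z with hE
  have hfB : ∀ z, ‖z‖ < 1 → B β z = 0 → f z = 0 := by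
    intro z hz hB
    obtain ⟨k, rfl⟩ := exists_zero h hz hB
    exact h0 k
  have hdiff : ∀ z, ‖z‖ < 1 → DifferentiableAt ℂ E z := by
    intro z hz
    have hmem : ball (0:ℂ) 1 ∈ 𝓝 z := isOpen_ball.mem_nhds (mem_ball_zero_iff.2 hz)
    have hBd : DifferentiableAt ℂ (B β) z := h.differentiableOn.differentiableAt hmem
    have hfd : DifferentiableAt ℂ f z := hf.differentiableAt hmem
    by_cases hB : B β z = 0
    · have hdB : deriv (B β) z ≠ 0 := by
        obtain ⟨k, rfl⟩ := exists_zero h hz hB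
        exact dslope_B_ne h hi k
      have h1 : DifferentiableAt ℂ (dslope (B β) z) z :=
        ((Complex.differentiableOn_dslope hmem).2 h.differentiableOn).differentiableAt hmem
      have h2 : DifferentiableAt ℂ (dslope f z) z :=
        ((Complex.differentiableOn_dslope hmem).2 hf).differentiableAt hmem
      have hne : dslope (B β) z z ≠ 0 := by rw [dslope_same]; exact hdB
      have h3 : ∀ᶠ w in 𝓝 z, dslope (B β) z w ≠ 0 := h1.continuousAt.eventually_ne hne
      have e : E =ᶠ[𝓝 z] fun w => dslope f z w / dslope (B β) z w := by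
        filter_upwards [h3] with w hw
        by_cases hwz : w = z
        · subst hwz
          simp only [hE, hB, if_true, dslope_same]
        · have e1 := sub_smul_dslope (B β) z w
          have e2 := sub_smul_dslope f z w
          rw [hB, sub_zero, smul_eq_mul] at e1
          rw [hfB z hz hB, sub_zero, smul_eq_mul] at e2
          have hs : w - z ≠ 0 := sub_ne_zero.2 hwz
          have hBw : B β w ≠ 0 := by rw [← e1]; exact mul_ne_zero hs hw
          simp only [hE, hBw, if_false]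
          rw [← e1, ← e2, mul_div_mul_left _ _ hs]
      rw [e.differentiableAt_iff]
      exact h2.div h1 hne
    · have h3 : ∀ᶠ w in 𝓝 z, B β w ≠ 0 := hBd.continuousAt.eventually_ne hB
      have e : E =ᶠ[𝓝 z] fun w => f w / B β w := by
        filter_upwards [h3] with w hw
        simp only [hE, hw, if_false]
      rw [e.differentiableAt_iff]
      exact hfd.div hBd hB
  have hbd : ∀ z, ‖z‖ < 1 → B β z ≠ 0 → ‖E z‖ ≤ M := by
    intro z hz hB
    simp only [hE, hB, if_false]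
    rw [norm_div, div_le_iff₀ (norm_pos_iff.2 hB)]
    exact norm_le_B h hi hf hb h0 hz
  refine ⟨E, fun z hz => (hdiff z (mem_ball_zero_iff.1 hz)).differentiableWithinAt, ?_, ?_⟩
  · intro z hz
    by_cases hB : B β z = 0
    · have hmem : ball (0:ℂ) 1 ∈ 𝓝 z := isOpen_ball.mem_nhds (mem_ball_zero_iff.2 hz)
      have hdB : deriv (B β) z ≠ 0 := by
        obtain ⟨k, rfl⟩ := exists_zero h hz hB
        exact dslope_B_ne h hi k
      have h1 : DifferentiableAt ℂ (dslope (B β) z) z :=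
        ((Complex.differentiableOn_dslope hmem).2 h.differentiableOn).differentiableAt hmem
      have hne : dslope (B β) z z ≠ 0 := by rw [dslope_same]; exact hdB
      have h3 : ∀ᶠ w in 𝓝 z, dslope (B β) z w ≠ 0 := h1.continuousAt.eventually_ne hne
      have ht : Tendsto (fun w => ‖E w‖) (𝓝[≠] z) (𝓝 ‖E z‖) :=
        ((hdiff z hz).continuousAt.norm.tendsto).mono_left nhdsWithin_le_nhds
      refine le_of_tendsto ht ?_
      filter_upwards [nhdsWithin_le_nhds h3, nhdsWithin_le_nhds hmem, self_mem_nhdsWithin]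
        with w hw hw1 hwz
      refine hbd w (mem_ball_zero_iff.1 hw1) ?_
      have e1 := sub_smul_dslope (B β) z w
      rw [hB, sub_zero, smul_eq_mul] at e1
      rw [← e1]
      exact mul_ne_zero (sub_ne_zero.2 hwz) hw
    · exact hbd z hz hB
  · intro z hz
    by_cases hB : B β z = 0
    · rw [hB, zero_mul]; exact hfB z hz hB
    · simp only [hE, hB, if_false]
      rw [mul_div_cancel₀ _ hB]

/-- A holomorphic function on the disc whose imaginary part is `O (1 - |B|)` is constant. -/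
lemma const_of_im {β : ℕ → ℂ} (h : BSeq β) {G : ℂ → ℂ} (hG : DifferentiableOn ℂ G (ball 0 1))
    {C : ℝ} (hC0 : 0 ≤ C) (hC : ∀ z, ‖z‖ < 1 → |(G z).im| ≤ C * (1 - ‖B β z‖)) :
    ∃ κ : ℂ, ∀ z, ‖z‖ < 1 → G z = κ := by
  have him : ∀ q, ‖q‖ < 1 → (G q).im = 0 := by
    intro q hq
    have hbound : ∀ k, ENNReal.ofReal (2 * Real.pi * |(G q).im|) ≤
        ENNReal.ofReal C * ∫⁻ t, ENNReal.ofReal (1 - ‖B β (gm q k t)‖) ∂mu := by
      intro k
      set H : ℂ → ℂ := fun z => G (mob q z) with hH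
      have hHd : DifferentiableOn ℂ H (ball 0 1) := hG.comp (differentiableOn_mob hq) (mapsTo_mob hq)
      have hr0 := rk_pos k
      have hr1 := rk_lt k
      have hr : |rk k| = rk k := abs_of_pos hr0
      have hsub : closedBall (0:ℂ) (rk k) ⊆ ball 0 1 := closedBall_subset_ball hr1
      have hd : DiffContOnCl ℂ H (ball 0 |rk k|) := by
        rw [hr]
        refine DifferentiableOn.diffContOnCl ?_
        rw [closure_ball _ hr0.ne']
        exact hHd.mono hsub
      have hm := hd.circleAverage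
      have h2 := circleAverage_mu H 0 (rk k)
      rw [hm] at h2
      have hci : Integrable (fun t => H (circleMap 0 (rk k) t)) mu := by
        have : CircleIntegrable H 0 (rk k) := by
          refine ContinuousOn.circleIntegrable hr0.le ?_
          exact hHd.continuousOn.mono (sphere_subset_closedBall.trans hsub)
        exact integrable_mu_of_circleIntegrable this
      have hH0 : H 0 = G q := by rw [hH]; simp only [mob_zero]
      rw [hH0] at h2
      have h3 : 2 * Real.pi * (G q).im = ∫ t, (H (circleMap 0 (rk k) t)).im ∂mu := by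
        have h4 : ∫ t, (H (circleMap 0 (rk k) t)).im ∂mu =
            (∫ t, H (circleMap 0 (rk k) t) ∂mu).im := integral_im hci
        rw [h4, ← h2]
        simp
      have h5 : 2 * Real.pi * |(G q).im| ≤ ∫ t, |(H (circleMap 0 (rk k) t)).im| ∂mu := by
        have h6 := norm_integral_le_integral_norm (μ := mu) (fun t => (H (circleMap 0 (rk k) t)).im)
        rw [← h3, Real.norm_eq_abs, abs_mul, abs_of_pos two_pi_pos] at h6
        exact h6
      have hi : Integrable (fun t => |(H (circleMap 0 (rk k) t)).im|) mu := hci.im.abs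
      refine (ENNReal.ofReal_le_ofReal h5).trans ((ofReal_integral_le _ hi).trans ?_)
      rw [← lintegral_const_mul' _ _ ENNReal.ofReal_ne_top]
      refine lintegral_mono fun t => ?_
      rw [← ENNReal.ofReal_mul hC0]
      exact ENNReal.ofReal_le_ofReal (hC (gm q k t) (norm_gm_lt hq k t))
    have hlim : Tendsto (fun k => ENNReal.ofReal C *
        ∫⁻ t, ENNReal.ofReal (1 - ‖B β (gm q k t)‖) ∂mu) atTop (𝓝 0) := by
      have := ENNReal.Tendsto.const_mul (tendsto_B h hq) (a := ENNReal.ofReal C)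
        (Or.inr ENNReal.ofReal_ne_top)
      simpa using this
    have h0 : ENNReal.ofReal (2 * Real.pi * |(G q).im|) ≤ 0 :=
      ge_of_tendsto hlim (Eventually.of_forall hbound)
    have h1 : 2 * Real.pi * |(G q).im| ≤ 0 := by
      have := nonpos_iff_eq_zero.1 h0
      rwa [ENNReal.ofReal_eq_zero] at this
    have h2 : |(G q).im| ≤ 0 := by
      by_contra hcon
      push Not at hcon
      have := mul_pos two_pi_pos hcon
      linarith
    exact abs_nonpos_iff.1 h2
  have hA : AnalyticOnNhd ℂ G (ball 0 1) := hG.analyticOnNhd isOpen_ball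
  rcases hA.is_constant_or_isOpen (convex_ball (0:ℂ) 1).isPreconnected with ⟨κ, hκ⟩ | hopen
  · exact ⟨κ, fun z hz => hκ z (mem_ball_zero_iff.2 hz)⟩
  · exfalso
    have h1 := hopen (ball 0 1) subset_rfl isOpen_ball
    have h0 : G 0 ∈ G '' ball 0 1 := ⟨0, by simp, rfl⟩
    obtain ⟨ε, hε, hball⟩ := Metric.isOpen_iff.1 h1 _ h0
    have h2 : G 0 + (ε / 2 : ℝ) * Complex.I ∈ ball (G 0) ε := by
      rw [mem_ball, dist_eq_norm, add_sub_cancel_left, norm_mul, Complex.norm_I, mul_one,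
        Complex.norm_real, Real.norm_of_nonneg (by positivity)]
      linarith
    obtain ⟨w, hw, hwe⟩ := hball h2
    have h3 := him w (mem_ball_zero_iff.1 hw)
    rw [hwe] at h3
    have h4 := him 0 (by simp)
    simp [h4] at h3
    linarith

end Pool.Agent.R261.BDiv
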