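import Mathlib

/-! Concentration of `G^n H^m` at a unique maximum. -/

set_option autoImplicit false

open Set Filter Topology MeasureTheory intervalIntegral

namespace Pool.Agent.R261.Crit

lemma conc {W : ℕ → ℝ → ℝ} {a b ξ : ℝ} (hξ : ξ ∈ Ioo a b) (hWc : ∀ k, Continuous (W k))
    (hW0 : ∀ k, ∀ x ∈ Icc a b, 0 ≤ W k x) (hpos : ∀ᶠ k in atTop, 0 < ∫ x in a..b, W k x)
    (hpeak : ∀ δ > 0, ∀ ε > 0, ∀ᶠ k in atTop, ∀ x ∈ Icc a b, δ ≤ |x - ξ| →
      W k x ≤ ε * ∫ y in a..b, W k y)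
    {r : ℝ → ℝ} (hr : Continuous r) :
    Tendsto (fun k => (∫ x in a..b, r x * W k x) / ∫ x in a..b, W k x) atTop (𝓝 (r ξ)) := by
  have hab : a < b := hξ.1.trans hξ.2
  obtain ⟨B, hB⟩ := isCompact_Icc.exists_bound_of_continuousOn
    (f := fun x => r x - r ξ) (s := Icc a b) ((hr.sub continuous_const).continuousOn)
  have hB0 : 0 ≤ B := (norm_nonneg _).trans (hB ξ (Ioo_subset_Icc_self hξ))
  rw [Metric.tendsto_nhds]
  intro ε hε
  obtain ⟨δ, hδ, hδ'⟩ := Metric.continuous_iff.1 hr ξ (ε / 2) (by positivity)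
  have hc : 0 < ε / (4 * (B + 1) * (b - a)) := by
    have : 0 < b - a := by linarith
    positivity
  filter_upwards [hpos, hpeak δ hδ _ hc] with k hk1 hk2
  set J := ∫ x in a..b, W k x with hJ
  have hW : IntervalIntegrable (W k) volume a b := (hWc k).intervalIntegrable _ _
  have h1 : (∫ x in a..b, r x * W k x) / J - r ξ = (∫ x in a..b, (r x - r ξ) * W k x) / J := by
    have : (∫ x in a..b, (r x - r ξ) * W k x) = (∫ x in a..b, r x * W k x) - r ξ * J := by
      rw [hJ, ← intervalIntegral.integral_const_mul, ← intervalIntegral.integral_sub]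
      · congr 1
        ext x
        ring
      · exact (hr.mul (hWc k)).intervalIntegrable _ _
      · exact (continuous_const.mul (hWc k)).intervalIntegrable _ _
    rw [this]
    field_simp
  rw [Real.dist_eq, h1, abs_div, abs_of_pos hk1, div_lt_iff₀ hk1]
  have h2 : |∫ x in a..b, (r x - r ξ) * W k x| ≤
      ∫ x in a..b, (ε / 2 * W k x + B * (ε / (4 * (B + 1) * (b - a)) * J)) := by
    refine (intervalIntegral.abs_integral_le_integral_abs hab.le).trans ?_
    refine intervalIntegral.integral_mono_on hab.le ?_ ?_ ?_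
    · exact (((hr.sub continuous_const).mul (hWc k)).abs).intervalIntegrable _ _
    · exact ((continuous_const.mul (hWc k)).add continuous_const).intervalIntegrable _ _
    · intro x hx
      rw [abs_mul, abs_of_nonneg (hW0 k x hx)]
      have hb : |r x - r ξ| ≤ B := by
        have := hB x hx
        rwa [Real.norm_eq_abs] at this
      by_cases hxd : δ ≤ |x - ξ|
      · have h3 := hk2 x hx hxd
        have h4 : |r x - r ξ| * W k x ≤ B * (ε / (4 * (B + 1) * (b - a)) * J) :=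
          mul_le_mul hb h3 (hW0 k x hx) hB0
        have h5 : 0 ≤ ε / 2 * W k x := mul_nonneg (by positivity) (hW0 k x hx)
        linarith
      · push Not at hxd
        have h3 := hδ' x (by rwa [Real.dist_eq])
        rw [Real.dist_eq] at h3
        have h4 : |r x - r ξ| * W k x ≤ ε / 2 * W k x :=
          mul_le_mul_of_nonneg_right h3.le (hW0 k x hx)
        have h5 : 0 ≤ B * (ε / (4 * (B + 1) * (b - a)) * J) := by positivity
        linarith
  refine h2.trans_lt ?_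
  rw [intervalIntegral.integral_add, intervalIntegral.integral_const_mul,
    intervalIntegral.integral_const, ← hJ, smul_eq_mul]
  · have hba : 0 < b - a := by linarith
    have h6 : (b - a) * (B * (ε / (4 * (B + 1) * (b - a)) * J)) = (B / (B + 1)) * (ε / 4 * J) := by
      field_simp
    rw [h6]
    have h7 : B / (B + 1) ≤ 1 := by
      rw [div_le_one (by linarith)]
      linarith
    have h8 : B / (B + 1) * (ε / 4 * J) ≤ 1 * (ε / 4 * J) :=
      mul_le_mul_of_nonneg_right h7 (by positivity)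
    have : 0 < ε * J := by positivity
    nlinarith
  · exact (continuous_const.mul (hWc k)).intervalIntegrable _ _
  · exact continuous_const.intervalIntegrable _ _

/-- lower bound for the integral of a nonnegative function by its values near a point -/
lemma integral_lower {W : ℝ → ℝ} {a b ξ η c : ℝ} (hW : Continuous W)
    (hη : 0 < η) (h1 : a ≤ ξ - η) (h2 : ξ + η ≤ b) (hW0 : ∀ x ∈ Icc a b, 0 ≤ W x)
    (hc : ∀ x ∈ Icc (ξ - η) (ξ + η), c ≤ W x) : 2 * η * c ≤ ∫ x in a..b, W x := by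
  have h3 : ∫ x in (ξ - η)..(ξ + η), c = 2 * η * c := by
    rw [intervalIntegral.integral_const, smul_eq_mul]
    ring
  rw [← h3]
  calc ∫ x in (ξ - η)..(ξ + η), c ≤ ∫ x in (ξ - η)..(ξ + η), W x :=
        intervalIntegral.integral_mono_on (by linarith) (continuous_const.intervalIntegrable _ _)
          (hW.intervalIntegrable _ _) hc
    _ ≤ ∫ x in a..b, W x := by
        refine intervalIntegral.integral_mono_interval h1 (by linarith) h2 ?_
          (hW.intervalIntegrable _ _)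
        rw [EventuallyLE, ae_restrict_iff' measurableSet_Ioc]
        exact Eventually.of_forall fun x hx => hW0 x (Ioc_subset_Icc_self hx)

section peak

variable {a b ξ s : ℝ} {G H : ℝ → ℝ}

lemma cont_psi (hG : Continuous G) (hH : Continuous H) (hs : 0 < s) (x : ℝ) :
    ContinuousAt (fun p : ℝ × ℝ => G p.2 ^ p.1 * H p.2) (s, x) := by
  refine ContinuousAt.mul ?_ (hH.continuousAt.comp continuousAt_snd)
  have h1 : ContinuousAt (fun q : ℝ × ℝ => q.1 ^ q.2) (G x, s) :=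
    Real.continuousAt_rpow_of_pos (G x, s) hs
  exact ContinuousAt.comp (f := fun p : ℝ × ℝ => (G p.2, p.1)) (x := (s, x)) h1
    ((hG.continuousAt.comp continuousAt_snd).prodMk continuousAt_fst)

lemma pow_eq {g h σ : ℝ} {n m : ℕ} (hg : 0 ≤ g) (hm : 0 < m) (hσ : σ = (n : ℝ) / m) :
    g ^ n * h ^ m = (g ^ σ * h) ^ m := by
  rw [mul_pow, ← Real.rpow_natCast (g ^ σ) m, ← Real.rpow_mul hg, hσ,
    div_mul_cancel₀ _ (by exact_mod_cast hm.ne'), Real.rpow_natCast]

/-- eventual lower bound of the integral. -/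
lemma lower (hξ : ξ ∈ Ioo a b) (hG : Continuous G) (hH : Continuous H)
    (hG0 : ∀ x ∈ Icc a b, 0 ≤ G x) (hH0 : ∀ x ∈ Icc a b, 0 ≤ H x) (hs : 0 < s)
    {M : ℝ} (hM0 : 0 ≤ M) (hM : M < G ξ ^ s * H ξ) {n m : ℕ → ℕ} (hm : Tendsto m atTop atTop)
    (hr : Tendsto (fun k => (n k : ℝ) / m k) atTop (𝓝 s)) :
    ∃ η > 0, ∀ᶠ k in atTop, 2 * η * M ^ m k ≤ ∫ x in a..b, G x ^ n k * H x ^ m k := by
  have h1 : ∀ᶠ p in 𝓝 (s, ξ), M < (fun p : ℝ × ℝ => G p.2 ^ p.1 * H p.2) p :=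
    (cont_psi hG hH hs ξ).eventually (lt_mem_nhds hM)
  rw [Metric.eventually_nhds_iff] at h1
  obtain ⟨η₀, hη₀, h2⟩ := h1
  obtain ⟨hξa, hξb⟩ := hξ
  set η := min (η₀ / 2) (min (ξ - a) (b - ξ)) with hη
  have hηpos : 0 < η := lt_min (by positivity) (lt_min (by linarith) (by linarith))
  have e1 : η ≤ η₀ / 2 := min_le_left _ _
  have e2 : η ≤ ξ - a := (min_le_right _ _).trans (min_le_left _ _)
  have e3 : η ≤ b - ξ := (min_le_right _ _).trans (min_le_right _ _)
  refine ⟨η, hηpos, ?_⟩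
  filter_upwards [hm.eventually_gt_atTop 0, hr.eventually (Metric.ball_mem_nhds s hη₀)] with k h3 h4
  refine integral_lower (ξ := ξ) ((hG.pow _).mul (hH.pow _)) hηpos (by linarith) (by linarith)
    (fun x hx => mul_nonneg (pow_nonneg (hG0 x hx) _) (pow_nonneg (hH0 x hx) _)) ?_
  intro x hx
  have hx' : x ∈ Icc a b := ⟨by linarith [hx.1], by linarith [hx.2]⟩
  rw [pow_eq (hG0 x hx') h3 rfl]
  refine pow_le_pow_left₀ hM0 (h2 (y := ((n k : ℝ) / m k, x)) ?_).le _
  rw [Prod.dist_eq, max_lt_iff]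
  refine ⟨h4, ?_⟩
  rw [Real.dist_eq, abs_lt]
  constructor <;> linarith [hx.1, hx.2]

lemma peak (hξ : ξ ∈ Ioo a b) (hG : Continuous G) (hH : Continuous H)
    (hG0 : ∀ x ∈ Icc a b, 0 ≤ G x) (hH0 : ∀ x ∈ Icc a b, 0 ≤ H x) (hs : 0 < s)
    (hmax : ∀ x ∈ Icc a b, x ≠ ξ → G x ^ s * H x < G ξ ^ s * H ξ)
    {n m : ℕ → ℕ} (hm : Tendsto m atTop atTop)
    (hr : Tendsto (fun k => (n k : ℝ) / m k) atTop (𝓝 s)) :
    ∀ δ > 0, ∀ ε > 0, ∀ᶠ k in atTop, ∀ x ∈ Icc a b, δ ≤ |x - ξ| →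
      G x ^ n k * H x ^ m k ≤ ε * ∫ y in a..b, G y ^ n k * H y ^ m k := by
  intro δ hδ ε hε
  set K : Set ℝ := {x | x ∈ Icc a b ∧ δ ≤ |x - ξ|} with hK
  have hKc : IsCompact K := by
    refine isCompact_Icc.inter_right ?_
    exact isClosed_le continuous_const ((continuous_id.sub continuous_const).abs)
  have hab : a < b := hξ.1.trans hξ.2
  have hM0 : 0 < G ξ ^ s * H ξ := by
    refine lt_of_le_of_lt ?_ (hmax a (left_mem_Icc.2 hab.le) hξ.1.ne)
    exact mul_nonneg (Real.rpow_nonneg (hG0 a (left_mem_Icc.2 hab.le)) _)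
      (hH0 a (left_mem_Icc.2 hab.le))
  obtain ⟨M', hM'0, hM'1, hM'⟩ : ∃ M', 0 ≤ M' ∧ M' < G ξ ^ s * H ξ ∧
      ∀ x ∈ K, G x ^ s * H x ≤ M' := by
    rcases K.eq_empty_or_nonempty with h | h
    · exact ⟨0, le_rfl, hM0, by simp [h]⟩
    · obtain ⟨x, hx, hx'⟩ := hKc.exists_isMaxOn h
        (f := fun x => G x ^ s * H x)
        (((hG.rpow_const fun _ => Or.inr hs.le).mul hH).continuousOn)
      refine ⟨G x ^ s * H x, mul_nonneg (Real.rpow_nonneg (hG0 x hx.1) _) (hH0 x hx.1),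
        hmax x hx.1 ?_, fun y hy => hx' hy⟩
      rintro rfl
      have := hx.2
      simp at this
      linarith
  obtain ⟨M1, h1, h1'⟩ := exists_between hM'1
  obtain ⟨M2, h2, h2'⟩ := exists_between h1'
  have hM1 : 0 < M1 := lt_of_le_of_lt hM'0 h1
  have hM2 : 0 < M2 := hM1.trans h2
  have h3 : ∀ᶠ σ in 𝓝 s, ∀ x ∈ K, G x ^ σ * H x < M1 := by
    refine hKc.eventually_forall_of_forall_eventually fun x hx => ?_
    exact (cont_psi hG hH hs x).eventually (gt_mem_nhds ((hM' x hx).trans_lt h1))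
  obtain ⟨η, hη, h4⟩ := lower hξ hG hH hG0 hH0 hs hM2.le h2' hm hr
  have h5 : Tendsto (fun k => (M1 / M2) ^ m k) atTop (𝓝 0) :=
    (tendsto_pow_atTop_nhds_zero_of_lt_one (by positivity) ((div_lt_one hM2).2 h2)).comp hm
  filter_upwards [hm.eventually_gt_atTop 0, hr.eventually h3, h4,
    h5.eventually (gt_mem_nhds (show (0 : ℝ) < ε * (2 * η) by positivity))] with k h6 h7 h8 h9
  intro x hx hxd
  calc G x ^ n k * H x ^ m k = (G x ^ ((n k : ℝ) / m k) * H x) ^ m k :=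
        pow_eq (hG0 x hx) h6 rfl
    _ ≤ M1 ^ m k := pow_le_pow_left₀ (mul_nonneg (Real.rpow_nonneg (hG0 x hx) _) (hH0 x hx))
        (h7 x ⟨hx, hxd⟩).le _
    _ ≤ ε * (2 * η * M2 ^ m k) := by
        rw [div_pow, div_lt_iff₀ (by positivity)] at h9
        nlinarith
    _ ≤ ε * ∫ y in a..b, G y ^ n k * H y ^ m k := by gcongr

/-- **Concentration**: `∫ r G^n H^m / ∫ G^n H^m → r ξ`. -/
lemma conc_pow (hξ : ξ ∈ Ioo a b) (hG : Continuous G) (hH : Continuous H)
    (hG0 : ∀ x ∈ Icc a b, 0 ≤ G x) (hH0 : ∀ x ∈ Icc a b, 0 ≤ H x) (hs : 0 < s)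
    (hmax : ∀ x ∈ Icc a b, x ≠ ξ → G x ^ s * H x < G ξ ^ s * H ξ)
    {n m : ℕ → ℕ} (hm : Tendsto m atTop atTop)
    (hr : Tendsto (fun k => (n k : ℝ) / m k) atTop (𝓝 s)) {r : ℝ → ℝ} (hr' : Continuous r) :
    Tendsto (fun k => (∫ x in a..b, r x * (G x ^ n k * H x ^ m k)) /
      ∫ x in a..b, G x ^ n k * H x ^ m k) atTop (𝓝 (r ξ)) := by
  have hab : a < b := hξ.1.trans hξ.2
  refine conc hξ (fun k => (hG.pow _).mul (hH.pow _)) (fun k x hx =>
    mul_nonneg (pow_nonneg (hG0 x hx) _) (pow_nonneg (hH0 x hx) _)) ?_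
    (peak hξ hG hH hG0 hH0 hs hmax hm hr) hr'
  have hM0 : 0 < G ξ ^ s * H ξ := by
    refine lt_of_le_of_lt ?_ (hmax a (left_mem_Icc.2 hab.le) hξ.1.ne)
    exact mul_nonneg (Real.rpow_nonneg (hG0 a (left_mem_Icc.2 hab.le)) _)
      (hH0 a (left_mem_Icc.2 hab.le))
  obtain ⟨M, h1, h2⟩ := exists_between hM0
  obtain ⟨η, hη, h3⟩ := lower hξ hG hH hG0 hH0 hs h1.le h2 hm hr
  filter_upwards [h3] with k hk
  exact lt_of_lt_of_le (by positivity) hk

end peak

end Pool.Agent.R261.Crit
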