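import Mathlib

/-! Choice of the parameters `s, t, ξ`. -/

set_option autoImplicit false

open Set Filter Topology

namespace Pool.Agent.R261.Crit

/-- the equation `h s y = 0` says that the three maxima agree. -/
noncomputable def h (s y : ℝ) : ℝ :=
  (1 + s) * Real.log y + s * Real.log s - s * Real.log (1 + (1 + s) * y)

lemma h_mono {s y z : ℝ} (hs : 0 < s) (hy : 0 < y) (hyz : y < z) : h s y < h s z := by
  unfold h
  have hz : 0 < z := hy.trans hyz
  have h1 : Real.log (1 + (1 + s) * z) - Real.log (1 + (1 + s) * y) < Real.log z - Real.log y := by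
    rw [← Real.log_div (by positivity) (by positivity), ← Real.log_div hz.ne' hy.ne']
    refine Real.log_lt_log (by positivity) ?_
    rw [div_lt_div_iff₀ (by positivity) hy]
    nlinarith
  have h2 : 0 < Real.log z - Real.log y := by
    have := Real.log_lt_log hy hyz
    linarith
  nlinarith

lemma h_cont {y : ℝ} (hy : 0 < y) {s : ℝ} (hs : 0 < s) : ContinuousAt (fun s => h s y) s := by
  unfold h
  have h1 : (1 + (1 + s) * y) ≠ 0 := by positivity
  refine ContinuousAt.sub (ContinuousAt.add ?_ ?_) ?_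
  · exact (continuousAt_const.add continuousAt_id).mul continuousAt_const
  · exact continuousAt_id.mul (Real.continuousAt_log hs.ne')
  · refine continuousAt_id.mul (ContinuousAt.log ?_ h1)
    exact continuousAt_const.add ((continuousAt_const.add continuousAt_id).mul continuousAt_const)

lemma h_one {s : ℝ} (hs : 0 < s) (hs1 : s ≤ 1) : h s 1 < 0 := by
  unfold h
  have h1 : Real.log s ≤ 0 := Real.log_nonpos hs.le hs1
  have h2 : 0 < Real.log (1 + (1 + s) * 1) := Real.log_pos (by linarith)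
  rw [Real.log_one]
  nlinarith

lemma h_nine {s : ℝ} (hs : 1 / 2 ≤ s) (hs1 : s ≤ 1) : 0 < h s 9 := by
  unfold h
  have hs0 : 0 < s := by linarith
  have e : (1 + s) * Real.log 9 + s * Real.log s - s * Real.log (1 + (1 + s) * 9) =
      Real.log 9 + s * Real.log (9 * s / (1 + (1 + s) * 9)) := by
    rw [Real.log_div (by positivity) (by positivity), Real.log_mul (by norm_num) hs0.ne']
    ring
  rw [e]
  have h1 : (9 / 29 : ℝ) ≤ 9 * s / (1 + (1 + s) * 9) := by
    rw [div_le_div_iff₀ (by norm_num) (by positivity)]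
    linarith
  have h2 : Real.log (9 / 29) ≤ Real.log (9 * s / (1 + (1 + s) * 9)) :=
    Real.log_le_log (by norm_num) h1
  have h3 : Real.log (9 / 29) < 0 := Real.log_neg (by norm_num) (by norm_num)
  have h4 : 0 < Real.log 9 + Real.log (9 / 29) := by
    rw [← Real.log_mul (by norm_num) (by norm_num)]
    exact Real.log_pos (by norm_num)
  have h5 : Real.log (9 / 29) ≤ s * Real.log (9 / 29) := by nlinarith
  have h6 : s * Real.log (9 / 29) ≤ s * Real.log (9 * s / (1 + (1 + s) * 9)) := by gcongr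
  linarith

lemma exists_y {s : ℝ} (hs : 1 / 2 ≤ s) (hs1 : s ≤ 1) : ∃ y, 1 < y ∧ h s y = 0 := by
  have hs0 : 0 < s := by linarith
  have hc : ContinuousOn (h s) (Icc 1 9) := by
    unfold h
    intro y hy
    have hy0 : 0 < y := lt_of_lt_of_le one_pos hy.1
    have h1 : (1 + (1 + s) * y) ≠ 0 := by positivity
    refine ContinuousAt.continuousWithinAt ?_
    refine ContinuousAt.sub (ContinuousAt.add ?_ continuousAt_const) ?_
    · exact continuousAt_const.mul (Real.continuousAt_log hy0.ne')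
    · refine continuousAt_const.mul (ContinuousAt.log ?_ h1)
      exact continuousAt_const.add (continuousAt_const.mul continuousAt_id)
  obtain ⟨y, hy, hy0⟩ := intermediate_value_Ioo (by norm_num : (1 : ℝ) ≤ 9) hc
    ⟨h_one hs0 hs1, h_nine hs hs1⟩
  exact ⟨y, hy.1, hy0⟩

lemma h_inj {s y z : ℝ} (hs : 0 < s) (hy : 0 < y) (hz : 0 < z) (h1 : h s y = 0)
    (h2 : h s z = 0) : y = z := by
  rcases lt_trichotomy y z with h3 | h3 | h3
  · have := h_mono hs hy h3
    linarith
  · exact h3
  · have := h_mono hs hz h3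
    linarith

noncomputable def tt (s y : ℝ) : ℝ := Real.sqrt (1 + (1 + s) * y)
noncomputable def xx (y : ℝ) : ℝ := Real.sqrt (1 + y)
noncomputable def phi (t ξ : ℝ) : ℝ :=
  Real.log ((t - ξ) / (t + ξ)) / Real.log ((ξ - 1) / (ξ + 1))

lemma phi_eq_two {t ξ : ℝ} (h1 : 1 < ξ) (h2 : ξ < t) : phi t ξ = 2 ↔ 2 * t = ξ ^ 2 + 1 := by
  unfold phi
  have h3 : 0 < (ξ - 1) / (ξ + 1) := div_pos (by linarith) (by linarith)
  have h3' : (ξ - 1) / (ξ + 1) < 1 := by
    rw [div_lt_one (by linarith)]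
    linarith
  have h4 : Real.log ((ξ - 1) / (ξ + 1)) < 0 := Real.log_neg h3 h3'
  have h5 : 0 < (t - ξ) / (t + ξ) := div_pos (by linarith) (by linarith)
  rw [div_eq_iff h4.ne]
  have e : 2 * Real.log ((ξ - 1) / (ξ + 1)) = Real.log (((ξ - 1) / (ξ + 1)) ^ 2) := by
    rw [Real.log_pow]
    norm_num
  rw [e]
  have h6 : Real.log ((t - ξ) / (t + ξ)) = Real.log (((ξ - 1) / (ξ + 1)) ^ 2) ↔
      (t - ξ) / (t + ξ) = ((ξ - 1) / (ξ + 1)) ^ 2 :=
    ⟨fun h => Real.log_injOn_pos h5 (by positivity : 0 < ((ξ - 1) / (ξ + 1)) ^ 2) h,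
      fun h => by rw [h]⟩
  rw [h6, div_pow, div_eq_div_iff (by linarith) (by positivity)]
  constructor
  · intro h7
    have h8 : 2 * ξ * (2 * t) = 2 * ξ * (ξ ^ 2 + 1) := by nlinarith
    exact mul_left_cancel₀ (by positivity) h8
  · intro h7
    have : t = (ξ ^ 2 + 1) / 2 := by linarith
    rw [this]
    ring

/-- The parameters. -/
theorem exists_param : ∃ s t ξ : ℝ, 0 < s ∧ Irrational s ∧ 1 < ξ ∧ ξ < t ∧
    t ^ 2 = 1 + (1 + s) * (ξ ^ 2 - 1) ∧ 1 < ξ ^ 2 - 1 ∧
    Real.log (ξ ^ 2 - 1) = s * (Real.log (t ^ 2) - Real.log (t ^ 2 - ξ ^ 2)) ∧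
    Irrational (phi t ξ) := by
  have hex : ∀ s : ℝ, ∃ y : ℝ, s ∈ Icc (1 / 2 : ℝ) 1 → 1 < y ∧ h s y = 0 := by
    intro s
    by_cases hs : s ∈ Icc (1 / 2 : ℝ) 1
    · obtain ⟨y, hy⟩ := exists_y hs.1 hs.2
      exact ⟨y, fun _ => hy⟩
    · exact ⟨0, fun h => absurd h hs⟩
  choose Y hY using hex
  have hYc : ContinuousOn Y (Icc (1 / 2) 1) := by
    intro s hs
    have hs0 : 0 < s := by linarith [hs.1]
    rw [ContinuousWithinAt, Metric.tendsto_nhds]
    intro ε hε
    set e := min ε (1 / 2) with he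
    have he0 : 0 < e := lt_min hε (by norm_num)
    have he1 : e ≤ ε := min_le_left _ _
    have he2 : e ≤ 1 / 2 := min_le_right _ _
    obtain ⟨hy1, hy2⟩ := hY s hs
    have h1 : h s (Y s - e) < 0 := by
      rw [← hy2]
      exact h_mono hs0 (by linarith) (by linarith)
    have h2 : 0 < h s (Y s + e) := by
      rw [← hy2]
      exact h_mono hs0 (by linarith) (by linarith)
    have h3 := (h_cont (y := Y s - e) (by linarith) hs0).eventually (gt_mem_nhds h1)
    have h4 := (h_cont (y := Y s + e) (by linarith) hs0).eventually (lt_mem_nhds h2)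
    filter_upwards [mem_nhdsWithin_of_mem_nhds h3, mem_nhdsWithin_of_mem_nhds h4,
      self_mem_nhdsWithin] with s' h5 h6 h7
    have hs0' : 0 < s' := by linarith [h7.1]
    obtain ⟨hz1, hz2⟩ := hY s' h7
    rw [Real.dist_eq, abs_lt]
    constructor
    · by_contra hcon
      push Not at hcon
      have h8 : Y s' ≤ Y s - e := by linarith
      rcases h8.eq_or_lt with h9 | h9
      · rw [← h9] at h5
        linarith
      · have := h_mono hs0' (by linarith) h9
        linarith
    · by_contra hcon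
      push Not at hcon
      have h8 : Y s + e ≤ Y s' := by linarith
      rcases h8.eq_or_lt with h9 | h9
      · rw [h9] at h6
        linarith
      · have := h_mono hs0' (by linarith) h9
        linarith
  -- basic facts
  have hbas : ∀ s ∈ Icc (1 / 2 : ℝ) 1, 1 < xx (Y s) ∧ xx (Y s) < tt s (Y s) := by
    intro s hs
    obtain ⟨hy1, hy2⟩ := hY s hs
    have hs0 : 0 < s := by linarith [hs.1]
    constructor
    · unfold xx
      rw [Real.lt_sqrt (by norm_num)]
      linarith
    · unfold xx tt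
      refine Real.sqrt_lt_sqrt (by linarith) ?_
      nlinarith
  set F : ℝ → ℝ := fun s => phi (tt s (Y s)) (xx (Y s)) with hF
  have hFc : ContinuousOn F (Icc (1 / 2) 1) := by
    have ht : ContinuousOn (fun s => tt s (Y s)) (Icc (1 / 2) 1) := by
      unfold tt
      exact (continuousOn_const.add ((continuousOn_const.add continuousOn_id).mul hYc)).sqrt
    have hx : ContinuousOn (fun s => xx (Y s)) (Icc (1 / 2) 1) := by
      unfold xx
      exact (continuousOn_const.add hYc).sqrt
    rw [hF]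
    unfold phi
    refine ContinuousOn.div (ContinuousOn.log ?_ ?_) (ContinuousOn.log ?_ ?_) ?_
    · refine ContinuousOn.div (ht.sub hx) (ht.add hx) ?_
      intro s hs
      obtain ⟨h1, h2⟩ := hbas s hs
      linarith
    · intro s hs
      obtain ⟨h1, h2⟩ := hbas s hs
      exact (div_pos (by linarith) (by linarith)).ne'
    · refine ContinuousOn.div (hx.sub continuousOn_const) (hx.add continuousOn_const) ?_
      intro s hs
      obtain ⟨h1, h2⟩ := hbas s hs
      linarith
    · intro s hs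
      obtain ⟨h1, h2⟩ := hbas s hs
      exact (div_pos (by linarith) (by linarith)).ne'
    · intro s hs
      obtain ⟨h1, h2⟩ := hbas s hs
      have h3 : 0 < (xx (Y s) - 1) / (xx (Y s) + 1) := div_pos (by linarith) (by linarith)
      have h3' : (xx (Y s) - 1) / (xx (Y s) + 1) < 1 := by
        rw [div_lt_one (by linarith)]
        linarith
      exact (Real.log_neg h3 h3').ne
  have hhalf : F (1 / 2) = 2 := by
    have hm : (1 / 2 : ℝ) ∈ Icc (1 / 2 : ℝ) 1 := ⟨le_rfl, by norm_num⟩
    obtain ⟨hy1, hy2⟩ := hY _ hm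
    obtain ⟨h1, h2⟩ := hbas _ hm
    have h3 : Y (1 / 2) = 2 := by
      refine h_inj (s := 1 / 2) (by norm_num) (by linarith) (by norm_num) hy2 ?_
      unfold h
      have e1 : (1 + (1 + 1 / 2) * 2 : ℝ) = 2 ^ 2 := by norm_num
      have e2 : Real.log (1 / 2) = - Real.log 2 := by
        rw [one_div, Real.log_inv]
      rw [e1, e2, Real.log_pow]
      push_cast
      ring
    rw [hF]
    simp only
    rw [phi_eq_two h1 h2, h3]
    unfold tt xx
    rw [Real.sq_sqrt (by norm_num)]
    have e1 : (1 + (1 + 1 / 2) * 2 : ℝ) = 2 ^ 2 := by norm_num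
    rw [e1, Real.sqrt_sq (by norm_num)]
    norm_num
  have hone : F 1 ≠ 2 := by
    have hm : (1 : ℝ) ∈ Icc (1 / 2 : ℝ) 1 := ⟨by norm_num, le_rfl⟩
    obtain ⟨hy1, hy2⟩ := hY _ hm
    obtain ⟨h1, h2⟩ := hbas _ hm
    rw [hF]
    simp only
    rw [Ne, phi_eq_two h1 h2]
    intro h3
    have h4 : Y 1 ^ 2 = 1 + 2 * Y 1 := by
      unfold h at hy2
      rw [Real.log_one] at hy2
      have h5 : Real.log (Y 1 ^ 2) = Real.log (1 + 2 * Y 1) := by
        rw [Real.log_pow]
        push_cast
        norm_num at hy2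
        linarith
      exact Real.log_injOn_pos (by positivity : 0 < Y 1 ^ 2) (by
        show 0 < 1 + 2 * Y 1
        linarith) h5
    have h6 : tt 1 (Y 1) ^ 2 = 1 + 2 * Y 1 := by
      unfold tt
      rw [Real.sq_sqrt (by linarith)]
      ring
    have h7 : xx (Y 1) ^ 2 = 1 + Y 1 := by
      unfold xx
      rw [Real.sq_sqrt (by linarith)]
    have h8 : (2 * tt 1 (Y 1)) ^ 2 = (xx (Y 1) ^ 2 + 1) ^ 2 := by rw [h3]
    rw [mul_pow, h6, h7] at h8
    have h9 : Y 1 * (Y 1 - 4) = 0 := by nlinarith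
    rcases mul_eq_zero.1 h9 with h10 | h10
    · linarith
    · have : Y 1 = 4 := by linarith
      rw [this] at h4
      norm_num at h4
  -- a good value
  have hcount : (F '' (range (fun q : ℚ => (q : ℝ))) ∪ range (fun q : ℚ => (q : ℝ))).Countable :=
    ((countable_range _).image _).union (countable_range _)
  have hdense := hcount.dense_compl ℝ
  obtain ⟨v, hv1, hv2⟩ : ∃ v, v ∈ F '' Icc (1 / 2) 1 ∧
      v ∉ (F '' (range (fun q : ℚ => (q : ℝ))) ∪ range (fun q : ℚ => (q : ℝ))) := by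
    rcases lt_or_gt_of_ne hone with h1 | h1
    · obtain ⟨v, hv, hv'⟩ := hdense.inter_open_nonempty (Ioo (F 1) 2) isOpen_Ioo
        (nonempty_Ioo.2 h1)
      refine ⟨v, ?_, hv'⟩
      have := intermediate_value_Icc' (by norm_num : (1 / 2 : ℝ) ≤ 1) hFc
      rw [hhalf] at this
      exact this (Ioo_subset_Icc_self hv)
    · obtain ⟨v, hv, hv'⟩ := hdense.inter_open_nonempty (Ioo 2 (F 1)) isOpen_Ioo
        (nonempty_Ioo.2 h1)
      refine ⟨v, ?_, hv'⟩
      have := intermediate_value_Icc (by norm_num : (1 / 2 : ℝ) ≤ 1) hFc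
      rw [hhalf] at this
      exact this (Ioo_subset_Icc_self hv)
  obtain ⟨s, hs, rfl⟩ := hv1
  obtain ⟨hy1, hy2⟩ := hY s hs
  obtain ⟨h1, h2⟩ := hbas s hs
  have hs0 : 0 < s := by linarith [hs.1]
  have hsq1 : tt s (Y s) ^ 2 = 1 + (1 + s) * Y s := by
    unfold tt
    rw [Real.sq_sqrt (by nlinarith)]
  have hsq2 : xx (Y s) ^ 2 = 1 + Y s := by
    unfold xx
    rw [Real.sq_sqrt (by linarith)]
  refine ⟨s, tt s (Y s), xx (Y s), hs0, ?_, h1, h2, ?_, ?_, ?_, ?_⟩
  · intro h3
    exact hv2 (Or.inl ⟨s, h3, rfl⟩)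
  · rw [hsq1, hsq2]
    ring
  · rw [hsq2]
    linarith
  · rw [hsq1, hsq2]
    have e1 : 1 + (1 + s) * Y s - (1 + Y s) = s * Y s := by ring
    have e2 : 1 + Y s - 1 = Y s := by ring
    rw [e1, e2, Real.log_mul hs0.ne' (by linarith)]
    unfold h at hy2
    linarith
  · intro h3
    exact hv2 (Or.inr h3)

end Pool.Agent.R261.Crit
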