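import Mathlib
import Pool.Agent.R261.CritA
import Pool.Agent.R261.CritB

/-! The ratio of the two integrals of `(t^2-x^2)^n |x^2-1|^m`. -/

set_option autoImplicit false

open Set Filter Topology MeasureTheory intervalIntegral

namespace Pool.Agent.R261.Crit

lemma dens {a b : ℝ} (h : Irrational (a / b)) (x : ℝ) {ε : ℝ} (hε : 0 < ε) :
    ∃ i j : ℤ, |(i : ℝ) * a + j * b - x| < ε := by
  have hd := dense_addSubgroupClosure_pair_iff.2 h
  obtain ⟨z, hz, hz'⟩ := hd.exists_dist_lt x hε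
  obtain ⟨i, j, rfl⟩ := AddSubgroup.mem_closure_pair.1 hz
  refine ⟨i, j, ?_⟩
  rw [Real.dist_eq, abs_sub_comm] at hz'
  simpa [zsmul_eq_mul] using hz'

structure Par where
  s : ℝ
  t : ℝ
  ξ : ℝ
  hs : 0 < s
  hirr : Irrational s
  hξ : 1 < ξ
  hξt : ξ < t
  ht : t ^ 2 = 1 + (1 + s) * (ξ ^ 2 - 1)
  hy : 1 < ξ ^ 2 - 1
  hlog : Real.log (ξ ^ 2 - 1) = s * (Real.log (t ^ 2) - Real.log (t ^ 2 - ξ ^ 2))
  hphi : Irrational (phi t ξ)

lemma exists_par : Nonempty Par := by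
  obtain ⟨s, t, ξ, h1, h2, h3, h4, h5, h6, h7, h8⟩ := exists_param
  exact ⟨⟨s, t, ξ, h1, h2, h3, h4, h5, h6, h7, h8⟩⟩

namespace Par

variable (P : Par)

def G (x : ℝ) : ℝ := P.t ^ 2 - x ^ 2

def H (_ : Par) (x : ℝ) : ℝ := |x ^ 2 - 1|

lemma contG : Continuous P.G := continuous_const.sub (continuous_pow 2)

lemma contH : Continuous P.H := ((continuous_pow 2).sub continuous_const).abs

lemma t_gt : 1 < P.t := P.hξ.trans P.hξt

lemma G_nonneg {x : ℝ} (hx : x ∈ Icc (-P.t) P.t) : 0 ≤ P.G x := by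
  unfold G
  have := abs_le.2 hx
  have h2 := sq_le_sq' hx.1 hx.2
  linarith

lemma G_nonneg_R {x : ℝ} (hx : x ∈ Icc 1 P.t) : 0 ≤ P.G x :=
  P.G_nonneg ⟨by linarith [hx.1, P.t_gt], hx.2⟩

lemma G_nonneg_M {x : ℝ} (hx : x ∈ Icc (-1) 1) : 0 ≤ P.G x :=
  P.G_nonneg ⟨by linarith [hx.1, P.t_gt], by linarith [hx.2, P.t_gt]⟩

lemma H_nonneg (x : ℝ) : 0 ≤ P.H x := abs_nonneg _

lemma Gξ : P.G P.ξ = P.s * (P.ξ ^ 2 - 1) := by
  unfold G
  rw [P.ht]
  ring

lemma Gξ_pos : 0 < P.G P.ξ := by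
  rw [P.Gξ]
  exact mul_pos P.hs (by linarith [P.hy])

lemma Hξ : P.H P.ξ = P.ξ ^ 2 - 1 := by
  unfold H
  rw [abs_of_pos (by linarith [P.hy])]

lemma G0 : P.G 0 = P.t ^ 2 := by
  unfold G
  ring

lemma H0 : P.H 0 = 1 := by
  unfold H
  norm_num

lemma t2_gt : 2 < P.t ^ 2 := by
  rw [P.ht]
  have := P.hs
  have := P.hy
  nlinarith

lemma H_R {x : ℝ} (hx : 1 ≤ x) : P.H x = x ^ 2 - 1 := by
  unfold H
  rw [abs_of_nonneg (by nlinarith)]

lemma H_M {x : ℝ} (hx : x ∈ Icc (-1 : ℝ) 1) : P.H x = 1 - x ^ 2 := by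
  unfold H
  rw [abs_of_nonpos (by nlinarith [hx.1, hx.2])]
  ring

lemma eqmax : P.G P.ξ ^ P.s * P.H P.ξ = (P.t ^ 2) ^ P.s := by
  have h1 := P.Gξ_pos
  have h2 : 0 < P.H P.ξ := by
    rw [P.Hξ]
    linarith [P.hy]
  have h3 := P.t2_gt
  refine Real.log_injOn_pos (by positivity : 0 < P.G P.ξ ^ P.s * P.H P.ξ)
    (by positivity : 0 < (P.t ^ 2) ^ P.s) ?_
  rw [Real.log_mul (by positivity) h2.ne', Real.log_rpow h1, Real.log_rpow (by positivity),
    P.Hξ, P.hlog]
  unfold G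
  ring

lemma maxR : ∀ x ∈ Icc 1 P.t, x ≠ P.ξ → P.G x ^ P.s * P.H x < P.G P.ξ ^ P.s * P.H P.ξ := by
  intro x hx hxξ
  have hy := P.hy
  have hs := P.hs
  have h1 := P.Gξ_pos
  have hHξ : 0 < P.H P.ξ := by
    rw [P.Hξ]
    linarith
  have hpos : 0 < P.G P.ξ ^ P.s * P.H P.ξ := by positivity
  rcases (P.G_nonneg_R hx).eq_or_lt with h2 | h2
  · rw [← h2, Real.zero_rpow hs.ne', zero_mul]
    exact hpos
  rcases (P.H_nonneg x).eq_or_lt with h3 | h3
  · rw [← h3, mul_zero]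
    exact hpos
  have h4 : P.H x = x ^ 2 - 1 := P.H_R hx.1
  have h5 : P.G x = (1 + P.s) * (P.ξ ^ 2 - 1) - P.H x := by
    rw [h4]
    unfold G
    rw [P.ht]
    ring
  have hne : P.H x / (P.ξ ^ 2 - 1) ≠ 1 := by
    rw [Ne, div_eq_one_iff_eq (by linarith), h4]
    intro h6
    apply hxξ
    have h7 : (x - P.ξ) * (x + P.ξ) = 0 := by nlinarith
    rcases mul_eq_zero.1 h7 with h8 | h8
    · linarith
    · linarith [hx.1, P.hξ]
  have h6 : Real.log (P.H x / (P.ξ ^ 2 - 1)) < P.H x / (P.ξ ^ 2 - 1) - 1 :=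
    Real.log_lt_sub_one_of_pos (div_pos h3 (by linarith)) hne
  have h7 : Real.log (P.G x / (P.s * (P.ξ ^ 2 - 1))) ≤ P.G x / (P.s * (P.ξ ^ 2 - 1)) - 1 :=
    Real.log_le_sub_one_of_pos (div_pos h2 (mul_pos hs (by linarith)))
  have h8 : P.s * (P.G x / (P.s * (P.ξ ^ 2 - 1)) - 1) + (P.H x / (P.ξ ^ 2 - 1) - 1) = 0 := by
    rw [h5]
    have : P.ξ ^ 2 - 1 ≠ 0 := by linarith
    field_simp
    ring
  have h9 : P.s * Real.log (P.G x / (P.s * (P.ξ ^ 2 - 1))) ≤
      P.s * (P.G x / (P.s * (P.ξ ^ 2 - 1)) - 1) := by gcongr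
  rw [Real.log_div h3.ne' (by linarith)] at h6
  rw [← P.Gξ, Real.log_div h2.ne' h1.ne'] at h9
  rw [← P.Gξ] at h8
  rw [← Real.log_lt_log_iff (by positivity) hpos, Real.log_mul (by positivity) h3.ne',
    Real.log_mul (by positivity) hHξ.ne', Real.log_rpow h2, Real.log_rpow h1, P.Hξ]
  nlinarith

lemma maxM : ∀ x ∈ Icc (-1 : ℝ) 1, x ≠ 0 → P.G x ^ P.s * P.H x < P.G 0 ^ P.s * P.H 0 := by
  intro x hx hx0
  have hx2 : 0 < x ^ 2 := by positivity
  have h3 := P.t2_gt
  rw [P.G0, P.H0, mul_one]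
  have h1 : P.G x ^ P.s ≤ (P.t ^ 2) ^ P.s := by
    refine Real.rpow_le_rpow (P.G_nonneg_M hx) ?_ P.hs.le
    unfold G
    linarith
  have h2 : P.H x < 1 := by
    rw [P.H_M hx]
    linarith
  have h4 : 0 < (P.t ^ 2) ^ P.s := by positivity
  calc P.G x ^ P.s * P.H x ≤ (P.t ^ 2) ^ P.s * P.H x :=
        mul_le_mul_of_nonneg_right h1 (P.H_nonneg x)
    _ < (P.t ^ 2) ^ P.s * 1 := by gcongr
    _ = _ := mul_one _

/-- integral over the right gap -/
noncomputable def Jr (n m : ℕ) : ℝ := ∫ x in (1)..P.t, P.G x ^ n * P.H x ^ m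

/-- integral over the middle gap -/
noncomputable def Jm (n m : ℕ) : ℝ := ∫ x in (-1)..1, P.G x ^ n * P.H x ^ m

lemma contW (n m : ℕ) : Continuous fun x => P.G x ^ n * P.H x ^ m :=
  (P.contG.pow _).mul (P.contH.pow _)

lemma Jr_pos (n m : ℕ) : 0 < P.Jr n m := by
  refine intervalIntegral_pos_of_pos_on ((P.contW n m).intervalIntegrable _ _) ?_ P.t_gt
  intro x hx
  have h1 : 0 < P.G x := by
    unfold G
    nlinarith [hx.1, hx.2]
  have h2 : 0 < P.H x := by
    rw [P.H_R hx.1.le]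
    nlinarith [hx.1]
  positivity

lemma Jm_pos (n m : ℕ) : 0 < P.Jm n m := by
  refine intervalIntegral_pos_of_pos_on ((P.contW n m).intervalIntegrable _ _) ?_ (by norm_num)
  intro x hx
  have h0 := P.t2_gt
  have h3 : x ^ 2 < 1 := by nlinarith [hx.1, hx.2]
  have h1 : 0 < P.G x := by
    unfold G
    linarith
  have h2 : 0 < P.H x := by
    rw [P.H_M ⟨hx.1.le, hx.2.le⟩]
    linarith
  positivity

noncomputable def L (n m : ℕ) : ℝ := Real.log (P.Jr n m) - Real.log (P.Jm n m)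

/-- sequences of exponents going to infinity in the direction `s`. -/
def Ray (n m : ℕ → ℕ) : Prop :=
  Tendsto m atTop atTop ∧ Tendsto (fun k => (n k : ℝ) / m k) atTop (𝓝 P.s)

variable {P}

lemma convR {n m : ℕ → ℕ} (h : P.Ray n m) {r : ℝ → ℝ} (hr : Continuous r) :
    Tendsto (fun k => (∫ x in (1)..P.t, r x * (P.G x ^ n k * P.H x ^ m k)) / P.Jr (n k) (m k))
      atTop (𝓝 (r P.ξ)) :=
  conc_pow ⟨P.hξ, P.hξt⟩ P.contG P.contH (fun _ hx => P.G_nonneg_R hx)
    (fun x _ => P.H_nonneg x) P.hs P.maxR h.1 h.2 hr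

lemma convM {n m : ℕ → ℕ} (h : P.Ray n m) {r : ℝ → ℝ} (hr : Continuous r) :
    Tendsto (fun k => (∫ x in (-1)..1, r x * (P.G x ^ n k * P.H x ^ m k)) / P.Jm (n k) (m k))
      atTop (𝓝 (r 0)) :=
  conc_pow ⟨by norm_num, by norm_num⟩ P.contG P.contH (fun _ hx => P.G_nonneg_M hx)
    (fun x _ => P.H_nonneg x) P.hs P.maxM h.1 h.2 hr

lemma L_step {n m : ℕ → ℕ} (h : P.Ray n m) (i j : ℕ) :
    Tendsto (fun k => P.L (n k + i) (m k + j) - P.L (n k) (m k)) atTop
      (𝓝 (i * (Real.log (P.G P.ξ) - Real.log (P.t ^ 2)) + j * Real.log (P.ξ ^ 2 - 1))) := by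
  have hc : Continuous fun x => P.G x ^ i * P.H x ^ j := P.contW i j
  have h1 := convR h hc
  have h2 := convM h hc
  have e1 : ∀ k, (∫ x in (1)..P.t, (P.G x ^ i * P.H x ^ j) * (P.G x ^ n k * P.H x ^ m k)) =
      P.Jr (n k + i) (m k + j) := by
    intro k
    unfold Jr
    congr 1
    ext x
    ring
  have e2 : ∀ k, (∫ x in (-1)..1, (P.G x ^ i * P.H x ^ j) * (P.G x ^ n k * P.H x ^ m k)) =
      P.Jm (n k + i) (m k + j) := by
    intro k
    unfold Jm
    congr 1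
    ext x
    ring
  simp only [e1] at h1
  simp only [e2] at h2
  have hG := P.Gξ_pos
  have hH : 0 < P.ξ ^ 2 - 1 := by linarith [P.hy]
  have ht := P.t2_gt
  rw [P.Hξ] at h1
  rw [P.G0, P.H0, one_pow, mul_one] at h2
  have h3 := h1.log (by positivity)
  have h4 := h2.log (by positivity)
  have h5 := h3.sub h4
  rw [Real.log_mul (by positivity) (by positivity), Real.log_pow, Real.log_pow, Real.log_pow] at h5
  convert h5 using 1
  · ext k
    rw [Real.log_div (P.Jr_pos _ _).ne' (P.Jr_pos _ _).ne',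
      Real.log_div (P.Jm_pos _ _).ne' (P.Jm_pos _ _).ne']
    unfold L
    ring
  · congr 1
    ring

lemma ray_shift {n m n' m' : ℕ → ℕ} (h : P.Ray n m) (C : ℝ)
    (h' : ∀ᶠ k in atTop, |(n' k : ℝ) - n k| ≤ C ∧ |(m' k : ℝ) - m k| ≤ C) : P.Ray n' m' := by
  obtain ⟨h1, h2⟩ := h
  have hmR : Tendsto (fun k => (m k : ℝ)) atTop atTop := tendsto_natCast_atTop_atTop.comp h1
  have h3 : Tendsto m' atTop atTop := by
    rw [← tendsto_natCast_atTop_iff (R := ℝ)]
    refine tendsto_atTop_mono' _ ?_ (tendsto_atTop_add_const_right _ (-C) hmR)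
    filter_upwards [h'] with k hk
    have := (abs_le.1 hk.2).1
    linarith
  refine ⟨h3, ?_⟩
  have hz1 : Tendsto (fun k => ((n' k : ℝ) - n k) / m k) atTop (𝓝 0) := by
    refine squeeze_zero_norm' (a := fun k => C / m k) ?_ (hmR.const_div_atTop C)
    filter_upwards [h'] with k hk
    rw [norm_div, Real.norm_eq_abs, Real.norm_natCast]
    exact div_le_div_of_nonneg_right hk.1 (Nat.cast_nonneg _)
  have hz2 : Tendsto (fun k => ((m' k : ℝ) - m k) / m k) atTop (𝓝 0) := by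
    refine squeeze_zero_norm' (a := fun k => C / m k) ?_ (hmR.const_div_atTop C)
    filter_upwards [h'] with k hk
    rw [norm_div, Real.norm_eq_abs, Real.norm_natCast]
    exact div_le_div_of_nonneg_right hk.2 (Nat.cast_nonneg _)
  have h4 := (h2.add hz1).div (hz2.const_add 1) (by norm_num)
  rw [add_zero, add_zero, div_one] at h4
  refine h4.congr' ?_
  filter_upwards [h1.eventually_gt_atTop 0, h3.eventually_gt_atTop 0] with k hk hk'
  have e1 : (m k : ℝ) ≠ 0 := by exact_mod_cast hk.ne'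
  have e2 : (m' k : ℝ) ≠ 0 := by exact_mod_cast hk'.ne'
  simp only [Pi.div_apply]
  have e3 : 1 + ((m' k : ℝ) - m k) / m k = m' k / m k := by field_simp; ring
  have e4 : (n k : ℝ) / m k + ((n' k : ℝ) - n k) / m k = n' k / m k := by field_simp; ring
  rw [e3, e4]
  field_simp

lemma ray_n {n m : ℕ → ℕ} (h : P.Ray n m) : Tendsto n atTop atTop := by
  obtain ⟨h1, h2⟩ := h
  have hmR : Tendsto (fun k => (m k : ℝ)) atTop atTop := tendsto_natCast_atTop_atTop.comp h1
  rw [← tendsto_natCast_atTop_iff (R := ℝ)]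
  refine (hmR.atTop_mul_pos P.hs h2).congr' ?_
  filter_upwards [h1.eventually_gt_atTop 0] with k hk
  have e1 : (m k : ℝ) ≠ 0 := by exact_mod_cast hk.ne'
  field_simp

lemma L_shift {n m n' m' : ℕ → ℕ} (h : P.Ray n m) (i j : ℤ)
    (h' : ∀ᶠ k in atTop, (n' k : ℤ) = n k + i ∧ (m' k : ℤ) = m k + j) :
    Tendsto (fun k => P.L (n' k) (m' k) - P.L (n k) (m k)) atTop
      (𝓝 (i * (Real.log (P.G P.ξ) - Real.log (P.t ^ 2)) + j * Real.log (P.ξ ^ 2 - 1))) := by
  set b : ℕ → ℕ := fun k => n k - (-i).toNat with hb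
  set c : ℕ → ℕ := fun k => m k - (-j).toNat with hc
  have hn := ray_n h
  have hbc : P.Ray b c := by
    refine ray_shift h (((-i).toNat : ℝ) + ((-j).toNat : ℝ)) ?_
    filter_upwards [hn.eventually_ge_atTop ((-i).toNat), h.1.eventually_ge_atTop ((-j).toNat)]
      with k hk1 hk2
    rw [hb, hc]
    simp only
    rw [Nat.cast_sub hk1, Nat.cast_sub hk2]
    constructor
    · rw [sub_sub_cancel_left, abs_neg, Nat.abs_cast]
      have : (0 : ℝ) ≤ ((-j).toNat : ℝ) := Nat.cast_nonneg _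
      linarith
    · rw [sub_sub_cancel_left, abs_neg, Nat.abs_cast]
      have : (0 : ℝ) ≤ ((-i).toNat : ℝ) := Nat.cast_nonneg _
      linarith
  have h1 := L_step hbc i.toNat j.toNat
  have h2 := L_step hbc (-i).toNat (-j).toNat
  have h3 := h1.sub h2
  have e1 : ((i.toNat : ℕ) : ℝ) - (((-i).toNat : ℕ) : ℝ) = i := by
    have := Int.toNat_sub_toNat_neg i
    exact_mod_cast this
  have e2 : ((j.toNat : ℕ) : ℝ) - (((-j).toNat : ℕ) : ℝ) = j := by
    have := Int.toNat_sub_toNat_neg j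
    exact_mod_cast this
  have h4 : Tendsto (fun k => P.L (b k + i.toNat) (c k + j.toNat) -
      P.L (b k) (c k) - (P.L (b k + (-i).toNat) (c k + (-j).toNat) - P.L (b k) (c k))) atTop
      (𝓝 (i * (Real.log (P.G P.ξ) - Real.log (P.t ^ 2)) + j * Real.log (P.ξ ^ 2 - 1))) := by
    convert h3 using 2
    rw [← e1, ← e2]
    ring
  refine h4.congr' ?_
  filter_upwards [hn.eventually_ge_atTop ((-i).toNat), h.1.eventually_ge_atTop ((-j).toNat), h']
    with k hk1 hk2 hk3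
  have f1 : b k + (-i).toNat = n k := by
    rw [hb]
    simp only
    omega
  have f2 : c k + (-j).toNat = m k := by
    rw [hc]
    simp only
    omega
  have f3 : b k + i.toNat = n' k := by omega
  have f4 : c k + j.toNat = m' k := by omega
  rw [f1, f2, f3, f4]
  ring

variable (P)

lemma L_succ (n m : ℕ) : P.L (n + 1) m ≤ P.L n m := by
  have ht := P.t2_gt
  have h1 : P.Jr (n + 1) m ≤ (P.t ^ 2 - 1) * P.Jr n m := by
    unfold Jr
    rw [← intervalIntegral.integral_const_mul]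
    refine intervalIntegral.integral_mono_on P.t_gt.le ((P.contW _ _).intervalIntegrable _ _)
      ((continuous_const.mul (P.contW _ _)).intervalIntegrable _ _) ?_
    intro x hx
    have h2 : P.G x ≤ P.t ^ 2 - 1 := by
      unfold G
      nlinarith [hx.1]
    have h3 : 0 ≤ P.G x ^ n * P.H x ^ m :=
      mul_nonneg (pow_nonneg (P.G_nonneg_R hx) _) (pow_nonneg (P.H_nonneg x) _)
    calc P.G x ^ (n + 1) * P.H x ^ m = P.G x * (P.G x ^ n * P.H x ^ m) := by ring
      _ ≤ _ := mul_le_mul_of_nonneg_right h2 h3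
  have h4 : (P.t ^ 2 - 1) * P.Jm n m ≤ P.Jm (n + 1) m := by
    unfold Jm
    rw [← intervalIntegral.integral_const_mul]
    refine intervalIntegral.integral_mono_on (by norm_num)
      ((continuous_const.mul (P.contW _ _)).intervalIntegrable _ _)
      ((P.contW _ _).intervalIntegrable _ _) ?_
    intro x hx
    have h2 : P.t ^ 2 - 1 ≤ P.G x := by
      unfold G
      nlinarith [hx.1, hx.2]
    have h3 : 0 ≤ P.G x ^ n * P.H x ^ m :=
      mul_nonneg (pow_nonneg (P.G_nonneg_M hx) _) (pow_nonneg (P.H_nonneg x) _)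
    calc (P.t ^ 2 - 1) * (P.G x ^ n * P.H x ^ m) ≤ P.G x * (P.G x ^ n * P.H x ^ m) :=
          mul_le_mul_of_nonneg_right h2 h3
      _ = _ := by ring
  have h5 : Real.log (P.Jr (n + 1) m) ≤ Real.log (P.t ^ 2 - 1) + Real.log (P.Jr n m) := by
    rw [← Real.log_mul (by linarith) (P.Jr_pos _ _).ne']
    exact Real.log_le_log (P.Jr_pos _ _) h1
  have h6 : Real.log (P.t ^ 2 - 1) + Real.log (P.Jm n m) ≤ Real.log (P.Jm (n + 1) m) := by
    rw [← Real.log_mul (by linarith) (P.Jm_pos _ _).ne']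
    exact Real.log_le_log (mul_pos (by linarith) (P.Jm_pos _ _)) h4
  unfold L
  linarith

lemma L_anti (m : ℕ) : Antitone fun n => P.L n m := antitone_nat_of_succ_le fun n => P.L_succ n m

lemma mulnat_tendsto : Tendsto (fun k : ℕ => 2 * k) atTop atTop :=
  tendsto_id.const_mul_atTop' (by norm_num)

lemma low {ε : ℝ} (hε : 0 < ε) (hεs : ε < P.s) (R : ℝ) :
    ∀ᶠ k : ℕ in atTop, R < P.L ⌊(P.s - ε) * ((2 * k : ℕ) : ℝ)⌋₊ (2 * k) := by
  have hG := P.Gξ_pos
  have hH : 0 < P.ξ ^ 2 - 1 := by linarith [P.hy]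
  have ht := P.t2_gt
  set σ := P.s - ε with hσ
  have hσ0 : 0 < σ := by linarith
  have h1 : (P.t ^ 2) ^ σ < P.G P.ξ ^ σ * P.H P.ξ := by
    have e1 : P.G P.ξ ^ σ = P.G P.ξ ^ P.s / P.G P.ξ ^ ε := Real.rpow_sub hG _ _
    have e2 : (P.t ^ 2) ^ σ = (P.t ^ 2) ^ P.s / (P.t ^ 2) ^ ε := Real.rpow_sub (by positivity) _ _
    rw [e1, e2, div_mul_eq_mul_div, P.eqmax]
    refine div_lt_div_of_pos_left (by positivity) (by positivity) ?_
    refine Real.rpow_lt_rpow hG.le ?_ hε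
    unfold G
    nlinarith [P.hξ]
  obtain ⟨M, hM1, hM2⟩ := exists_between h1
  have hM0 : 0 < M := lt_of_le_of_lt (by positivity) hM1
  have hray : Tendsto (fun k : ℕ => ((⌊σ * ((2 * k : ℕ) : ℝ)⌋₊ : ℕ) : ℝ) / ((2 * k : ℕ) : ℝ)) atTop
      (𝓝 σ) := by
    have := (tendsto_nat_floor_mul_div_atTop (R := ℝ) hσ0.le).comp
      ((tendsto_natCast_atTop_atTop (R := ℝ)).comp mulnat_tendsto)
    exact this
  obtain ⟨η, hη, h2⟩ := lower (a := 1) (b := P.t) (ξ := P.ξ) (s := σ) (M := M)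
    (n := fun k : ℕ => ⌊σ * ((2 * k : ℕ) : ℝ)⌋₊) (m := fun k : ℕ => 2 * k) ⟨P.hξ, P.hξt⟩
    P.contG P.contH (fun _ hx => P.G_nonneg_R hx)
    (fun x _ => P.H_nonneg x) hσ0 hM0.le hM2 mulnat_tendsto hray
  -- the logarithmic lower bound
  have h3 : Tendsto (fun k : ℕ => Real.log η + ((2 * k : ℕ) : ℝ) *
      (Real.log M - Real.log ((P.t ^ 2) ^ σ))) atTop atTop := by
    refine tendsto_atTop_add_const_left _ _ ?_
    refine Tendsto.atTop_mul_const ?_ ((tendsto_natCast_atTop_atTop (R := ℝ)).comp mulnat_tendsto)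
    have := Real.log_lt_log (by positivity) hM1
    linarith
  filter_upwards [h2, h3.eventually_gt_atTop R] with k hk1 hk2
  refine hk2.trans_le ?_
  set n : ℕ := ⌊σ * ((2 * k : ℕ) : ℝ)⌋₊ with hn
  have h4 : P.Jm n (2 * k) ≤ 2 * ((P.t ^ 2) ^ σ) ^ (2 * k) := by
    have h5 : P.Jm n (2 * k) ≤ ∫ x in (-1 : ℝ)..1, ((P.t ^ 2) ^ σ) ^ (2 * k) := by
      refine intervalIntegral.integral_mono_on (by norm_num) ((P.contW _ _).intervalIntegrable _ _)
        (continuous_const.intervalIntegrable _ _) ?_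
      intro x hx
      have h6 : P.G x ^ n ≤ (P.t ^ 2) ^ n := by
        refine pow_le_pow_left₀ (P.G_nonneg_M hx) ?_ _
        unfold G
        nlinarith [sq_nonneg x]
      have h7 : P.H x ^ (2 * k) ≤ 1 := by
        refine pow_le_one₀ (P.H_nonneg x) ?_
        rw [P.H_M hx]
        nlinarith [sq_nonneg x]
      have h8 : ((P.t ^ 2) ^ n : ℝ) ≤ ((P.t ^ 2) ^ σ) ^ (2 * k) := by
        rw [← Real.rpow_natCast ((P.t ^ 2) ^ σ), ← Real.rpow_mul (by positivity),
          ← Real.rpow_natCast (P.t ^ 2) n]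
        exact Real.rpow_le_rpow_of_exponent_le (by linarith) (Nat.floor_le (by positivity))
      calc P.G x ^ n * P.H x ^ (2 * k) ≤ (P.t ^ 2) ^ n * 1 :=
            mul_le_mul h6 h7 (pow_nonneg (P.H_nonneg x) _) (by positivity)
        _ ≤ _ := by rw [mul_one]; exact h8
    refine h5.trans (le_of_eq ?_)
    rw [intervalIntegral.integral_const, smul_eq_mul]
    norm_num
  have h9 : Real.log (2 * η * M ^ (2 * k)) ≤ Real.log (P.Jr n (2 * k)) :=
    Real.log_le_log (by positivity) hk1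
  have h10 : Real.log (P.Jm n (2 * k)) ≤ Real.log (2 * ((P.t ^ 2) ^ σ) ^ (2 * k)) :=
    Real.log_le_log (P.Jm_pos _ _) h4
  rw [Real.log_mul (by positivity) (by positivity), Real.log_mul (by norm_num) hη.ne',
    Real.log_pow] at h9
  rw [Real.log_mul (by positivity) (by positivity), Real.log_pow] at h10
  unfold L
  push_cast at h9 h10 ⊢
  linarith

lemma high {ε : ℝ} (hε : 0 < ε) (R : ℝ) :
    ∀ᶠ k : ℕ in atTop, P.L ⌈(P.s + ε) * ((2 * k : ℕ) : ℝ)⌉₊ (2 * k) < R := by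
  have hs := P.hs
  have ht := P.t2_gt
  set σ := P.s + ε with hσ
  have hσ0 : 0 < σ := by linarith
  set A := (P.t ^ 2) ^ P.s * (P.t ^ 2 - 1) ^ ε with hA
  have ht1 : 1 < P.t ^ 2 - 1 := by linarith
  have hA0 : 0 < A := by
    have : 0 < (P.t ^ 2 - 1) ^ ε := Real.rpow_pos_of_pos (by linarith) _
    positivity
  have h1 : A < P.G 0 ^ σ * P.H 0 := by
    rw [P.G0, P.H0, mul_one, hσ, Real.rpow_add (by positivity)]
    refine mul_lt_mul_of_pos_left ?_ (by positivity)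
    exact Real.rpow_lt_rpow (by linarith) (by linarith) hε
  obtain ⟨M, hM1, hM2⟩ := exists_between h1
  have hM0 : 0 < M := hA0.trans hM1
  have hray : Tendsto (fun k : ℕ => ((⌈σ * ((2 * k : ℕ) : ℝ)⌉₊ : ℕ) : ℝ) / ((2 * k : ℕ) : ℝ)) atTop
      (𝓝 σ) := by
    have := (tendsto_nat_ceil_mul_div_atTop (R := ℝ) hσ0.le).comp
      ((tendsto_natCast_atTop_atTop (R := ℝ)).comp mulnat_tendsto)
    exact this
  obtain ⟨η, hη, h2⟩ := lower (a := -1) (b := 1) (ξ := 0) (s := σ) (M := M)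
    (n := fun k : ℕ => ⌈σ * ((2 * k : ℕ) : ℝ)⌉₊) (m := fun k : ℕ => 2 * k)
    ⟨by norm_num, by norm_num⟩
    P.contG P.contH (fun _ hx => P.G_nonneg_M hx)
    (fun x _ => P.H_nonneg x) hσ0 hM0.le hM2 mulnat_tendsto hray
  have h3 : Tendsto (fun k : ℕ => (Real.log ((P.t - 1) * (P.t ^ 2 - 1)) - Real.log (2 * η)) +
      ((2 * k : ℕ) : ℝ) * (Real.log A - Real.log M)) atTop atBot := by
    refine tendsto_atBot_add_const_left _ _ ?_
    refine Tendsto.atTop_mul_const_of_neg ?_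
      ((tendsto_natCast_atTop_atTop (R := ℝ)).comp mulnat_tendsto)
    have := Real.log_lt_log (by positivity) hM1
    linarith
  filter_upwards [h2, h3.eventually_lt_atBot R, eventually_gt_atTop 0] with k hk1 hk2 hk0
  refine lt_of_le_of_lt ?_ hk2
  set n : ℕ := ⌈σ * ((2 * k : ℕ) : ℝ)⌉₊ with hn
  have hm0 : (0 : ℝ) < ((2 * k : ℕ) : ℝ) := by
    have : 0 < 2 * k := by omega
    exact_mod_cast this
  have hn0 : n ≠ 0 := by
    have : 0 < n := Nat.ceil_pos.2 (by positivity)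
    omega
  have hn1 : σ * ((2 * k : ℕ) : ℝ) ≤ n := Nat.le_ceil _
  have hn2 : (n : ℝ) < σ * ((2 * k : ℕ) : ℝ) + 1 := Nat.ceil_lt_add_one (by positivity)
  have h4 : P.Jr n (2 * k) ≤ (P.t - 1) * (P.t ^ 2 - 1) * A ^ (2 * k) := by
    have h5 : P.Jr n (2 * k) ≤ ∫ x in (1 : ℝ)..P.t, (P.t ^ 2 - 1) * A ^ (2 * k) := by
      refine intervalIntegral.integral_mono_on P.t_gt.le ((P.contW _ _).intervalIntegrable _ _)
        (continuous_const.intervalIntegrable _ _) ?_
      intro x hx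
      rcases (P.G_nonneg_R hx).eq_or_lt with h6 | h6
      · rw [← h6, zero_pow hn0, zero_mul]
        have : 0 < P.t ^ 2 - 1 := by linarith
        positivity
      · have h7 : P.G x ^ P.s * P.H x ≤ (P.t ^ 2) ^ P.s := by
          rw [← P.eqmax]
          by_cases hx' : x = P.ξ
          · rw [hx']
          · exact (P.maxR x hx hx').le
        have h8 : P.G x ≤ P.t ^ 2 - 1 := by
          unfold G
          nlinarith [hx.1]
        have h9 : P.G x ^ n = (P.G x ^ P.s) ^ (2 * k) *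
            P.G x ^ ((n : ℝ) - P.s * ((2 * k : ℕ) : ℝ)) := by
          rw [← Real.rpow_natCast (P.G x ^ P.s), ← Real.rpow_mul h6.le, ← Real.rpow_add h6,
            ← Real.rpow_natCast (P.G x) n]
          congr 1
          ring
        have h10 : P.G x ^ ((n : ℝ) - P.s * ((2 * k : ℕ) : ℝ)) ≤
            (P.t ^ 2 - 1) * ((P.t ^ 2 - 1) ^ ε) ^ (2 * k) := by
          calc P.G x ^ ((n : ℝ) - P.s * ((2 * k : ℕ) : ℝ)) ≤
                (P.t ^ 2 - 1) ^ ((n : ℝ) - P.s * ((2 * k : ℕ) : ℝ)) := by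
                refine Real.rpow_le_rpow h6.le h8 ?_
                rw [hσ] at hn1
                have : 0 ≤ ε * ((2 * k : ℕ) : ℝ) := by positivity
                linarith
            _ ≤ (P.t ^ 2 - 1) ^ (1 + ε * ((2 * k : ℕ) : ℝ)) := by
                refine Real.rpow_le_rpow_of_exponent_le ht1.le ?_
                rw [hσ] at hn2
                linarith
            _ = _ := by
                rw [Real.rpow_add (by linarith), Real.rpow_one, Real.rpow_mul (by linarith),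
                  Real.rpow_natCast]
        rw [h9]
        calc (P.G x ^ P.s) ^ (2 * k) * P.G x ^ ((n : ℝ) - P.s * ((2 * k : ℕ) : ℝ)) *
              P.H x ^ (2 * k) = (P.G x ^ P.s * P.H x) ^ (2 * k) *
                P.G x ^ ((n : ℝ) - P.s * ((2 * k : ℕ) : ℝ)) := by
              rw [mul_pow]
              ring
          _ ≤ ((P.t ^ 2) ^ P.s) ^ (2 * k) * ((P.t ^ 2 - 1) * ((P.t ^ 2 - 1) ^ ε) ^ (2 * k)) := by
              refine mul_le_mul ?_ h10 (by positivity) (by positivity)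
              refine pow_le_pow_left₀ ?_ h7 _
              exact mul_nonneg (by positivity) (P.H_nonneg x)
          _ = _ := by
              rw [hA, mul_pow]
              ring
    refine h5.trans (le_of_eq ?_)
    rw [intervalIntegral.integral_const, smul_eq_mul]
    ring
  have h9 : Real.log (2 * η * M ^ (2 * k)) ≤ Real.log (P.Jm n (2 * k)) :=
    Real.log_le_log (by positivity) hk1
  have ht2 : 0 < (P.t - 1) * (P.t ^ 2 - 1) := mul_pos (by linarith [P.t_gt]) (by linarith)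
  have h10 : Real.log (P.Jr n (2 * k)) ≤
      Real.log ((P.t - 1) * (P.t ^ 2 - 1) * A ^ (2 * k)) :=
    Real.log_le_log (P.Jr_pos _ _) h4
  rw [Real.log_mul (by positivity) (by positivity), Real.log_pow] at h9
  rw [Real.log_mul ht2.ne' (by positivity), Real.log_pow] at h10
  unfold L
  push_cast at h9 h10 ⊢
  linarith

/-- The crossing sequence. -/
lemma crossing (Λ : ℝ) : ∃ n : ℕ → ℕ, P.Ray n (fun k => 2 * k) ∧
    (∀ᶠ k in atTop, P.L (n k) (2 * k) ≤ Λ) ∧
    ∀ᶠ k in atTop, Λ - (Real.log (P.t ^ 2) - Real.log (P.G P.ξ)) - 1 ≤ P.L (n k) (2 * k) := by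
  set n : ℕ → ℕ := fun k => sInf {i | P.L i (2 * k) ≤ Λ} with hn
  have hmR : Tendsto (fun k : ℕ => ((2 * k : ℕ) : ℝ)) atTop atTop :=
    (tendsto_natCast_atTop_atTop (R := ℝ)).comp mulnat_tendsto
  have hne : ∀ᶠ k : ℕ in atTop, {i | P.L i (2 * k) ≤ Λ}.Nonempty := by
    filter_upwards [P.high one_pos Λ] with k hk
    exact ⟨_, hk.le⟩
  have h1 : ∀ᶠ k in atTop, P.L (n k) (2 * k) ≤ Λ := by
    filter_upwards [hne] with k hk
    exact Nat.sInf_mem hk
  have h2 : ∀ k i, i < n k → Λ < P.L i (2 * k) := by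
    intro k i hi
    have := Nat.notMem_of_lt_sInf hi
    simpa using this
  have hray : P.Ray n (fun k => 2 * k) := by
    refine ⟨mulnat_tendsto, ?_⟩
    rw [Metric.tendsto_nhds]
    intro ε hε
    set e := min (ε / 2) (P.s / 2) with he
    have he0 : 0 < e := lt_min (by positivity) (by linarith [P.hs])
    have he1 : e ≤ ε / 2 := min_le_left _ _
    have he2 : e ≤ P.s / 2 := min_le_right _ _
    filter_upwards [P.low he0 (by linarith [P.hs]) Λ, P.high he0 Λ, h1,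
      hmR.eventually_gt_atTop (2 / ε), hmR.eventually_gt_atTop 0] with k hk1 hk2 hk3 hk4 hk5
    have h3 : ⌊(P.s - e) * ((2 * k : ℕ) : ℝ)⌋₊ < n k := by
      by_contra hcon
      push Not at hcon
      have := P.L_anti (2 * k) hcon
      simp only at this
      linarith
    have h4 : n k ≤ ⌈(P.s + e) * ((2 * k : ℕ) : ℝ)⌉₊ := Nat.sInf_le hk2.le
    have h5 : (P.s - e) * ((2 * k : ℕ) : ℝ) < n k :=
      (Nat.floor_lt' (by omega)).1 h3
    have h6 : (n k : ℝ) < (P.s + e) * ((2 * k : ℕ) : ℝ) + 1 := by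
      have h7 : ((n k : ℕ) : ℝ) ≤ (⌈(P.s + e) * ((2 * k : ℕ) : ℝ)⌉₊ : ℝ) := by exact_mod_cast h4
      have h8 := Nat.ceil_lt_add_one (a := (P.s + e) * ((2 * k : ℕ) : ℝ)) (by
        have := P.hs
        positivity)
      linarith
    rw [Real.dist_eq, abs_lt]
    have h7 : 2 < ε * ((2 * k : ℕ) : ℝ) := by
      rw [div_lt_iff₀ hε] at hk4
      linarith
    constructor
    · rw [lt_sub_iff_add_lt, lt_div_iff₀ hk5]
      nlinarith
    · rw [sub_lt_iff_lt_add, div_lt_iff₀ hk5]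
      nlinarith
  refine ⟨n, hray, h1, ?_⟩
  -- the previous value is above Λ
  have hnt := ray_n hray
  have h3 := L_shift (n' := fun k => n k - 1) (m' := fun k => 2 * k) hray (-1) 0 (by
    filter_upwards [hnt.eventually_ge_atTop 1] with k hk
    constructor
    · omega
    · simp)
  push_cast at h3
  rw [zero_mul, add_zero] at h3
  have h4 := h3.eventually (gt_mem_nhds (lt_add_one _))
  filter_upwards [h4, hnt.eventually_ge_atTop 1] with k hk1 hk2
  have h5 := h2 k (n k - 1) (by omega)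
  linarith

/-- **Target lemma**: near the ray, `L` takes values close to any prescribed real number,
with an even second exponent. -/
theorem target (Λ : ℝ) {ε : ℝ} (hε : 0 < ε) : ∃ n m : ℕ → ℕ, P.Ray n m ∧
    (∀ᶠ k in atTop, Even (m k)) ∧ ∃ Λ' : ℝ, |Λ' - Λ| < ε ∧
      Tendsto (fun k => P.L (n k) (m k)) atTop (𝓝 Λ') := by
  obtain ⟨n, hray, h1, h2⟩ := P.crossing Λ
  set α := Real.log (P.t ^ 2) - Real.log (P.G P.ξ) with hα
  have hα0 : 0 < α := by
    have := Real.log_lt_log P.Gξ_pos (show P.G P.ξ < P.t ^ 2 by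
      unfold G
      nlinarith [P.hξ])
    linarith
  have hγ : Real.log (P.ξ ^ 2 - 1) = P.s * α := by
    rw [P.hlog, hα]
    rfl
  obtain ⟨Λ₀, hΛ₀, θ, hθ, hlim⟩ := isCompact_Icc.tendsto_subseq'
    (x := fun k => P.L (n k) (2 * k)) (s := Icc (Λ - α - 1) Λ)
    (Eventually.frequently (by
      filter_upwards [h1, h2] with k hk1 hk2
      exact ⟨hk2, hk1⟩))
  have hirr : Irrational ((2 * (P.s * α)) / α) := by
    have e : 2 * (P.s * α) / α = ((2 : ℕ) : ℝ) * P.s := by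
      field_simp
      push_cast
      ring
    rw [e]
    exact P.hirr.natCast_mul (by norm_num)
  obtain ⟨j, i, hij⟩ := dens hirr (Λ - Λ₀) hε
  set n' : ℕ → ℕ := fun k => ((n (θ k) : ℤ) - i).toNat with hn'
  set m' : ℕ → ℕ := fun k => (((2 * θ k : ℕ) : ℤ) + 2 * j).toNat with hm'
  have hray' : P.Ray (fun k => n (θ k)) (fun k => 2 * θ k) :=
    ⟨hray.1.comp hθ.tendsto_atTop, hray.2.comp hθ.tendsto_atTop⟩
  have hshift : ∀ᶠ k in atTop, (n' k : ℤ) = ((n (θ k) : ℕ) : ℤ) + (-i) ∧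
      (m' k : ℤ) = ((2 * θ k : ℕ) : ℤ) + 2 * j := by
    filter_upwards [(ray_n hray').eventually_ge_atTop i.natAbs,
      hray'.1.eventually_ge_atTop (2 * j.natAbs)] with k hk1 hk2
    rw [hn', hm']
    simp only
    constructor <;> omega
  have h3 := L_shift (n' := n') (m' := m') hray' (-i) (2 * j) hshift
  have h4 := h3.add hlim
  refine ⟨n', m', ?_, ?_, _, ?_, (h4.congr fun k => ?_)⟩
  · refine ray_shift hray' ((i.natAbs : ℝ) + 2 * (j.natAbs : ℝ)) ?_
    filter_upwards [hshift] with k hk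
    have e1 : (n' k : ℝ) = (n (θ k) : ℝ) - i := by
      have := hk.1
      have h5 : ((n' k : ℤ) : ℝ) = (((n (θ k) : ℕ) : ℤ) + (-i) : ℤ) := by rw [this]
      push_cast at h5
      linarith
    have e2 : (m' k : ℝ) = ((2 * θ k : ℕ) : ℝ) + 2 * j := by
      have := hk.2
      have h5 : ((m' k : ℤ) : ℝ) = (((2 * θ k : ℕ) : ℤ) + 2 * j : ℤ) := by rw [this]
      push_cast at h5
      push_cast
      linarith
    have e3 : (i.natAbs : ℝ) = |(i : ℝ)| := by
      rw [Nat.cast_natAbs]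
      push_cast
      rfl
    have e4 : (j.natAbs : ℝ) = |(j : ℝ)| := by
      rw [Nat.cast_natAbs]
      push_cast
      rfl
    rw [e1, e2, e3, e4]
    constructor
    · rw [sub_sub_cancel_left, abs_neg]
      have := abs_nonneg (j : ℝ)
      linarith
    · rw [add_sub_cancel_left, abs_mul, abs_two]
      have := abs_nonneg (i : ℝ)
      linarith
  · filter_upwards [hshift] with k hk
    have := hk.2
    rw [Nat.even_iff]
    omega
  · rw [hγ]
    push_cast
    have e : -(i : ℝ) * (Real.log (P.G P.ξ) - Real.log (P.t ^ 2)) + 2 * j * (P.s * α) + Λ₀ - Λ =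
        j * (2 * (P.s * α)) + i * α - (Λ - Λ₀) := by
      rw [hα]
      ring
    rw [e]
    exact hij
  · simp only [Function.comp]
    ring

end Par

end Pool.Agent.R261.Crit
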