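import Mathlib
import Pool.Agent.R261.CritC

/-! Density of the ratios of gap integrals. -/

set_option autoImplicit false

open Set Filter Topology MeasureTheory intervalIntegral

namespace Pool.Agent.R261.Crit

namespace Par

variable (P : Par)

def w (a b c d : ℕ) (x : ℝ) : ℝ := |x + P.t| ^ a * |x + 1| ^ b * |x - 1| ^ c * |x - P.t| ^ d

lemma contw (a b c d : ℕ) : Continuous (P.w a b c d) := by
  unfold w
  fun_prop

lemma w_nonneg (a b c d : ℕ) (x : ℝ) : 0 ≤ P.w a b c d x := by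
  unfold w
  positivity

lemma w_neg (a b c d : ℕ) (x : ℝ) : P.w a b c d (-x) = P.w d c b a x := by
  unfold w
  have e1 : |-x + P.t| = |x - P.t| := by rw [← abs_neg]; congr 1; ring
  have e2 : |-x + 1| = |x - 1| := by rw [← abs_neg]; congr 1; ring
  have e3 : |-x - 1| = |x + 1| := by rw [← abs_neg]; congr 1; ring
  have e4 : |-x - P.t| = |x + P.t| := by rw [← abs_neg]; congr 1; ring
  rw [e1, e2, e3, e4]
  ring

lemma w_base (n m p1 q1 q2 p2 : ℕ) {x : ℝ} (hx : x ∈ Icc (-P.t) P.t) :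
    P.w (n + p1) (m + q1) (m + q2) (n + p2) x =
      P.w p1 q1 q2 p2 x * (P.G x ^ n * P.H x ^ m) := by
  have e1 : P.G x = |x + P.t| * |x - P.t| := by
    rw [← abs_mul, abs_of_nonpos]
    · unfold G
      ring
    · nlinarith [hx.1, hx.2]
  have e2 : P.H x = |x + 1| * |x - 1| := by
    rw [← abs_mul]
    unfold H
    congr 1
    ring
  rw [e1, e2]
  unfold w
  simp only [pow_add, mul_pow]
  ring

noncomputable def A3 (a b c d : ℕ) : ℝ := ∫ x in (1)..P.t, P.w a b c d x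
noncomputable def A2 (a b c d : ℕ) : ℝ := ∫ x in (-1)..1, P.w a b c d x
noncomputable def A1 (a b c d : ℕ) : ℝ := ∫ x in (-P.t)..(-1), P.w a b c d x

lemma A1_eq (a b c d : ℕ) : P.A1 a b c d = P.A3 d c b a := by
  unfold A1 A3
  rw [← intervalIntegral.integral_comp_neg]
  simp only [w_neg]

lemma A3_pos (a b c d : ℕ) : 0 < P.A3 a b c d := by
  refine intervalIntegral_pos_of_pos_on ((P.contw _ _ _ _).intervalIntegrable _ _) ?_ P.t_gt
  intro x hx
  unfold w
  have h1 : 0 < |x + P.t| := abs_pos.2 (by linarith [hx.1, P.t_gt])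
  have h2 : 0 < |x + 1| := abs_pos.2 (by linarith [hx.1])
  have h3 : 0 < |x - 1| := abs_pos.2 (by linarith [hx.1])
  have h4 : 0 < |x - P.t| := abs_pos.2 (by linarith [hx.2])
  positivity

lemma A2_pos (a b c d : ℕ) : 0 < P.A2 a b c d := by
  refine intervalIntegral_pos_of_pos_on ((P.contw _ _ _ _).intervalIntegrable _ _) ?_ (by norm_num)
  intro x hx
  unfold w
  have h1 : 0 < |x + P.t| := abs_pos.2 (by linarith [hx.1, P.t_gt])
  have h2 : 0 < |x + 1| := abs_pos.2 (by linarith [hx.1])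
  have h3 : 0 < |x - 1| := abs_pos.2 (by linarith [hx.2])
  have h4 : 0 < |x - P.t| := abs_pos.2 (by linarith [hx.2, P.t_gt])
  positivity

lemma w_zero_pos (a b c d : ℕ) : 0 < P.w a b c d 0 := by
  unfold w
  have h1 : 0 < |(0 : ℝ) + P.t| := abs_pos.2 (by linarith [P.t_gt])
  have h2 : 0 < |(0 : ℝ) + 1| := abs_pos.2 (by norm_num)
  have h3 : 0 < |(0 : ℝ) - 1| := abs_pos.2 (by norm_num)
  have h4 : 0 < |(0 : ℝ) - P.t| := abs_pos.2 (by linarith [P.t_gt])
  positivity

lemma log_w_ξ (a b c d : ℕ) : Real.log (P.w a b c d P.ξ) = a * Real.log (P.t + P.ξ) +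
    b * Real.log (P.ξ + 1) + c * Real.log (P.ξ - 1) + d * Real.log (P.t - P.ξ) := by
  have h0 := P.hξ
  have h0' := P.hξt
  unfold w
  rw [abs_of_pos (by linarith : 0 < P.ξ + P.t), abs_of_pos (by linarith : 0 < P.ξ + 1),
    abs_of_pos (by linarith : 0 < P.ξ - 1), abs_of_neg (by linarith : P.ξ - P.t < 0), neg_sub,
    add_comm P.ξ P.t]
  have h1 : 0 < P.t + P.ξ := by linarith
  have h2 : 0 < P.ξ + 1 := by linarith
  have h3 : 0 < P.ξ - 1 := by linarith
  have h4 : 0 < P.t - P.ξ := by linarith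
  rw [Real.log_mul (by positivity) (by positivity), Real.log_mul (by positivity) (by positivity),
    Real.log_mul (by positivity) (by positivity), Real.log_pow, Real.log_pow, Real.log_pow,
    Real.log_pow]

lemma w_ξ_pos (a b c d : ℕ) : 0 < P.w a b c d P.ξ := by
  have h0 := P.hξ
  have h0' := P.hξt
  unfold w
  have h1 : 0 < |P.ξ + P.t| := abs_pos.2 (by linarith)
  have h2 : 0 < |P.ξ + 1| := abs_pos.2 (by linarith)
  have h3 : 0 < |P.ξ - 1| := abs_pos.2 (by linarith)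
  have h4 : 0 < |P.ξ - P.t| := abs_pos.2 (by linarith)
  positivity

variable {P}

lemma lim3 {n m : ℕ → ℕ} (h : P.Ray n m) (p1 q1 q2 p2 : ℕ) {Λ : ℝ}
    (hΛ : Tendsto (fun k => P.L (n k) (m k)) atTop (𝓝 Λ)) :
    Tendsto (fun k => Real.log (P.A3 (n k + p1) (m k + q1) (m k + q2) (n k + p2)) -
      Real.log (P.A2 (n k + p1) (m k + q1) (m k + q2) (n k + p2))) atTop
      (𝓝 (Λ + Real.log (P.w p1 q1 q2 p2 P.ξ) - Real.log (P.w p1 q1 q2 p2 0))) := by
  have h1 := (convR h (P.contw p1 q1 q2 p2)).log (P.w_ξ_pos _ _ _ _).ne'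
  have h2 := (convM h (P.contw p1 q1 q2 p2)).log (P.w_zero_pos _ _ _ _).ne'
  refine ((hΛ.add h1).sub h2).congr fun k => ?_
  have ht := P.t_gt
  have e1 : (∫ x in (1)..P.t, P.w p1 q1 q2 p2 x * (P.G x ^ n k * P.H x ^ m k)) =
      P.A3 (n k + p1) (m k + q1) (m k + q2) (n k + p2) := by
    unfold A3
    refine intervalIntegral.integral_congr fun x hx => ?_
    rw [uIcc_of_le ht.le] at hx
    rw [P.w_base _ _ _ _ _ _ ⟨by linarith [hx.1], hx.2⟩]
  have e2 : (∫ x in (-1)..1, P.w p1 q1 q2 p2 x * (P.G x ^ n k * P.H x ^ m k)) =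
      P.A2 (n k + p1) (m k + q1) (m k + q2) (n k + p2) := by
    unfold A2
    refine intervalIntegral.integral_congr fun x hx => ?_
    rw [uIcc_of_le (by norm_num)] at hx
    rw [P.w_base _ _ _ _ _ _ ⟨by linarith [hx.1], by linarith [hx.2]⟩]
  rw [e1, e2, Real.log_div (P.A3_pos _ _ _ _).ne' (P.Jr_pos _ _).ne',
    Real.log_div (P.A2_pos _ _ _ _).ne' (P.Jm_pos _ _).ne']
  unfold L
  ring

lemma A2_swap (a b c d : ℕ) : P.A2 a b c d = P.A2 d c b a := by
  unfold A2
  have h := intervalIntegral.integral_comp_neg (a := -1) (b := 1) (P.w a b c d)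
  rw [neg_neg] at h
  rw [← h]
  simp only [w_neg]

variable (P)

/-- The pairs of logarithms of the ratios of the gap integrals are dense in the plane, with
prescribed parities of the two inner exponents. -/
theorem dens_ratio (U V : ℝ) {ε : ℝ} (hε : 0 < ε) (β γ : ℕ) : ∃ a b c d : ℕ,
    b % 2 = β % 2 ∧ c % 2 = γ % 2 ∧
    |Real.log (P.A3 a b c d) - Real.log (P.A2 a b c d) - U| < ε ∧
    |Real.log (P.A1 a b c d) - Real.log (P.A2 a b c d) - V| < ε := by
  have h0 := P.hξ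
  have h0' := P.hξt
  set B := Real.log (P.t + P.ξ) - Real.log (P.t - P.ξ) with hB
  set D := Real.log (P.ξ + 1) - Real.log (P.ξ - 1) with hD
  have hphi : phi P.t P.ξ = B / D := by
    unfold phi
    rw [Real.log_div (by linarith) (by linarith), Real.log_div (by linarith) (by linarith),
      hB, hD, ← neg_sub (Real.log (P.t + P.ξ)), ← neg_sub (Real.log (P.ξ + 1)), neg_div_neg_eq]
  have hirr : Irrational (B / (2 * D)) := by
    have e : B / (2 * D) = phi P.t P.ξ / ((2 : ℕ) : ℝ) := by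
      rw [hphi, div_div]
      push_cast
      ring
    rw [e]
    exact P.hphi.div_natCast (by norm_num)
  obtain ⟨i, j, hij⟩ := dens hirr (U - V - ((β : ℝ) - γ) * D) (half_pos hε)
  set p1 := i.toNat with hp1
  set p2 := (-i).toNat with hp2
  set q1 := β + 2 * j.toNat with hq1
  set q2 := γ + 2 * (-j).toNat with hq2
  have e1 : (p1 : ℝ) - p2 = i := by
    have := Int.toNat_sub_toNat_neg i
    exact_mod_cast this
  have e2 : (q1 : ℝ) - q2 = β - γ + 2 * j := by
    have : ((j.toNat : ℕ) : ℝ) - (((-j).toNat : ℕ) : ℝ) = j := by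
      have := Int.toNat_sub_toNat_neg j
      exact_mod_cast this
    rw [hq1, hq2]
    push_cast
    linarith
  have e3 : Real.log (P.w p1 q1 q2 p2 P.ξ) - Real.log (P.w p2 q2 q1 p1 P.ξ) =
      i * B + (β - γ + 2 * j) * D := by
    rw [P.log_w_ξ, P.log_w_ξ, ← e1, ← e2, hB, hD]
    ring
  have e4 : P.w p2 q2 q1 p1 0 = P.w p1 q1 q2 p2 0 := by
    have := P.w_neg p1 q1 q2 p2 0
    rw [neg_zero] at this
    exact this.symm
  obtain ⟨n, m, hray, heven, Λ, hΛ1, hΛ2⟩ := P.target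
    (V - Real.log (P.w p2 q2 q1 p1 P.ξ) + Real.log (P.w p1 q1 q2 p2 0)) (half_pos hε)
  have h3 := lim3 hray p1 q1 q2 p2 hΛ2
  have h1 := lim3 hray p2 q2 q1 p1 hΛ2
  rw [abs_lt] at hij hΛ1
  have h3' := (h3.sub_const U).abs
  have h1' := (h1.sub_const V).abs
  have h3'' := h3'.eventually (gt_mem_nhds (show |Λ + Real.log (P.w p1 q1 q2 p2 P.ξ) -
      Real.log (P.w p1 q1 q2 p2 0) - U| < ε by
    rw [abs_lt]
    constructor <;> nlinarith [hij.1, hij.2, hΛ1.1, hΛ1.2, e3]))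
  have h1'' := h1'.eventually (gt_mem_nhds (show |Λ + Real.log (P.w p2 q2 q1 p1 P.ξ) -
      Real.log (P.w p2 q2 q1 p1 0) - V| < ε by
    rw [e4, abs_lt]
    constructor <;> nlinarith [hij.1, hij.2, hΛ1.1, hΛ1.2]))
  obtain ⟨k, ⟨hk3, hk1⟩, hke⟩ := ((h3''.and h1'').and heven).exists
  obtain ⟨l, hl⟩ := hke
  refine ⟨n k + p1, m k + q1, m k + q2, n k + p2, ?_, ?_, hk3, ?_⟩
  · omega
  · omega
  · rw [P.A1_eq, A2_swap]
    exact hk1

end Par

end Pool.Agent.R261.Crit
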