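import Mathlib

/-!
# Zero sets of Gevrey classes in the disc

`integral_bound`: if a nonzero analytic function in the disc satisfies
`|f^(n)| ≤ C^(n+1) (n!)^(1+1/α)` and all its derivatives vanish on the compact subset `E` of the
circle, then the integrals of `dist(z, E)^(-α)` over the circles `|z| = r`, `1/2 ≤ r < 1`, are
bounded.
-/

set_option autoImplicit false

open Set Filter Topology Complex Metric MeromorphicOn

namespace Pool.Agent.R261.GevZero

lemma taylor_zero {ζ : ℂ} (hζ : ‖ζ‖ = 1) (k : ℕ) : ∀ (g : ℂ → ℂ) (M : ℝ),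
    DifferentiableOn ℂ g (ball 0 1) → (∀ z ∈ ball (0 : ℂ) 1, ‖iteratedDeriv k g z‖ ≤ M) →
    (∀ j < k, Tendsto (iteratedDeriv j g) (𝓝[ball 0 1] ζ) (𝓝 0)) →
    ∀ z ∈ ball (0 : ℂ) 1, ‖g z‖ ≤ M * ‖z - ζ‖ ^ k / k.factorial := by
  induction k with
  | zero =>
    intro g M _ hM _ z hz
    have := hM z hz
    simpa using this
  | succ k ih =>
    intro g M hg hM hlim z hz
    have hM0 : 0 ≤ M := (norm_nonneg _).trans (hM z hz)
    have hg' : DifferentiableOn ℂ (deriv g) (ball 0 1) := hg.deriv isOpen_ball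
    have hder : ∀ w ∈ ball (0 : ℂ) 1, ‖deriv g w‖ ≤ M * ‖w - ζ‖ ^ k / k.factorial := by
      refine ih (deriv g) M hg' (fun w hw => ?_) (fun j hj => ?_)
      · rw [← iteratedDeriv_succ']
        exact hM w hw
      · rw [← iteratedDeriv_succ']
        exact hlim (j + 1) (by omega)
    have h0 := hlim 0 (by omega)
    rw [iteratedDeriv_zero] at h0
    -- the segment
    set p : ℝ → ℂ := fun t => ζ + t * (z - ζ) with hp
    have hzn : ‖z‖ < 1 := by rwa [mem_ball, dist_zero_right] at hz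
    have hpb : ∀ t : ℝ, 0 < t → t ≤ 1 → p t ∈ ball (0 : ℂ) 1 := by
      intro t ht0 ht1
      rw [mem_ball, dist_zero_right, hp]
      have e : ζ + t * (z - ζ) = ((1 - t : ℝ) : ℂ) * ζ + (t : ℂ) * z := by push_cast; ring
      simp only [e]
      calc ‖((1 - t : ℝ) : ℂ) * ζ + (t : ℂ) * z‖ ≤ ‖((1 - t : ℝ) : ℂ) * ζ‖ + ‖(t : ℂ) * z‖ :=
            norm_add_le _ _
        _ = (1 - t) + t * ‖z‖ := by
            rw [norm_mul, norm_mul, hζ, norm_real, norm_real, Real.norm_of_nonneg (by linarith),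
              Real.norm_of_nonneg ht0.le, mul_one]
        _ < 1 := by nlinarith
    have hpd : ∀ t : ℝ, HasDerivAt p (z - ζ) t := by
      intro t
      have h1 : HasDerivAt (fun t : ℝ => (t : ℂ)) 1 t := ofRealCLM.hasDerivAt
      have h2 := (h1.mul_const (z - ζ)).const_add ζ
      rwa [one_mul] at h2
    have key : ∀ s : ℝ, 0 < s → s ≤ 1 →
        ‖g z‖ ≤ ‖g (p s)‖ + M * ‖z - ζ‖ ^ (k + 1) / (k + 1).factorial := by
      intro s hs0 hs1
      have hd : ∀ t ∈ Icc s 1, HasDerivAt (fun t => g (p t)) (deriv g (p t) * (z - ζ)) t := by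
        intro t ht
        have h1 := hpb t (hs0.trans_le ht.1) ht.2
        have h2 : HasDerivAt g (deriv g (p t)) (p t) :=
          (hg.differentiableAt (isOpen_ball.mem_nhds h1)).hasDerivAt
        exact h2.comp t (hpd t)
      have h1 := image_norm_le_of_norm_deriv_right_le_deriv_boundary
        (f := fun t => g (p t)) (f' := fun t => deriv g (p t) * (z - ζ)) (a := s) (b := 1)
        (B := fun t => ‖g (p s)‖ + M * ‖z - ζ‖ ^ (k + 1) / (k + 1).factorial * t ^ (k + 1))
        (B' := fun t => M * ‖z - ζ‖ ^ (k + 1) / (k + 1).factorial * ((k + 1 : ℕ) * t ^ k))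
        (fun t ht => (hd t ht).continuousAt.continuousWithinAt)
        (fun t ht => (hd t ⟨ht.1, ht.2.le⟩).hasDerivWithinAt) (by
          have : 0 ≤ M * ‖z - ζ‖ ^ (k + 1) / (k + 1).factorial * s ^ (k + 1) := by positivity
          linarith)
        (fun t => by
          have := ((hasDerivAt_pow (k + 1) t).const_mul
            (M * ‖z - ζ‖ ^ (k + 1) / (k + 1).factorial)).const_add ‖g (p s)‖
          simpa using this)
        (fun t ht => by
          have ht0 : 0 < t := hs0.trans_le ht.1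
          have h2 := hder (p t) (hpb t ht0 ht.2.le)
          have h3 : p t - ζ = t * (z - ζ) := by rw [hp]; ring
          rw [h3, norm_mul, norm_real, Real.norm_of_nonneg ht0.le] at h2
          rw [norm_mul]
          calc ‖deriv g (p t)‖ * ‖z - ζ‖ ≤ (M * (t * ‖z - ζ‖) ^ k / k.factorial) * ‖z - ζ‖ := by
                gcongr
            _ = M * ‖z - ζ‖ ^ (k + 1) / (k + 1).factorial * ((k + 1 : ℕ) * t ^ k) := by
                rw [Nat.factorial_succ]
                push_cast
                have h4 : (k.factorial : ℝ) ≠ 0 := by positivity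
                have h5 : (k + 1 : ℝ) ≠ 0 := by positivity
                rw [mul_pow]
                field_simp
                ring)
        (x := 1) ⟨hs1, le_rfl⟩
      have h2 : p 1 = z := by rw [hp]; simp
      simp only [h2, one_pow, mul_one] at h1
      exact h1
    have hps : Tendsto (fun s : ℝ => ‖g (p s)‖) (𝓝[>] 0) (𝓝 0) := by
      have h1 : Tendsto p (𝓝[>] 0) (𝓝[ball 0 1] ζ) := by
        rw [tendsto_nhdsWithin_iff]
        constructor
        · have h2 : ContinuousAt p 0 := (hpd 0).continuousAt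
          have h3 : p 0 = ζ := by rw [hp]; simp
          have h4 : Tendsto p (𝓝[>] 0) (𝓝 (p 0)) := h2.tendsto.mono_left nhdsWithin_le_nhds
          rwa [h3] at h4
        · filter_upwards [Ioc_mem_nhdsGT (show (0 : ℝ) < 1 by norm_num)] with s hs
          exact hpb s hs.1 hs.2
      have h5 := (h0.comp h1).norm
      simpa using h5
    have h6 : Tendsto (fun s : ℝ => ‖g (p s)‖ + M * ‖z - ζ‖ ^ (k + 1) / (k + 1).factorial)
        (𝓝[>] 0) (𝓝 (0 + M * ‖z - ζ‖ ^ (k + 1) / (k + 1).factorial)) := hps.add_const _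
    rw [zero_add] at h6
    refine ge_of_tendsto h6 ?_
    filter_upwards [Ioc_mem_nhdsGT (show (0 : ℝ) < 1 by norm_num)] with s hs
    exact key s hs.1 hs.2

/-- Exponential decay at a point where all derivatives vanish. -/
lemma gevrey_decay {α C : ℝ} (hα : 0 < α) (hC : 1 ≤ C) {f : ℂ → ℂ}
    (hf : DifferentiableOn ℂ f (ball 0 1))
    (hb : ∀ n : ℕ, ∀ z ∈ ball (0 : ℂ) 1,
      ‖iteratedDeriv n f z‖ ≤ C ^ (n + 1) * (n.factorial : ℝ) ^ (1 + 1 / α))
    {ζ : ℂ} (hζ : ‖ζ‖ = 1) (hv : ∀ n, Tendsto (iteratedDeriv n f) (𝓝[ball 0 1] ζ) (𝓝 0))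
    {z : ℂ} (hz : z ∈ ball (0 : ℂ) 1) :
    ‖f z‖ ≤ C * Real.exp (1 - (Real.exp 1 * C) ^ (-α) * ‖z - ζ‖ ^ (-α)) := by
  set d := ‖z - ζ‖ with hd
  have hd0 : 0 < d := by
    rw [hd, norm_pos_iff, sub_ne_zero]
    rintro rfl
    rw [mem_ball, dist_zero_right, hζ] at hz
    exact lt_irrefl _ hz
  have he : 0 < Real.exp 1 := Real.exp_pos 1
  set X : ℝ := (Real.exp 1 * C * d) ^ (-α) with hX
  have hX0 : 0 ≤ X := by rw [hX]; positivity
  set n := ⌊X⌋₊ with hn
  have hnX : (n : ℝ) ≤ X := Nat.floor_le hX0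
  have hXn : X < n + 1 := Nat.lt_floor_add_one X
  have h1 := taylor_zero hζ n f _ hf (hb n) (fun j _ => hv j) z hz
  have hfac : (0 : ℝ) < n.factorial := by positivity
  have h2 : (n.factorial : ℝ) ^ (1 / α) ≤ ((Real.exp 1 * C * d)⁻¹) ^ n := by
    have h3 : (n.factorial : ℝ) ≤ (n : ℝ) ^ n := by exact_mod_cast Nat.factorial_le_pow n
    calc (n.factorial : ℝ) ^ (1 / α) ≤ ((n : ℝ) ^ n) ^ (1 / α) :=
          Real.rpow_le_rpow hfac.le h3 (by positivity)
      _ = ((n : ℝ) ^ (1 / α)) ^ n := by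
          rw [← Real.rpow_natCast, ← Real.rpow_mul (by positivity), mul_comm,
            Real.rpow_mul (by positivity), Real.rpow_natCast]
      _ ≤ ((Real.exp 1 * C * d)⁻¹) ^ n := by
          gcongr
          calc (n : ℝ) ^ (1 / α) ≤ X ^ (1 / α) := by gcongr
            _ = (Real.exp 1 * C * d)⁻¹ := by
                rw [hX, ← Real.rpow_mul (by positivity)]
                have : -α * (1 / α) = -1 := by field_simp
                rw [this, Real.rpow_neg_one]
  have h4 : C ^ (n + 1) * (n.factorial : ℝ) ^ (1 + 1 / α) * d ^ n / n.factorial ≤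
      C * (Real.exp (-1)) ^ n := by
    rw [Real.rpow_add hfac, Real.rpow_one]
    have e1 : C ^ (n + 1) * ((n.factorial : ℝ) * (n.factorial : ℝ) ^ (1 / α)) * d ^ n /
        n.factorial = C * ((C * d) ^ n * (n.factorial : ℝ) ^ (1 / α)) := by
      rw [mul_pow]
      field_simp
      ring
    rw [e1]
    have hC0 : 0 < C := by linarith
    have e2 : (C * d) ^ n * ((Real.exp 1 * C * d)⁻¹) ^ n = (Real.exp (-1)) ^ n := by
      rw [← mul_pow, Real.exp_neg]
      congr 1
      field_simp
    rw [← e2]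
    gcongr
  refine h1.trans (h4.trans ?_)
  have hC0 : 0 < C := by linarith
  rw [← Real.exp_nat_mul]
  have e3 : (Real.exp 1 * C) ^ (-α) * d ^ (-α) = X := by
    rw [hX, Real.mul_rpow (by positivity) hd0.le]
  rw [e3]
  gcongr
  linarith

/-- Jensen: the circle averages of `log |f|` are bounded below. -/
lemma jensen_lower {f : ℂ → ℂ} (hf : DifferentiableOn ℂ f (ball 0 1)) :
    ∃ B : ℝ, ∀ r : ℝ, 1 / 2 ≤ r → r < 1 → B ≤ Real.circleAverage (Real.log ‖f ·‖) 0 r := by
  refine ⟨-(|((meromorphicOrderAt f 0).untop₀ : ℝ)| * Real.log 2) +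
    Real.log ‖meromorphicTrailingCoeffAt f 0‖, fun r hr1 hr2 => ?_⟩
  have hr0 : 0 < r := by linarith
  have hsub : closedBall (0 : ℂ) |r| ⊆ ball 0 1 := by
    rw [abs_of_pos hr0]
    exact closedBall_subset_ball hr2
  have han : AnalyticOnNhd ℂ f (closedBall 0 |r|) :=
    (hf.analyticOnNhd isOpen_ball).mono hsub
  rw [han.meromorphicOn.circleAverage_log_norm hr0.ne']
  have h1 : 0 ≤ ∑ᶠ u, (divisor f (closedBall 0 |r|) u : ℝ) * Real.log (r * ‖0 - u‖⁻¹) := by
    refine finsum_nonneg fun u => ?_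
    by_cases hu : u ∈ closedBall (0 : ℂ) |r|
    · refine mul_nonneg (by exact_mod_cast han.divisor_nonneg u) ?_
      rw [zero_sub, norm_neg]
      rw [mem_closedBall, dist_zero_right, abs_of_pos hr0] at hu
      rcases eq_or_ne u 0 with rfl | hu0
      · simp
      · apply Real.log_nonneg
        have : 0 < ‖u‖ := norm_pos_iff.2 hu0
        rw [← div_eq_mul_inv, le_div_iff₀ this, one_mul]
        exact hu
    · simp [hu]
  have h2 : divisor f (closedBall (0 : ℂ) |r|) 0 = (meromorphicOrderAt f 0).untop₀ :=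
    divisor_apply han.meromorphicOn (by simp)
  rw [h2]
  have h3 : |Real.log r| ≤ Real.log 2 := by
    rw [abs_of_nonpos (Real.log_nonpos hr0.le hr2.le)]
    have := Real.log_le_log (by norm_num) hr1
    rw [one_div, Real.log_inv] at this
    linarith
  have h4 : -(|((meromorphicOrderAt f 0).untop₀ : ℝ)| * Real.log 2) ≤
      ((meromorphicOrderAt f 0).untop₀ : ℝ) * Real.log r := by
    have := neg_abs_le (((meromorphicOrderAt f 0).untop₀ : ℝ) * Real.log r)
    rw [abs_mul] at this
    have h5 : |((meromorphicOrderAt f 0).untop₀ : ℝ)| * |Real.log r| ≤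
        |((meromorphicOrderAt f 0).untop₀ : ℝ)| * Real.log 2 := by gcongr
    linarith
  linarith

/-- The integrals of `dist(z, E) ^ (-α)` over circles are bounded if `E` is a zero set. -/
theorem integral_bound {α : ℝ} (hα : 0 < α) {E : Set ℂ} (hE : E ⊆ sphere 0 1) (hEc : IsCompact E)
    (hEn : E.Nonempty) {f : ℂ → ℂ} (hf : DifferentiableOn ℂ f (ball 0 1)) {C : ℝ}
    (hb : ∀ n : ℕ, ∀ z ∈ ball (0 : ℂ) 1,
      ‖iteratedDeriv n f z‖ ≤ C ^ (n + 1) * (n.factorial : ℝ) ^ (1 + 1 / α))
    (hnz : ∃ z ∈ ball (0 : ℂ) 1, f z ≠ 0)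
    (hv : ∀ n, ∀ ζ ∈ E, Tendsto (iteratedDeriv n f) (𝓝[ball 0 1] ζ) (𝓝 0)) :
    ∃ B : ℝ, ∀ r : ℝ, 1 / 2 ≤ r → r < 1 →
      ∫ θ in (0 : ℝ)..(2 * Real.pi), (infDist (circleMap 0 r θ) E) ^ (-α) ≤ B := by
  -- enlarge the constant
  set C' : ℝ := |C| + 1 with hC'
  have hC1 : 1 ≤ C' := by rw [hC']; linarith [abs_nonneg C]
  have hC0 : 0 < C' := by linarith
  have hb' : ∀ n : ℕ, ∀ z ∈ ball (0 : ℂ) 1,
      ‖iteratedDeriv n f z‖ ≤ C' ^ (n + 1) * (n.factorial : ℝ) ^ (1 + 1 / α) := by
    intro n z hz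
    refine (hb n z hz).trans ?_
    have : C ^ (n + 1) ≤ C' ^ (n + 1) := by
      calc C ^ (n + 1) ≤ |C ^ (n + 1)| := le_abs_self _
        _ = |C| ^ (n + 1) := abs_pow _ _
        _ ≤ C' ^ (n + 1) := by rw [hC']; gcongr; linarith
    gcongr
  obtain ⟨B, hB⟩ := jensen_lower hf
  set c : ℝ := (Real.exp 1 * C') ^ (-α) with hc
  have hc0 : 0 < c := by rw [hc]; positivity
  set A : ℝ := Real.log C' + 1 with hA
  refine ⟨2 * Real.pi * ((A - B) / c), fun r hr1 hr2 => ?_⟩
  have hr0 : 0 < r := by linarith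
  have hsph : sphere (0 : ℂ) |r| ⊆ ball 0 1 := by
    intro z hz
    rw [mem_sphere, dist_zero_right, abs_of_pos hr0] at hz
    rw [mem_ball, dist_zero_right, hz]
    exact hr2
  set u : ℂ → ℝ := fun z => (infDist z E) ^ (-α) with hu
  -- pointwise bound
  have hpt : ∀ z ∈ ball (0 : ℂ) 1, f z ≠ 0 → Real.log ‖f z‖ ≤ A - c * u z := by
    intro z hz hfz
    obtain ⟨ζ, hζE, hζ⟩ := hEc.exists_infDist_eq_dist hEn z
    have hζ1 : ‖ζ‖ = 1 := by simpa using hE hζE
    have h1 := gevrey_decay hα hC1 hf hb' hζ1 (fun n => hv n ζ hζE) hz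
    have h2 := Real.log_le_log (norm_pos_iff.2 hfz) h1
    rw [Real.log_mul hC0.ne' (Real.exp_ne_zero _), Real.log_exp] at h2
    rw [hu]
    simp only
    rw [hζ, dist_eq_norm, hA]
    linarith
  have hpos : ∀ z ∈ sphere (0 : ℂ) |r|, 1 - r ≤ infDist z E := by
    intro z hz
    rw [mem_sphere, dist_zero_right, abs_of_pos hr0] at hz
    rw [le_infDist hEn]
    intro ζ hζ
    have hζ1 : ‖ζ‖ = 1 := by simpa using hE hζ
    rw [dist_eq_norm, norm_sub_rev]
    have := norm_sub_norm_le ζ z
    linarith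
  have huc : ContinuousOn u (sphere (0 : ℂ) |r|) := by
    intro z hz
    have h1 : infDist z E ≠ 0 := by have := hpos z hz; intro h; linarith
    exact (((continuous_infDist_pt E).continuousAt).rpow_const (Or.inl h1)).continuousWithinAt
  have huci : CircleIntegrable u 0 r := by
    apply ContinuousOn.circleIntegrable'
    exact huc
  -- compare circle averages
  set L : ℂ → ℝ := fun z => if f z = 0 then A - c * u z else Real.log ‖f z‖ with hL
  have hcod : (fun z => Real.log ‖f z‖) =ᶠ[codiscreteWithin (sphere (0 : ℂ) |r|)] L := by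
    have h1 := (hf.analyticOnNhd isOpen_ball).eqOn_zero_or_eventually_ne_zero_of_preconnected
      (convex_ball (0 : ℂ) 1).isPreconnected
    rcases h1 with h1 | h1
    · obtain ⟨z, hz, hfz⟩ := hnz
      exact absurd (h1 hz) hfz
    · have h2 : ∀ᶠ z in codiscreteWithin (sphere (0 : ℂ) |r|), f z ≠ 0 :=
        codiscreteWithin_mono hsph h1
      filter_upwards [h2] with z hz
      rw [hL]
      simp only [hz, if_false]
  have hfi : CircleIntegrable (fun z => Real.log ‖f z‖) 0 r :=
    (((hf.analyticOnNhd isOpen_ball).mono hsph).meromorphicOn).circleIntegrable_log_norm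
  have hLi : CircleIntegrable L 0 r := hfi.congr_codiscreteWithin hcod
  have hRi : CircleIntegrable (fun z => A - c * u z) 0 r := by
    apply ContinuousOn.circleIntegrable'
    exact continuousOn_const.sub (continuousOn_const.mul huc)
  have h1 : Real.circleAverage L 0 r ≤ Real.circleAverage (fun z => A - c * u z) 0 r := by
    refine Real.circleAverage_mono hLi hRi fun z hz => ?_
    rw [hL]
    simp only
    split_ifs with h
    · exact le_rfl
    · exact hpt z (hsph hz) h
  rw [← Real.circleAverage_congr_codiscreteWithin hcod hr0.ne'] at h1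
  have h2 := (hB r hr1 hr2).trans h1
  have huii : IntervalIntegrable (fun θ => u (circleMap 0 r θ)) MeasureTheory.volume 0
    (2 * Real.pi) := huci
  have h3 : Real.circleAverage (fun z => A - c * u z) 0 r =
      A - c * ((2 * Real.pi)⁻¹ * ∫ θ in (0 : ℝ)..(2 * Real.pi), u (circleMap 0 r θ)) := by
    rw [Real.circleAverage_def]
    rw [intervalIntegral.integral_sub intervalIntegrable_const (huii.const_mul c),
      intervalIntegral.integral_const, intervalIntegral.integral_const_mul, smul_eq_mul,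
      smul_eq_mul, sub_zero]
    have := Real.pi_pos
    field_simp
  rw [h3] at h2
  have hpi := Real.pi_pos
  have h4 : c * ((2 * Real.pi)⁻¹ * ∫ θ in (0 : ℝ)..(2 * Real.pi), u (circleMap 0 r θ)) ≤ A - B := by
    linarith
  have h5 : (∫ θ in (0 : ℝ)..(2 * Real.pi), u (circleMap 0 r θ)) = 2 * Real.pi * ((c *
      ((2 * Real.pi)⁻¹ * ∫ θ in (0 : ℝ)..(2 * Real.pi), u (circleMap 0 r θ))) / c) := by
    field_simp
  rw [h5]
  gcongr

/-- Divergence along disjoint intervals contradicts the integral bound. -/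
theorem summable_of_bound {α : ℝ} (hα : 0 < α) {E : Set ℂ} (hE : E ⊆ sphere 0 1)
    (hEn : E.Nonempty) {B : ℝ}
    (hB : ∀ r : ℝ, 1 / 2 ≤ r → r < 1 →
      ∫ θ in (0 : ℝ)..(2 * Real.pi), (infDist (circleMap 0 r θ) E) ^ (-α) ≤ B)
    (a b δ : ℕ → ℝ) (ha : ∀ n, 0 ≤ a n) (hab : ∀ n, a n ≤ b n) (hb : ∀ n, b n ≤ 2 * Real.pi)
    (hba : ∀ n, b (n + 1) ≤ a n) (hδ : ∀ n, 0 < δ n)
    (hdist : ∀ n, ∀ θ ∈ Icc (a n) (b n), infDist (circleMap 0 1 θ) E ≤ δ n) :
    Summable fun n => (b n - a n) * (δ n) ^ (-α) := by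
  have hterm : ∀ n, 0 ≤ (b n - a n) * (δ n) ^ (-α) := fun n =>
    mul_nonneg (by linarith [hab n]) (Real.rpow_nonneg (hδ n).le _)
  have hanti : Antitone a := antitone_nat_of_succ_le fun n => (hab (n + 1)).trans (hba n)
  refine summable_of_sum_range_le (c := 2 ^ α * B) hterm fun M => ?_
  -- choose `r`
  obtain ⟨ε, hε0, hε1, hε⟩ : ∃ ε : ℝ, 0 < ε ∧ ε ≤ 1 / 2 ∧ ∀ n < M, ε ≤ δ n := by
    rcases Nat.eq_zero_or_pos M with rfl | hM
    · exact ⟨1 / 2, by norm_num, le_rfl, fun n hn => absurd hn (Nat.not_lt_zero n)⟩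
    · have hne : (Finset.range M).Nonempty := Finset.nonempty_range_iff.2 hM.ne'
      refine ⟨min (1 / 2) ((Finset.range M).inf' hne δ), lt_min (by norm_num) ?_, min_le_left _ _,
        fun n hn => (min_le_right _ _).trans (Finset.inf'_le _ (Finset.mem_range.2 hn))⟩
      rw [Finset.lt_inf'_iff]
      exact fun n _ => hδ n
  set r := 1 - ε with hr
  have hr1 : 1 / 2 ≤ r := by rw [hr]; linarith
  have hr2 : r < 1 := by rw [hr]; linarith
  have hr0 : 0 < r := by linarith
  have hBr := hB r hr1 hr2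
  set v : ℝ → ℝ := fun θ => (infDist (circleMap 0 r θ) E) ^ (-α) with hv
  have hpos : ∀ θ, 1 - r ≤ infDist (circleMap 0 r θ) E := by
    intro θ
    rw [le_infDist hEn]
    intro ζ hζ
    have hζ1 : ‖ζ‖ = 1 := by simpa using hE hζ
    rw [dist_eq_norm, norm_sub_rev]
    have := norm_sub_norm_le ζ (circleMap 0 r θ)
    rw [norm_circleMap_zero, abs_of_pos hr0] at this
    linarith
  have hvc : Continuous v := by
    rw [continuous_iff_continuousAt]
    intro θ
    have h1 : infDist (circleMap 0 r θ) E ≠ 0 := by have := hpos θ; intro h; linarith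
    exact ((continuous_infDist_pt E).continuousAt.comp
      (continuous_circleMap 0 r).continuousAt).rpow_const (Or.inl h1)
  have hv0 : ∀ θ, 0 ≤ v θ := fun θ => Real.rpow_nonneg infDist_nonneg _
  have hvi : ∀ x y, IntervalIntegrable v MeasureTheory.volume x y :=
    fun x y => hvc.intervalIntegrable x y
  -- lower bound on the intervals
  have hlow : ∀ n < M, ∀ θ ∈ Icc (a n) (b n), (2 * δ n) ^ (-α) ≤ v θ := by
    intro n hn θ hθ
    have h1 : infDist (circleMap 0 r θ) E ≤ 2 * δ n := by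
      have h2 : infDist (circleMap 0 r θ) E ≤
          infDist (circleMap 0 1 θ) E + dist (circleMap 0 r θ) (circleMap 0 1 θ) :=
        infDist_le_infDist_add_dist
      have h3 : dist (circleMap 0 r θ) (circleMap 0 1 θ) = ε := by
        rw [dist_eq_norm]
        have : circleMap 0 r θ - circleMap 0 1 θ = ((r - 1 : ℝ) : ℂ) * Complex.exp (θ * I) := by
          simp only [circleMap]
          push_cast
          ring
        rw [this, norm_mul, norm_exp_ofReal_mul_I, mul_one, norm_real, hr, Real.norm_eq_abs,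
          abs_of_nonpos (by linarith)]
        ring
      rw [h3] at h2
      have := hdist n θ hθ
      have := hε n hn
      linarith
    rw [hv]
    simp only
    exact Real.rpow_le_rpow_of_nonpos (by have := hpos θ; linarith) h1 (by linarith)
  have key : ∀ m ≤ M, ∀ x : ℝ, 0 ≤ x → x ≤ 2 * Real.pi → (∀ n < m, x ≤ a n) →
      ∑ n ∈ Finset.range m, (b n - a n) * (2 * δ n) ^ (-α) ≤ ∫ θ in x..(2 * Real.pi), v θ := by
    intro m
    induction m with
    | zero =>
      intro _ x _ hx2 _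
      simp only [Finset.range_zero, Finset.sum_empty]
      exact intervalIntegral.integral_nonneg hx2 fun θ _ => hv0 θ
    | succ m ih =>
      intro hm x hx1 hx2 hx
      have hxa : x ≤ a m := hx m (by omega)
      have h1 := ih (by omega) (b m) ((ha m).trans (hab m)) (hb m) (fun n hn => by
        obtain ⟨k, rfl⟩ : ∃ k, m = k + 1 := ⟨m - 1, by omega⟩
        exact (hba k).trans (hanti (by omega)))
      have h2 : (∫ θ in x..(a m), v θ) + (∫ θ in (a m)..(b m), v θ) +
          (∫ θ in (b m)..(2 * Real.pi), v θ) = ∫ θ in x..(2 * Real.pi), v θ := by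
        rw [intervalIntegral.integral_add_adjacent_intervals (hvi _ _) (hvi _ _),
          intervalIntegral.integral_add_adjacent_intervals (hvi _ _) (hvi _ _)]
      have h3 : 0 ≤ ∫ θ in x..(a m), v θ :=
        intervalIntegral.integral_nonneg hxa fun θ _ => hv0 θ
      have h4 : (b m - a m) * (2 * δ m) ^ (-α) ≤ ∫ θ in (a m)..(b m), v θ := by
        have := intervalIntegral.integral_mono_on (hab m) intervalIntegrable_const (hvi _ _)
          (hlow m (by omega))
        rwa [intervalIntegral.integral_const, smul_eq_mul] at this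
      rw [Finset.sum_range_succ, ← h2]
      linarith
  have h6 := (key M le_rfl 0 le_rfl (by positivity) (fun n _ => ha n)).trans hBr
  have h7 : ∑ n ∈ Finset.range M, (b n - a n) * (2 * δ n) ^ (-α) =
      2 ^ (-α) * ∑ n ∈ Finset.range M, (b n - a n) * (δ n) ^ (-α) := by
    rw [Finset.mul_sum]
    refine Finset.sum_congr rfl fun n _ => ?_
    rw [Real.mul_rpow (by norm_num) (hδ n).le]
    ring
  rw [h7, Real.rpow_neg (by norm_num)] at h6
  rwa [inv_mul_le_iff₀ (by positivity)] at h6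

end Pool.Agent.R261.GevZero
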