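import Mathlib
import Pool.Agent.R261.BDiv

/-! Irreducibility of a Moebius transform of the square root of a Blaschke product. -/

set_option autoImplicit false

open Filter Topology Metric MeasureTheory Set

namespace Pool.Agent.R261.Irr

open Pool.Agent.TH222.QP Pool.Agent.R261.BDiv

/-- The function `θ_ξ = (ξ - ϑ) / (1 - conj ξ * ϑ)` on the surface `w ^ 2 = B z`. -/
noncomputable def thetaXi (β : ℕ → ℂ) (ξ : ℂ) (p : Cover β) : ℂ :=
  (ξ - p.theta) / (1 - (starRingEnd ℂ) ξ * p.theta)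

/-- For `a, a'` nearly unimodular, `(a - a')^2 / (a a')` is nearly real. -/
lemma im_V {a a' : ℂ} {ε : ℝ} (hε : ε ≤ 3 / 4) (ha : ‖a‖ ≤ 1) (ha' : ‖a'‖ ≤ 1)
    (h1 : 1 - ε ≤ ‖a‖ ^ 2) (h2 : 1 - ε ≤ ‖a'‖ ^ 2) :
    |((a - a') ^ 2 / (a * a')).im| ≤ 4 * ε ∧ ‖(a - a') ^ 2 / (a * a')‖ ≤ 16 := by
  have hna : 1 / 4 ≤ ‖a‖ ^ 2 := by linarith
  have hna' : 1 / 4 ≤ ‖a'‖ ^ 2 := by linarith
  have hp : 1 / 2 ≤ ‖a‖ := by nlinarith [norm_nonneg a]
  have hp' : 1 / 2 ≤ ‖a'‖ := by nlinarith [norm_nonneg a']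
  have ha0 : a ≠ 0 := norm_pos_iff.1 (by linarith)
  have ha0' : a' ≠ 0 := norm_pos_iff.1 (by linarith)
  have hprod : 1 / 4 ≤ ‖a‖ * ‖a'‖ := by nlinarith
  constructor
  · have e1 : (a - a') ^ 2 / (a * a') =
        (((1 / (‖a‖ ^ 2 * ‖a'‖ ^ 2) : ℝ)) : ℂ) *
          ((a - a') ^ 2 * ((starRingEnd ℂ) a * (starRingEnd ℂ) a')) := by
      have c1 : (starRingEnd ℂ) a = ((‖a‖ ^ 2 : ℝ) : ℂ) / a := by
        rw [eq_div_iff ha0, mul_comm, Complex.mul_conj, Complex.normSq_eq_norm_sq]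
      have c2 : (starRingEnd ℂ) a' = ((‖a'‖ ^ 2 : ℝ) : ℂ) / a' := by
        rw [eq_div_iff ha0', mul_comm, Complex.mul_conj, Complex.normSq_eq_norm_sq]
      have n1 : (((‖a‖ ^ 2 : ℝ)) : ℂ) ≠ 0 := by
        have : ‖a‖ ^ 2 ≠ 0 := by positivity
        exact_mod_cast this
      have n2 : (((‖a'‖ ^ 2 : ℝ)) : ℂ) ≠ 0 := by
        have : ‖a'‖ ^ 2 ≠ 0 := by positivity
        exact_mod_cast this
      rw [c1, c2, Complex.ofReal_div, Complex.ofReal_mul, Complex.ofReal_one]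
      field_simp
    have s1 : ‖a‖ ^ 2 = a.re * a.re + a.im * a.im := by
      rw [← Complex.normSq_eq_norm_sq, Complex.normSq_apply]
    have s2 : ‖a'‖ ^ 2 = a'.re * a'.re + a'.im * a'.im := by
      rw [← Complex.normSq_eq_norm_sq, Complex.normSq_apply]
    have e2 : ((a - a') ^ 2 * ((starRingEnd ℂ) a * (starRingEnd ℂ) a')).im =
        (‖a‖ ^ 2 - ‖a'‖ ^ 2) * (a * (starRingEnd ℂ) a').im := by
      rw [s1, s2]
      simp only [pow_two, Complex.mul_im,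
        Complex.mul_re, Complex.sub_re, Complex.sub_im, Complex.conj_re, Complex.conj_im]
      ring
    have h3 : |(a * (starRingEnd ℂ) a').im| ≤ ‖a‖ * ‖a'‖ := by
      have := Complex.abs_im_le_norm (a * (starRingEnd ℂ) a')
      rwa [norm_mul, RCLike.norm_conj] at this
    have h4 : |‖a‖ ^ 2 - ‖a'‖ ^ 2| ≤ ε := by
      rw [abs_le]
      constructor <;> nlinarith [norm_nonneg a, norm_nonneg a']
    have h5 : 0 ≤ ε := (abs_nonneg _).trans h4
    rw [e1, Complex.im_ofReal_mul, e2, abs_mul, abs_mul, abs_of_pos (by positivity)]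
    have h6 : |‖a‖ ^ 2 - ‖a'‖ ^ 2| * |(a * (starRingEnd ℂ) a').im| ≤ ε * (‖a‖ * ‖a'‖) :=
      mul_le_mul h4 h3 (abs_nonneg _) h5
    have h7 : 1 / (‖a‖ ^ 2 * ‖a'‖ ^ 2) * (ε * (‖a‖ * ‖a'‖)) = ε / (‖a‖ * ‖a'‖) := by
      field_simp
    refine (mul_le_mul_of_nonneg_left h6 (by positivity)).trans ?_
    rw [h7, div_le_iff₀ (by linarith)]
    nlinarith
  · rw [norm_div, norm_pow, norm_mul, div_le_iff₀ (by linarith)]
    have h3 : ‖a - a'‖ ≤ 2 := (norm_sub_le _ _).trans (by linarith)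
    nlinarith [norm_nonneg (a - a')]

/-- The main pointwise estimate. -/
lemma im_quot {a a' c c' : ℂ} {ε δ : ℝ} (hε : ε ≤ 3 / 4) (hδ : 0 < δ) (ha : ‖a‖ ≤ 1)
    (ha' : ‖a'‖ ≤ 1) (hc : ‖c‖ ≤ 1) (hc' : ‖c'‖ ≤ 1) (h1 : 1 - ε ≤ ‖a * c‖ ^ 2)
    (h2 : 1 - ε ≤ ‖a' * c'‖ ^ 2) (h3 : δ ≤ ‖a * c - a' * c'‖ ^ 2) :
    |((a - a') ^ 2 * (c * c') / (a * c - a' * c') ^ 2).im| ≤ (4 / δ + 64 / δ ^ 2) * ε := by
  have hε0 : 0 ≤ ε := by
    have : ‖a * c‖ ≤ 1 := by rw [norm_mul]; nlinarith [norm_nonneg a, norm_nonneg c]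
    nlinarith [norm_nonneg (a * c)]
  have k1 : 1 - ε ≤ ‖a‖ ^ 2 := by
    refine h1.trans ?_
    rw [norm_mul, mul_pow]
    have : ‖c‖ ^ 2 ≤ 1 := by nlinarith [norm_nonneg c]
    nlinarith [sq_nonneg ‖a‖]
  have k2 : 1 - ε ≤ ‖a'‖ ^ 2 := by
    refine h2.trans ?_
    rw [norm_mul, mul_pow]
    have : ‖c'‖ ^ 2 ≤ 1 := by nlinarith [norm_nonneg c']
    nlinarith [sq_nonneg ‖a'‖]
  have kt : ‖a * c‖ ≤ 1 := by rw [norm_mul]; nlinarith [norm_nonneg a, norm_nonneg c]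
  have ks : ‖a' * c'‖ ≤ 1 := by rw [norm_mul]; nlinarith [norm_nonneg a', norm_nonneg c']
  obtain ⟨v1, v2⟩ := im_V hε ha ha' k1 k2
  obtain ⟨x1, x2⟩ := im_V hε kt ks h1 h2
  have hac : a * c ≠ 0 := by
    intro h0; rw [h0, norm_zero] at h1; norm_num at h1; linarith
  have hac' : a' * c' ≠ 0 := by
    intro h0; rw [h0, norm_zero] at h2; norm_num at h2; linarith
  have ha0 : a ≠ 0 := left_ne_zero_of_mul hac
  have hc0 : c ≠ 0 := right_ne_zero_of_mul hac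
  have ha0' : a' ≠ 0 := left_ne_zero_of_mul hac'
  have hc0' : c' ≠ 0 := right_ne_zero_of_mul hac'
  have hd : a * c - a' * c' ≠ 0 := by
    intro h0; rw [h0, norm_zero] at h3; norm_num at h3; linarith
  set V := (a - a') ^ 2 / (a * a') with hV
  set W := (a * c - a' * c') ^ 2 / (a * c * (a' * c')) with hW
  have hVW : (a - a') ^ 2 * (c * c') / (a * c - a' * c') ^ 2 = V / W := by
    rw [hV, hW]
    field_simp
  have hWn : δ ≤ ‖W‖ := by
    rw [hW, norm_div, norm_pow, norm_mul (a * c), le_div_iff₀ (by positivity)]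
    refine le_trans ?_ h3
    have : ‖a * c‖ * ‖a' * c'‖ ≤ 1 := by nlinarith [norm_nonneg (a * c), norm_nonneg (a' * c')]
    nlinarith [norm_nonneg (a * c), norm_nonneg (a' * c')]
  have hWp : 0 < ‖W‖ := hδ.trans_le hWn
  rw [hVW]
  have e1 : (V / W).im = (V.im * W.re - V.re * W.im) / ‖W‖ ^ 2 := by
    rw [Complex.div_im, Complex.normSq_eq_norm_sq]
    ring
  rw [e1, abs_div, abs_of_pos (show (0:ℝ) < ‖W‖ ^ 2 by positivity), div_le_iff₀ (by positivity)]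
  have r1 : |W.re| ≤ ‖W‖ := Complex.abs_re_le_norm W
  have r2 : |V.re| ≤ 16 := (Complex.abs_re_le_norm V).trans v2
  have t1 : |V.im * W.re - V.re * W.im| ≤ 4 * ε * ‖W‖ + 16 * (4 * ε) := by
    refine (abs_sub _ _).trans ?_
    rw [abs_mul, abs_mul]
    have := mul_le_mul v1 r1 (abs_nonneg _) (by linarith)
    have := mul_le_mul r2 x1 (abs_nonneg _) (by norm_num)
    linarith
  refine t1.trans ?_
  have q1 : 4 * ε * ‖W‖ ≤ 4 / δ * ε * ‖W‖ ^ 2 := by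
    have : 1 ≤ ‖W‖ / δ := by rw [le_div_iff₀ hδ]; linarith
    have h8 : 4 / δ * ε * ‖W‖ ^ 2 = 4 * ε * ‖W‖ * (‖W‖ / δ) := by ring
    rw [h8]
    have h9 : 0 ≤ 4 * ε * ‖W‖ := by positivity
    nlinarith
  have q2 : 16 * (4 * ε) ≤ 64 / δ ^ 2 * ε * ‖W‖ ^ 2 := by
    have : 1 ≤ (‖W‖ / δ) ^ 2 := by
      have : 1 ≤ ‖W‖ / δ := by rw [le_div_iff₀ hδ]; linarith
      nlinarith
    have h8 : 64 / δ ^ 2 * ε * ‖W‖ ^ 2 = 64 * ε * (‖W‖ / δ) ^ 2 := by ring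
    rw [h8]
    have h9 : 0 ≤ 64 * ε := by positivity
    nlinarith
  nlinarith

lemma fe_theta {β : ℕ → ℂ} {θ1 θ2 : Cover β → ℂ} {ξ : ℂ}
    (hp : ∀ p, thetaXi β ξ p = θ1 p * θ2 p) {z h : ℂ} (hz : ‖z‖ < 1) (hh : h ^ 2 = B β z) :
    fe θ1 z h * fe θ2 z h = (ξ - h) / (1 - (starRingEnd ℂ) ξ * h) := by
  rw [fe_eq θ1 ⟨hz, hh⟩, fe_eq θ2 ⟨hz, hh⟩, ← hp]
  rfl

lemma fe_norm {β : ℕ → ℂ} {θ : Cover β → ℂ} (hb : ∀ p, ‖θ p‖ < 1) (z h : ℂ) :
    ‖fe θ z h‖ < 1 := by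
  unfold fe
  split_ifs with hc
  · exact hb _
  · simp

/-- A quasi-proper map has a zero. -/
lemma exists_zero_of_quasiProper {β : ℕ → ℂ} (h : BSeq β) {θ2 : Cover β → ℂ}
    (h2 : QuasiProper β θ2) (hzf : ∀ p, θ2 p ≠ 0) : False := by
  obtain ⟨h2h, h2b, h2q⟩ := h2
  have hhol : Hol β fun p => (θ2 p)⁻¹ := by
    intro p
    obtain ⟨V, g, hV, hpV, hg, he⟩ := h2h p
    refine ⟨V ∩ {x | g x ≠ 0}, fun x => (g x)⁻¹, ?_, ⟨hpV, ?_⟩, ?_, ?_⟩
    · exact hg.continuousOn.isOpen_inter_preimage hV isOpen_ne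
    · have := he p hpV
      change g (p.phi, p.theta) ≠ 0
      rw [← this]
      exact hzf p
    · exact (hg.mono inter_subset_left).inv fun x hx => hx.2
    · intro x hx
      simp only [he x hx.1]
  have hq := h2q _ hhol
  have hone : ∀ p, θ2 p * (θ2 p)⁻¹ = 1 := fun p => mul_inv_cancel₀ (hzf p)
  have hle : ⨆ p, ‖(θ2 p)⁻¹‖ₑ ≤ 1 := by
    rw [hq]
    refine iSup_le fun p => ?_
    rw [hone p, enorm_one]
  let p0 : Cover β := ⟨β 0, 0, h.lt_one 0, by rw [h.B_zero 0]; ring⟩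
  have h3 : ‖(θ2 p0)⁻¹‖ₑ ≤ 1 := (le_iSup (fun p => ‖(θ2 p)⁻¹‖ₑ) p0).trans hle
  have h4 : ‖(θ2 p0)⁻¹‖ ≤ 1 := by
    rw [← ofReal_norm] at h3
    simpa using h3
  have h5 := h2b p0
  have h6 : 0 < ‖θ2 p0‖ := norm_pos_iff.2 (hzf p0)
  rw [norm_inv] at h4
  have := (one_lt_inv₀ h6).2 h5
  linarith

/-- The key lemma: a factor `θ₁` of `θ_ξ` with quasi-proper cofactor is invariant under the
interchange of sheets. -/
lemma factor_invariant {β : ℕ → ℂ} (hi : Function.Injective β) (h : BSeq β) {ξ : ℂ} (hξ0 : ξ ≠ 0)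
    (hξ : ‖ξ‖ < 1) {θ1 θ2 : Cover β → ℂ} (h1 : Hol β θ1) (h1b : ∀ p, ‖θ1 p‖ < 1)
    (h2 : QuasiProper β θ2) (hp : ∀ p, thetaXi β ξ p = θ1 p * θ2 p) {z w : ℂ}
    (hz : ‖z‖ < 1) (hw : w ^ 2 = B β z) : fe θ1 z w = fe θ1 z (-w) := by
  obtain ⟨h2h, h2b, h2q⟩ := h2
  set κ0 : ℝ := 1 - ‖ξ‖ ^ 2 with hκ0
  have hκpos : 0 < κ0 := by rw [hκ0]; nlinarith [norm_nonneg ξ]
  have hκC : ((κ0 : ℝ) : ℂ) = 1 - (starRingEnd ℂ) ξ * ξ := by
    rw [hκ0, mul_comm, Complex.mul_conj, Complex.normSq_eq_norm_sq]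
    push_cast
    ring
  have hκne : ((κ0 : ℝ) : ℂ) ≠ 0 := by exact_mod_cast hκpos.ne'
  -- the discriminant of `θ₁`
  set D : ℂ → ℂ := fun z => 2 * Sn θ1 2 z - Sn θ1 1 z ^ 2 with hD
  have hDd : DifferentiableOn ℂ D (ball 0 1) :=
    ((Sn_differentiableOn h h1 2).const_mul 2).sub ((Sn_differentiableOn h h1 1).pow 2)
  have hDe : ∀ {z r : ℂ}, r ^ 2 = B β z → D z = (fe θ1 z r - fe θ1 z (-r)) ^ 2 := by
    intro z r hr
    simp only [hD]
    rw [Sn_eq θ1 2 hr, Sn_eq θ1 1 hr]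
    ring
  have hDb : ∀ z, ‖z‖ < 1 → ‖D z‖ ≤ 4 := by
    intro z _
    rw [hDe (wv_sq β z), norm_pow]
    have e1 := fe_norm h1b z (wv β z)
    have e2 := fe_norm h1b z (-wv β z)
    have := norm_sub_le (fe θ1 z (wv β z)) (fe θ1 z (-wv β z))
    nlinarith [norm_nonneg (fe θ1 z (wv β z) - fe θ1 z (-wv β z))]
  have hD0 : ∀ k, D (β k) = 0 := by
    intro k
    have e : (0:ℂ) ^ 2 = B β (β k) := by rw [h.B_zero k]; ring
    rw [hDe e]
    simp
  obtain ⟨E, hEd, hEb, hE⟩ := exists_div h hi hDd hDb hD0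
  -- the norm of `θ₂`
  set N : ℂ → ℂ := fun z => (Sn θ2 1 z ^ 2 - Sn θ2 2 z) / 2 with hN
  have hNd : DifferentiableOn ℂ N (ball 0 1) :=
    (((Sn_differentiableOn h h2h 1).pow 2).sub (Sn_differentiableOn h h2h 2)).div_const 2
  have hNe : ∀ {z r : ℂ}, r ^ 2 = B β z → N z = fe θ2 z r * fe θ2 z (-r) := by
    intro z r hr
    simp only [hN]
    rw [Sn_eq θ2 2 hr, Sn_eq θ2 1 hr]
    ring
  have hNb : ∀ z, ‖z‖ < 1 → ‖N z‖ ≤ 1 := by
    intro z _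
    rw [hNe (wv_sq β z), norm_mul]
    have e1 := fe_norm h2b z (wv β z)
    have e2 := fe_norm h2b z (-wv β z)
    nlinarith [norm_nonneg (fe θ2 z (wv β z)), norm_nonneg (fe θ2 z (-wv β z))]
  -- the function `G`
  set G : ℂ → ℂ := fun z => E z * N z * (1 - (starRingEnd ℂ) ξ ^ 2 * B β z) ^ 2 /
    (4 * (κ0 : ℂ) ^ 2) with hG
  have hGd : DifferentiableOn ℂ G (ball 0 1) := by
    refine DifferentiableOn.div_const ?_ _
    exact (hEd.mul hNd).mul (((h.differentiableOn.const_mul _).const_sub 1).pow 2)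
  have hGn : ∀ z, ‖z‖ < 1 → ‖G z‖ ≤ 4 / κ0 ^ 2 := by
    intro z hz
    simp only [hG]
    rw [norm_div, norm_mul, norm_mul, norm_pow, norm_mul, norm_pow, Complex.norm_real,
      Real.norm_of_nonneg hκpos.le]
    have e1 : ‖1 - (starRingEnd ℂ) ξ ^ 2 * B β z‖ ≤ 2 := by
      refine (norm_sub_le _ _).trans ?_
      rw [norm_one, norm_mul, norm_pow, RCLike.norm_conj]
      have := h.norm_B_le hz
      have : ‖ξ‖ ^ 2 ≤ 1 := by nlinarith [norm_nonneg ξ]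
      nlinarith [norm_nonneg (B β z), sq_nonneg ‖ξ‖]
    have e2 := hEb z hz
    have e3 := hNb z hz
    have e4 : ‖(4:ℂ)‖ = 4 := by simp
    rw [e4, div_le_div_iff₀ (by positivity) (by positivity)]
    have e5 : ‖E z‖ * ‖N z‖ ≤ 4 := by nlinarith [norm_nonneg (E z), norm_nonneg (N z)]
    have e6 : ‖1 - (starRingEnd ℂ) ξ ^ 2 * B β z‖ ^ 2 ≤ 4 := by
      nlinarith [norm_nonneg (1 - (starRingEnd ℂ) ξ ^ 2 * B β z)]
    have e7 : ‖E z‖ * ‖N z‖ * ‖1 - (starRingEnd ℂ) ξ ^ 2 * B β z‖ ^ 2 ≤ 4 * 4 :=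
      mul_le_mul e5 e6 (by positivity) (by norm_num)
    nlinarith [sq_nonneg κ0]
  -- the pointwise estimate
  have hpt : ∃ C : ℝ, 0 ≤ C ∧ ∀ z, ‖z‖ < 1 → |(G z).im| ≤ C * (1 - ‖B β z‖) := by
    set K : ℝ := κ0 / (1 - ‖ξ‖) ^ 2 with hK
    have hs : 0 < 1 - ‖ξ‖ := by linarith
    have hKpos : 0 < K := by rw [hK]; positivity
    set δ : ℝ := κ0 ^ 2 / 2 with hδ
    have hδpos : 0 < δ := by rw [hδ]; positivity
    set η : ℝ := min (1 / 2) (3 / (4 * K)) with hη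
    have hηpos : 0 < η := by rw [hη]; exact lt_min (by norm_num) (by positivity)
    refine ⟨(4 / δ + 64 / δ ^ 2) * K + 4 / κ0 ^ 2 / η, by positivity, fun z hz => ?_⟩
    have hB1 := h.norm_B_le hz
    have hterm1 : 0 ≤ (4 / δ + 64 / δ ^ 2) * K * (1 - ‖B β z‖) := by
      have : 0 ≤ 1 - ‖B β z‖ := by linarith
      positivity
    have hterm2 : 0 ≤ 4 / κ0 ^ 2 / η * (1 - ‖B β z‖) := by
      have : 0 ≤ 1 - ‖B β z‖ := by linarith
      positivity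
    rw [add_mul]
    by_cases hgood : 1 - ‖B β z‖ ≤ η
    · -- good points
      have g1 : 1 / 2 ≤ ‖B β z‖ := by
        have := hgood.trans (min_le_left _ _)
        linarith
      have g2 : K * (1 - ‖B β z‖) ≤ 3 / 4 := by
        have := hgood.trans (min_le_right _ _)
        rw [le_div_iff₀ (by positivity)] at this
        linarith
      have hBne : B β z ≠ 0 := norm_pos_iff.1 (by linarith)
      set r := wv β z with hr
      have hrsq : r ^ 2 = B β z := wv_sq β z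
      have hrn : ‖r‖ ^ 2 = ‖B β z‖ := norm_wv_sq β z
      have hr1 : ‖r‖ ≤ 1 := by nlinarith [norm_nonneg r]
      have hrnegsq : (-r) ^ 2 = B β z := by rw [neg_sq]; exact hrsq
      have t1 := fe_theta hp hz hrsq
      have t2 := fe_theta hp hz hrnegsq
      have hd1 : 1 - (starRingEnd ℂ) ξ * r ≠ 0 := den_ne hξ hr1
      have hd2 : 1 - (starRingEnd ℂ) ξ * (-r) ≠ 0 := den_ne hξ (by rw [norm_neg]; exact hr1)
      have hnt : ∀ s : ℂ, ‖s‖ ^ 2 = ‖B β z‖ → 1 - K * (1 - ‖B β z‖) ≤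
          ‖(ξ - s) / (1 - (starRingEnd ℂ) ξ * s)‖ ^ 2 := by
        intro s hs2
        have hs1 : ‖s‖ ≤ 1 := by nlinarith [norm_nonneg s]
        have e1 := norm_bx_sq hξ hs1
        have e2 : ‖bx ξ s‖ = ‖(ξ - s) / (1 - (starRingEnd ℂ) ξ * s)‖ := by
          rw [bx, norm_div, norm_div, norm_sub_rev]
        rw [e2, hs2] at e1
        have e3 := norm_den_ge' (a := ξ) (z := s) hs1
        have e4 : (1 - ‖ξ‖ ^ 2) * (1 - ‖B β z‖) / ‖1 - (starRingEnd ℂ) ξ * s‖ ^ 2 ≤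
            K * (1 - ‖B β z‖) := by
          rw [hK, div_mul_eq_mul_div]
          refine div_le_div_of_nonneg_left ?_ (by positivity) (by gcongr)
          have : 0 ≤ 1 - ‖B β z‖ := by linarith
          exact mul_nonneg hκpos.le this
        linarith
      have n1 := hnt r hrn
      have n2 := hnt (-r) (by rw [norm_neg]; exact hrn)
      rw [← t1] at n1
      rw [← t2] at n2
      have hdiff : fe θ1 z r * fe θ2 z r - fe θ1 z (-r) * fe θ2 z (-r) =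
          -(2 * (κ0 : ℂ) * r / (1 - (starRingEnd ℂ) ξ ^ 2 * B β z)) := by
        rw [t1, t2]
        have hd3 : 1 - (starRingEnd ℂ) ξ ^ 2 * B β z ≠ 0 := by
          have : 1 - (starRingEnd ℂ) ξ ^ 2 * B β z =
              (1 - (starRingEnd ℂ) ξ * r) * (1 - (starRingEnd ℂ) ξ * (-r)) := by
            rw [← hrsq]; ring
          rw [this]
          exact mul_ne_zero hd1 hd2
        rw [div_sub_div _ _ hd1 hd2, ← neg_div, div_eq_div_iff (mul_ne_zero hd1 hd2) hd3, hκC,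
          ← hrsq]
        ring
      have hden : ‖1 - (starRingEnd ℂ) ξ ^ 2 * B β z‖ ≤ 2 := by
        refine (norm_sub_le _ _).trans ?_
        rw [norm_one, norm_mul, norm_pow, RCLike.norm_conj]
        have : ‖ξ‖ ^ 2 ≤ 1 := by nlinarith [norm_nonneg ξ]
        nlinarith [norm_nonneg (B β z), sq_nonneg ‖ξ‖]
      have hd3 : 1 - (starRingEnd ℂ) ξ ^ 2 * B β z ≠ 0 := by
        have : 1 - (starRingEnd ℂ) ξ ^ 2 * B β z =
            (1 - (starRingEnd ℂ) ξ * r) * (1 - (starRingEnd ℂ) ξ * (-r)) := by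
          rw [← hrsq]; ring
        rw [this]
        exact mul_ne_zero hd1 hd2
      have n3 : δ ≤ ‖fe θ1 z r * fe θ2 z r - fe θ1 z (-r) * fe θ2 z (-r)‖ ^ 2 := by
        rw [hdiff, norm_neg, norm_div, norm_mul, norm_mul, Complex.norm_real,
          Real.norm_of_nonneg hκpos.le, div_pow, mul_pow, mul_pow, hrn,
          le_div_iff₀ (by positivity), hδ]
        have e4 : ‖(2:ℂ)‖ = 2 := by simp
        rw [e4]
        have e6 : ‖1 - (starRingEnd ℂ) ξ ^ 2 * B β z‖ ^ 2 ≤ 4 := by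
          nlinarith [norm_nonneg (1 - (starRingEnd ℂ) ξ ^ 2 * B β z)]
        nlinarith [sq_nonneg κ0]
      have hest := im_quot g2 hδpos (fe_norm h1b z r).le (fe_norm h1b z (-r)).le
        (fe_norm h2b z r).le (fe_norm h2b z (-r)).le n1 n2 n3
      have hGeq : G z = (fe θ1 z r - fe θ1 z (-r)) ^ 2 * (fe θ2 z r * fe θ2 z (-r)) /
          (fe θ1 z r * fe θ2 z r - fe θ1 z (-r) * fe θ2 z (-r)) ^ 2 := by
        rw [hdiff, ← hDe hrsq, ← hNe hrsq, hE z hz]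
        simp only [hG]
        have hr0 : r ≠ 0 := by
          intro h0; apply hBne; rw [← hrsq, h0]; ring
        rw [← hrsq] at hd3 ⊢
        field_simp
        ring
      rw [← hGeq] at hest
      linarith
    · -- bad points
      push Not at hgood
      have b1 : |(G z).im| ≤ 4 / κ0 ^ 2 := (Complex.abs_im_le_norm _).trans (hGn z hz)
      have b2 : 4 / κ0 ^ 2 ≤ 4 / κ0 ^ 2 / η * (1 - ‖B β z‖) := by
        rw [div_mul_eq_mul_div, le_div_iff₀ hηpos]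
        exact mul_le_mul_of_nonneg_left hgood.le (by positivity)
      linarith
  obtain ⟨C, hC0, hC⟩ := hpt
  obtain ⟨κ, hκ⟩ := const_of_im h hGd hC0 hC
  -- `κ = 0`
  have hκ0' : κ = 0 := by
    by_contra hne
    have hzf : ∀ p, θ2 p ≠ 0 := by
      intro p hp0
      have e1 : fe θ2 p.phi p.theta = 0 := by
        rw [fe_eq θ2 ⟨p.norm_phi_lt, p.theta_sq⟩]; exact hp0
      have e2 : N p.phi = 0 := by rw [hNe p.theta_sq, e1, zero_mul]
      have e3 := hκ p.phi p.norm_phi_lt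
      simp only [hG, e2] at e3
      apply hne
      rw [← e3]
      simp
    exact exists_zero_of_quasiProper h ⟨h2h, h2b, h2q⟩ hzf
  -- `D = 0`
  have hDN : ∀ z, ‖z‖ < 1 → D z * N z = 0 := by
    intro z hz
    have e1 := hκ z hz
    rw [hκ0'] at e1
    simp only [hG] at e1
    have hd3 : 1 - (starRingEnd ℂ) ξ ^ 2 * B β z ≠ 0 := by
      have := den_ne (a := ξ ^ 2) (z := B β z) (by rw [norm_pow]; nlinarith [norm_nonneg ξ])
        (h.norm_B_le hz)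
      rwa [map_pow] at this
    rcases div_eq_zero_iff.1 e1 with e2 | e2
    · rcases mul_eq_zero.1 e2 with e3 | e3
      · rw [hE z hz, mul_assoc, e3, mul_zero]
      · exact absurd (pow_eq_zero_iff two_ne_zero |>.1 e3) hd3
    · exact absurd e2 (mul_ne_zero (by norm_num) (pow_ne_zero 2 hκne))
  have hN0 : N (β 0) ≠ 0 := by
    have e : (0:ℂ) ^ 2 = B β (β 0) := by rw [h.B_zero 0]; ring
    have e1 := fe_theta hp (h.lt_one 0) e
    rw [hNe e, neg_zero]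
    have e2 : fe θ2 (β 0) 0 ≠ 0 := by
      intro h0
      rw [h0, mul_zero] at e1
      simp at e1
      exact hξ0 e1.symm
    exact mul_ne_zero e2 e2
  have hmem : ball (0:ℂ) 1 ∈ 𝓝 (β 0) := isOpen_ball.mem_nhds (mem_ball_zero_iff.2 (h.lt_one 0))
  have hNev : ∀ᶠ z in 𝓝 (β 0), N z ≠ 0 :=
    (hNd.differentiableAt hmem).continuousAt.eventually_ne hN0
  have hDev : D =ᶠ[𝓝 (β 0)] 0 := by
    filter_upwards [hNev, hmem] with z hz1 hz2
    rcases mul_eq_zero.1 (hDN z (mem_ball_zero_iff.1 hz2)) with e | e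
    · exact e
    · exact absurd e hz1
  have hDall := (hDd.analyticOnNhd isOpen_ball).eqOn_zero_of_preconnected_of_eventuallyEq_zero
    (convex_ball (0:ℂ) 1).isPreconnected (mem_ball_zero_iff.2 (h.lt_one 0)) hDev
  have e1 : D z = 0 := hDall (mem_ball_zero_iff.2 hz)
  rw [hDe hw] at e1
  exact sub_eq_zero.1 (pow_eq_zero_iff two_ne_zero |>.1 e1)

/-- `θ_ξ` is not a product of two quasi-proper maps. -/
theorem irreducible {β : ℕ → ℂ} (hi : Function.Injective β) (h : BSeq β) {ξ : ℂ} (hξ0 : ξ ≠ 0)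
    (hξ : ‖ξ‖ < 1) {θ1 θ2 : Cover β → ℂ} (h1 : QuasiProper β θ1) (h2 : QuasiProper β θ2) :
    ¬ ∀ p, thetaXi β ξ p = θ1 p * θ2 p := by
  intro hp
  have hp' : ∀ p, thetaXi β ξ p = θ2 p * θ1 p := fun p => by rw [hp p, mul_comm]
  -- a point off the branch values
  have hdense : Dense (range β)ᶜ := (countable_range β).dense_compl ℂ
  obtain ⟨z, hz1, hz2⟩ := hdense.inter_open_nonempty (ball 0 1) isOpen_ball ⟨0, by simp⟩
  have hz : ‖z‖ < 1 := mem_ball_zero_iff.1 hz1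
  have hB : B β z ≠ 0 := h.B_ne_zero hz fun k hk => hz2 ⟨k, hk.symm⟩
  set r := wv β z with hr
  have hrsq : r ^ 2 = B β z := wv_sq β z
  have hrnegsq : (-r) ^ 2 = B β z := by rw [neg_sq]; exact hrsq
  have hr1 : ‖r‖ < 1 := by
    have e1 := norm_wv_sq β z
    have e2 := h.norm_B_lt hz
    rw [← hr] at e1
    nlinarith [norm_nonneg r]
  have i1 := factor_invariant hi h hξ0 hξ h1.1 h1.2.1 h2 hp hz hrsq
  have i2 := factor_invariant hi h hξ0 hξ h2.1 h2.2.1 h1 hp' hz hrsq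
  have t1 := fe_theta hp hz hrsq
  have t2 := fe_theta hp hz hrnegsq
  rw [← i1, ← i2, t1] at t2
  have hd1 : 1 - (starRingEnd ℂ) ξ * r ≠ 0 := den_ne hξ hr1.le
  have hd2 : 1 - (starRingEnd ℂ) ξ * (-r) ≠ 0 := den_ne hξ (by rw [norm_neg]; exact hr1.le)
  rw [div_eq_div_iff hd1 hd2] at t2
  have e3 : 2 * r * (1 - (starRingEnd ℂ) ξ * ξ) = 0 := by linear_combination -t2
  rcases mul_eq_zero.1 e3 with e4 | e4
  · have : r = 0 := by
      rcases mul_eq_zero.1 e4 with e5 | e5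
      · norm_num at e5
      · exact e5
    apply hB
    rw [← hrsq, this]
    ring
  · exact den_ne hξ hξ.le e4

end Pool.Agent.R261.Irr
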