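import Mathlib

/-!
# Inverse branches along an orbit that escapes to infinity

`lift_step`: a holomorphic map of a disc lifts through a covering `N`.
`no_escape`: a map whose critical values are fixed points (one of them attracting) has no orbit
`x k → ∞` along which the derivatives of the iterates stay bounded.
-/

set_option autoImplicit false

open Set Filter Topology Complex Metric

namespace Pool.Agent.R261.Petal

lemma lift_step {N : ℂ → ℂ} {U Z : Set ℂ}
    (hN : ∀ w ∈ U, N w ∉ Z → ∃ n', n' ≠ 0 ∧ HasStrictDerivAt N n' w)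
    (hcov : IsCoveringMapOn (fun w : U => N w) Zᶜ)
    {x0 : ℂ} {r : ℝ} (hr : 0 < r) {f : ℂ → ℂ} (hf : DifferentiableOn ℂ f (ball x0 r))
    (hfZ : ∀ w ∈ ball x0 r, f w ∉ Z) {e0 : ℂ} (he0 : e0 ∈ U) (he : N e0 = f x0) :
    ∃ F : ℂ → ℂ, DifferentiableOn ℂ F (ball x0 r) ∧ (∀ w ∈ ball x0 r, F w ∈ U ∧ N (F w) = f w) ∧
      F x0 = e0 := by
  classical
  have : ContractibleSpace (ball x0 r) := contractibleSpace_ball hr
  have : LocallyPathConnectedSpace (ball x0 r) := (convex_ball x0 r).locallyPathConnectedSpace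
  let f' : C(ball x0 r, ℂ) := ⟨fun w => f w, hf.continuousOn.domRestrict⟩
  obtain ⟨F, ⟨hF1, hF2⟩, -⟩ := hcov.existsUnique_continuousMap_lifts f'
    (a₀ := ⟨x0, mem_ball_self hr⟩) (e₀ := ⟨e0, he0⟩) he (fun a => hfZ a a.2)
  have hF3 : ∀ w (hw : w ∈ ball x0 r), N (F ⟨w, hw⟩) = f w := fun w hw => congrFun hF2 ⟨w, hw⟩
  let G : ℂ → ℂ := fun w => if hw : w ∈ ball x0 r then F ⟨w, hw⟩ else 0
  have hG : ∀ w (hw : w ∈ ball x0 r), G w = F ⟨w, hw⟩ := fun w hw => dif_pos hw
  have hGc : ContinuousOn G (ball x0 r) := by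
    rw [continuousOn_iff_continuous_domRestrict]
    have : (ball x0 r).domRestrict G = fun w => (F w : ℂ) := by
      ext w
      exact hG w w.2
    rw [this]
    exact continuous_subtype_val.comp F.continuous
  refine ⟨G, fun w hw => ?_, fun w hw => ?_, ?_⟩
  · -- holomorphy
    have hwU : G w ∈ U := by rw [hG w hw]; exact (F ⟨w, hw⟩).2
    have hNw : N (G w) = f w := by rw [hG w hw]; exact hF3 w hw
    obtain ⟨n', hn0, hn⟩ := hN (G w) hwU (by rw [hNw]; exact hfZ w hw)
    have hnhds : ball x0 r ∈ 𝓝 w := isOpen_ball.mem_nhds hw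
    have hGcw : ContinuousAt G w := hGc.continuousAt hnhds
    have h1 : ∀ᶠ y in 𝓝 w, hn.localInverse N n' (G w) hn0 (f y) = G y := by
      filter_upwards [hGcw.eventually (hn.eventually_left_inverse hn0), hnhds] with y hy hyb
      rw [← hy, hG y hyb, hF3 y hyb]
    have h2 : HasStrictDerivAt (hn.localInverse N n' (G w) hn0) n'⁻¹ (f w) := by
      rw [← hNw]
      exact hn.to_localInverse hn0
    have h3 : HasDerivAt f (deriv f w) w := (hf.differentiableAt hnhds).hasDerivAt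
    have h4 := h2.hasDerivAt.comp w h3
    have h5 : HasDerivAt G (n'⁻¹ * deriv f w) w :=
      h4.congr_of_eventuallyEq (by filter_upwards [h1] with y hy using hy.symm)
    exact h5.differentiableAt.differentiableWithinAt
  · rw [hG w hw]
    exact ⟨(F ⟨w, hw⟩).2, hF3 w hw⟩
  · rw [hG x0 (mem_ball_self hr), hF1]

/-- A proper map of an open set with finitely many critical values is a covering off them. -/
lemma isCoveringMapOn_of_proper {N : ℂ → ℂ} {U Z : Set ℂ} (hU : IsOpen U)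
    (hN : ∀ w ∈ U, N w ∉ Z → ∃ n', n' ≠ 0 ∧ HasStrictDerivAt N n' w)
    (hp : IsProperMap (fun w : U => N w)) : IsCoveringMapOn (fun w : U => N w) Zᶜ := by
  have hloc : IsLocalHomeomorphOn (fun w : U => N w) ((fun w : U => N w) ⁻¹' Zᶜ) := by
    have h1 : IsLocalHomeomorphOn N {w | w ∈ U ∧ N w ∉ Z} := by
      refine IsLocalHomeomorphOn.mk _ _ fun w hw => ?_
      obtain ⟨n', hn0, hn⟩ := hN w hw.1 hw.2
      have h := hn.hasStrictFDerivAt_equiv hn0
      exact ⟨h.toOpenPartialHomeomorph N, h.mem_toOpenPartialHomeomorph_source, fun x _ => rfl⟩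
    have h2 : IsLocalHomeomorphOn (Subtype.val : U → ℂ) ((fun w : U => N w) ⁻¹' Zᶜ) :=
      hU.isOpenEmbedding_subtypeVal.isLocalHomeomorph.isLocalHomeomorphOn
    exact h1.comp h2 (fun w hw => ⟨w.2, hw⟩)
  refine hp.isClosedMap.isCoveringMapOn_of_isLocalHomeomorphOn (fun x hx => ?_) hloc
  refine (hp.isCompact_preimage isCompact_singleton).finite
    (IsDiscrete.of_openPartialHomeomorph _ subset_rfl fun e he => ?_)
  obtain ⟨φ, hφ, h⟩ := hloc e (by
    have h3 : N e = x := he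
    have : N e ∈ Zᶜ := by rw [h3]; exact hx
    exact this)
  exact ⟨φ, hφ, h.symm⟩

/-- Inverse branches of the iterates along an orbit. -/
lemma lift_iter {N : ℂ → ℂ} {U Z : Set ℂ}
    (hN : ∀ w ∈ U, N w ∉ Z → ∃ n', n' ≠ 0 ∧ HasStrictDerivAt N n' w)
    (hcov : IsCoveringMapOn (fun w : U => N w) Zᶜ) (hfix : ∀ w ∈ Z, N w = w)
    {ζ : ℂ} {δ : ℝ} (hatt : ∀ w ∈ ball ζ δ, N w ∈ ball ζ δ)
    {x : ℕ → ℂ} (hx : ∀ k, x k ∈ U ∧ x (k + 1) = N (x k))
    (k : ℕ) {r : ℝ} (hr : 0 < r) (hrZ : ∀ w ∈ ball (x k) r, w ∉ Z ∧ w ∉ ball ζ δ) :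
    ∀ j ≤ k, ∃ F : ℂ → ℂ, DifferentiableOn ℂ F (ball (x k) r) ∧
      (∀ w ∈ ball (x k) r, F w ∉ Z ∧ F w ∉ ball ζ δ) ∧ F (x k) = x (k - j) ∧
      deriv F (x k) * ∏ i ∈ Finset.Ico (k - j) k, deriv N (x i) = 1 := by
  intro j
  induction j with
  | zero =>
    intro _
    exact ⟨fun w => w, differentiableOn_id, hrZ, rfl, by simp⟩
  | succ j ih =>
    intro hj
    obtain ⟨F, hF1, hF2, hF3, hF4⟩ := ih (by omega)
    have hx1 := hx (k - (j + 1))
    have e1 : k - (j + 1) + 1 = k - j := by omega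
    rw [e1] at hx1
    obtain ⟨G, hG1, hG2, hG3⟩ := lift_step hN hcov hr hF1 (fun w hw => (hF2 w hw).1)
      hx1.1 (by rw [hF3, hx1.2])
    have hmem : x k ∈ ball (x k) r := mem_ball_self hr
    have hnhds : ball (x k) r ∈ 𝓝 (x k) := isOpen_ball.mem_nhds hmem
    refine ⟨G, hG1, fun w hw => ⟨fun h => ?_, fun h => ?_⟩, hG3, ?_⟩
    · have h1 := hfix _ h
      rw [(hG2 w hw).2] at h1
      exact (hF2 w hw).1 (by rw [h1]; exact h)
    · have h1 := hatt _ h
      rw [(hG2 w hw).2] at h1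
      exact (hF2 w hw).2 h1
    · obtain ⟨n', hn0, hn⟩ := hN (x (k - (j + 1))) hx1.1 (by
        rw [← hx1.2, ← hF3]; exact (hF2 _ hmem).1)
      have h1 : HasDerivAt G (deriv G (x k)) (x k) := (hG1.differentiableAt hnhds).hasDerivAt
      have h2 : HasDerivAt N n' (G (x k)) := by rw [hG3]; exact hn.hasDerivAt
      have h3 : HasDerivAt F (n' * deriv G (x k)) (x k) :=
        (h2.comp (x k) h1).congr_of_eventuallyEq (by
          filter_upwards [hnhds] with w hw
          exact (hG2 w hw).2.symm)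
      rw [h3.deriv] at hF4
      rw [Finset.prod_eq_prod_Ico_succ_bot (by omega), e1, hn.hasDerivAt.deriv, ← hF4]
      ring

/-- No escape: if all critical values of `N` (with finite critical point) are fixed points, one of
which has an invariant disc, then the derivatives of the iterates of `N` along an orbit which tends
to infinity are not bounded. -/
theorem no_escape {N : ℂ → ℂ} {U Z : Set ℂ} (hU : IsOpen U)
    (hN : ∀ w ∈ U, N w ∉ Z → ∃ n', n' ≠ 0 ∧ HasStrictDerivAt N n' w)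
    (hp : IsProperMap (fun w : U => N w)) (hfix : ∀ w ∈ Z, N w = w)
    {ζ : ℂ} {δ M : ℝ} (hδ : 0 < δ) (hatt : ∀ w ∈ ball ζ δ, N w ∈ ball ζ δ)
    (hM : ∀ w, M < ‖w‖ → w ∉ Z ∧ w ∉ ball ζ δ)
    {x : ℕ → ℂ} (hx : ∀ k, x k ∈ U ∧ x (k + 1) = N (x k))
    (hlim : Tendsto (fun k => ‖x k‖) atTop atTop)
    {C : ℝ} (hC : ∀ k, ‖∏ i ∈ Finset.range k, deriv N (x i)‖ ≤ C) : False := by
  have hcov := isCoveringMapOn_of_proper hU hN hp
  -- the upper bound for the radii
  have key : ∀ k, M < ‖x k‖ → δ * (‖x k‖ - M) ≤ 2 * C * ‖x 0 - ζ‖ ^ 2 := by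
    intro k hk
    set r := ‖x k‖ - M with hr
    have hr0 : 0 < r := by rw [hr]; linarith
    have hball : ∀ w ∈ ball (x k) r, w ∉ Z ∧ w ∉ ball ζ δ := by
      intro w hw
      apply hM
      rw [mem_ball, dist_eq_norm, hr] at hw
      have := norm_sub_norm_le (x k) w
      rw [norm_sub_rev] at hw
      linarith
    obtain ⟨F, hF1, hF2, hF3, hF4⟩ := lift_iter hN hcov hfix hatt hx k hr0 hball k le_rfl
    rw [Nat.sub_self] at hF3 hF4
    rw [← Finset.range_eq_Ico] at hF4
    have hdist : ∀ w ∈ ball (x k) r, δ ≤ ‖F w - ζ‖ := by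
      intro w hw
      have := (hF2 w hw).2
      rw [mem_ball, dist_eq_norm, not_lt] at this
      exact this
    have hne : ∀ w ∈ ball (x k) r, F w - ζ ≠ 0 := fun w hw => by
      have := hdist w hw
      intro h
      rw [h, norm_zero] at this
      linarith
    have hmem : x k ∈ ball (x k) r := mem_ball_self hr0
    have hnhds : ball (x k) r ∈ 𝓝 (x k) := isOpen_ball.mem_nhds hmem
    set h : ℂ → ℂ := fun w => (F w - ζ)⁻¹ with hh
    have hhd : DifferentiableOn ℂ h (ball (x k) r) := (hF1.sub_const ζ).inv hne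
    have hcl : DiffContOnCl ℂ h (ball (x k) (r / 2)) := by
      apply DifferentiableOn.diffContOnCl
      apply hhd.mono
      refine closure_ball_subset_closedBall.trans (closedBall_subset_ball (by linarith))
    have hcauchy : ‖deriv h (x k)‖ ≤ (1 / δ) / (r / 2) := by
      refine norm_deriv_le_of_forall_mem_sphere_norm_le (by linarith) hcl fun w hw => ?_
      have hw' : w ∈ ball (x k) r :=
        (sphere_subset_closedBall.trans (closedBall_subset_ball (by linarith))) hw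
      rw [hh]
      simp only [norm_inv]
      rw [one_div]
      exact inv_anti₀ hδ (hdist w hw')
    have hFd : HasDerivAt F (deriv F (x k)) (x k) := (hF1.differentiableAt hnhds).hasDerivAt
    have hhd2 : HasDerivAt h (-deriv F (x k) / (F (x k) - ζ) ^ 2) (x k) :=
      (hFd.sub_const ζ).inv (hne _ hmem)
    rw [hhd2.deriv, hF3, norm_div, norm_neg, norm_pow] at hcauchy
    have hne0 : 0 < ‖x 0 - ζ‖ := by
      have := hdist _ hmem
      rw [hF3] at this
      linarith
    have h1 : ‖deriv F (x k)‖ * ‖∏ i ∈ Finset.range k, deriv N (x i)‖ = 1 := by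
      rw [← norm_mul, hF4, norm_one]
    have h2 : 1 ≤ ‖deriv F (x k)‖ * C := by
      rw [← h1]
      exact mul_le_mul_of_nonneg_left (hC k) (norm_nonneg _)
    have h3 : ‖deriv F (x k)‖ ≤ (1 / δ) / (r / 2) * ‖x 0 - ζ‖ ^ 2 := by
      rwa [div_le_iff₀ (by positivity)] at hcauchy
    have hC0 : 0 ≤ C := (norm_nonneg _).trans (hC 0)
    have h4 : 1 ≤ (1 / δ) / (r / 2) * ‖x 0 - ζ‖ ^ 2 * C :=
      h2.trans (mul_le_mul_of_nonneg_right h3 hC0)
    have h5 : (1 / δ) / (r / 2) * ‖x 0 - ζ‖ ^ 2 * C = (2 * C * ‖x 0 - ζ‖ ^ 2) / (δ * r) := by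
      field_simp
    rw [h5, le_div_iff₀ (by positivity)] at h4
    linarith
  obtain ⟨k, hk1, hk2⟩ := ((hlim.eventually_gt_atTop M).and
    (hlim.eventually_gt_atTop (M + 2 * C * ‖x 0 - ζ‖ ^ 2 / δ))).exists
  have h1 := key k hk1
  have h2 : 2 * C * ‖x 0 - ζ‖ ^ 2 / δ < ‖x k‖ - M := by linarith
  rw [div_lt_iff₀ hδ] at h2
  linarith

end Pool.Agent.R261.Petal
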