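import Mathlib
import Pool.Agent.R261.Petal

/-!
# The Newton map of `P e^{∫ Q}` has a critical point which is not a zero of `P`

`newton_false`: for `P` a nonconstant polynomial with simple zeros, `Q ≠ 0`, `D = Q P + P'` and
`E = Q D + D'` some zero of `E` is neither a zero of `D` nor a zero of `P`. The proof is the
Leau-Fatou argument at the parabolic fixed point `∞` of `N z = z - P z / D z`.
-/

set_option autoImplicit false

open Set Filter Topology Complex Metric Polynomial

namespace Pool.Agent.R261.Newton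

lemma tendsto_eval_div_pow (p : ℂ[X]) {m : ℕ} (h : p.natDegree ≤ m) :
    Tendsto (fun z : ℂ => p.eval z / z ^ m) (cocompact ℂ) (𝓝 (p.coeff m)) := by
  have hinv : Tendsto (fun z : ℂ => z⁻¹) (cocompact ℂ) (𝓝 0) := by
    rw [← Metric.cobounded_eq_cocompact]; exact tendsto_inv₀_cobounded
  have hne : ∀ᶠ z : ℂ in cocompact ℂ, z ≠ 0 := by
    have := tendsto_norm_cocompact_atTop (E := ℂ)
    filter_upwards [this.eventually_gt_atTop 0] with z hz
    exact norm_pos_iff.1 hz
  have h1 : Tendsto (fun z : ℂ => ∑ i ∈ Finset.range (m + 1), p.coeff i * (z⁻¹) ^ (m - i))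
      (cocompact ℂ) (𝓝 (∑ i ∈ Finset.range (m + 1), p.coeff i * (0 : ℂ) ^ (m - i))) :=
    tendsto_finsetSum _ fun i _ => (hinv.pow (m - i)).const_mul _
  have h2 : ∑ i ∈ Finset.range (m + 1), p.coeff i * (0 : ℂ) ^ (m - i) = p.coeff m := by
    rw [Finset.sum_range_succ, Finset.sum_eq_zero]
    · simp
    · intro i hi
      rw [Finset.mem_range] at hi
      rw [zero_pow (by omega), mul_zero]
  rw [h2] at h1
  refine h1.congr' ?_
  filter_upwards [hne] with z hz
  rw [eval_eq_sum_range' (Nat.lt_succ_of_le h), Finset.sum_div]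
  refine Finset.sum_congr rfl fun i hi => ?_
  rw [Finset.mem_range] at hi
  have h3 : z ^ m = z ^ i * z ^ (m - i) := by rw [← pow_add]; congr 1; omega
  rw [h3, inv_pow]
  field_simp

lemma norm_one_add_le {T : ℂ} {κ : ℝ} (h0 : 0 ≤ κ) (h1 : κ ≤ 1) (hT : T.re ≤ -1) :
    ‖1 + κ / T‖ ≤ 1 := by
  have hT0 : T ≠ 0 := by
    rintro rfl
    simp at hT
    linarith
  have e : 1 + κ / T = (T + κ) / T := by field_simp
  rw [e, norm_div, div_le_one (norm_pos_iff.2 hT0)]
  rw [← sq_le_sq₀ (norm_nonneg _) (norm_nonneg _), ← normSq_eq_norm_sq, ← normSq_eq_norm_sq,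
    normSq_apply, normSq_apply]
  simp only [add_re, ofReal_re, add_im, ofReal_im, add_zero]
  nlinarith

section

variable (P Q : ℂ[X])

/-- `D = Q P + P'` -/
noncomputable def D : ℂ[X] := Q * P + derivative P

/-- `N z = z - P z / D z` -/
noncomputable def N (z : ℂ) : ℂ := z - P.eval z / (D P Q).eval z

variable {P Q}

lemma natDegree_QP (hP : P ≠ 0) (hQ : Q ≠ 0) : (Q * P).natDegree = P.natDegree + Q.natDegree := by
  rw [natDegree_mul hQ hP, add_comm]

lemma D_natDegree_le (hP : P ≠ 0) (hQ : Q ≠ 0) :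
    (D P Q).natDegree ≤ P.natDegree + Q.natDegree := by
  unfold D
  refine (natDegree_add_le _ _).trans (max_le (natDegree_QP hP hQ).le ?_)
  exact (natDegree_derivative_le P).trans (by omega)

lemma D_coeff (hP : 0 < P.natDegree) :
    (D P Q).coeff (P.natDegree + Q.natDegree) = Q.leadingCoeff * P.leadingCoeff := by
  unfold D
  rw [coeff_add, add_comm P.natDegree, coeff_mul_degree_add_degree,
    coeff_eq_zero_of_natDegree_lt (p := derivative P), add_zero]
  exact (natDegree_derivative_lt (by omega)).trans_le (by omega)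

/-- `z ^ q P / D → 1 / c` -/
lemma tendsto_ratio (hP : 0 < P.natDegree) (hQ : Q ≠ 0) :
    Tendsto (fun z : ℂ => z ^ Q.natDegree * P.eval z / (D P Q).eval z) (cocompact ℂ)
      (𝓝 (Q.leadingCoeff)⁻¹) := by
  have hP0 : P ≠ 0 := by rintro rfl; simp at hP
  have hl : P.leadingCoeff ≠ 0 := leadingCoeff_ne_zero.2 hP0
  have hc : Q.leadingCoeff ≠ 0 := leadingCoeff_ne_zero.2 hQ
  have h1 := tendsto_eval_div_pow P le_rfl
  have h2 := tendsto_eval_div_pow (D P Q) (D_natDegree_le hP0 hQ)
  rw [D_coeff hP] at h2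
  have h3 := h1.div h2 (mul_ne_zero hc hl)
  have h4 : P.coeff P.natDegree / (Q.leadingCoeff * P.leadingCoeff) = (Q.leadingCoeff)⁻¹ := by
    rw [coeff_natDegree]
    field_simp
  rw [h4] at h3
  refine h3.congr' ?_
  filter_upwards [(tendsto_norm_cocompact_atTop (E := ℂ)).eventually_gt_atTop 0] with z hz
  have hz0 : z ≠ 0 := norm_pos_iff.1 hz
  rw [Pi.div_apply, pow_add]
  field_simp

lemma D_eventually_ne (hP : 0 < P.natDegree) (hQ : Q ≠ 0) :
    ∀ᶠ z in cocompact ℂ, (D P Q).eval z ≠ 0 := by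
  have hP0 : P ≠ 0 := by rintro rfl; simp at hP
  have hl : P.leadingCoeff ≠ 0 := leadingCoeff_ne_zero.2 hP0
  have hc : Q.leadingCoeff ≠ 0 := leadingCoeff_ne_zero.2 hQ
  have h2 := tendsto_eval_div_pow (D P Q) (D_natDegree_le hP0 hQ)
  rw [D_coeff hP] at h2
  filter_upwards [h2.eventually_ne (mul_ne_zero hc hl)] with z hz h
  rw [h, zero_div] at hz
  exact hz rfl

/-- `T (N z) - T z → -1` for `T z = c z ^ (q + 1) / (q + 1)`. -/
lemma tendsto_T (hP : 0 < P.natDegree) (hQ : Q ≠ 0) :
    Tendsto (fun z : ℂ => Q.leadingCoeff / (Q.natDegree + 1) * (N P Q z) ^ (Q.natDegree + 1) -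
      Q.leadingCoeff / (Q.natDegree + 1) * z ^ (Q.natDegree + 1)) (cocompact ℂ) (𝓝 (-1)) := by
  have hc : Q.leadingCoeff ≠ 0 := leadingCoeff_ne_zero.2 hQ
  have hinv : Tendsto (fun z : ℂ => z⁻¹) (cocompact ℂ) (𝓝 0) := by
    rw [← Metric.cobounded_eq_cocompact]; exact tendsto_inv₀_cobounded
  have h1 := tendsto_ratio hP hQ
  set q := Q.natDegree with hq
  set c := Q.leadingCoeff with hc'
  set u : ℂ → ℂ := fun z => z ^ q * P.eval z / (D P Q).eval z * (z⁻¹) ^ (q + 1) with hu
  have h2 : Tendsto u (cocompact ℂ) (𝓝 0) := by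
    have := h1.mul (hinv.pow (q + 1))
    rwa [zero_pow (by omega), mul_zero] at this
  have h3 : Tendsto (fun z => ∑ i ∈ Finset.range (q + 1), (1 - u z) ^ i) (cocompact ℂ)
      (𝓝 (∑ i ∈ Finset.range (q + 1), (1 - (0 : ℂ)) ^ i)) :=
    tendsto_finsetSum _ fun i _ => ((tendsto_const_nhds.sub h2).pow i)
  have h4 : ∑ i ∈ Finset.range (q + 1), (1 - (0 : ℂ)) ^ i = (q + 1 : ℂ) := by simp
  rw [h4] at h3
  have h5 := ((h1.mul h3).const_mul (-(c / (q + 1))))
  have hq1 : (q + 1 : ℂ) ≠ 0 := Nat.cast_add_one_ne_zero q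
  have h6 : -(c / (q + 1)) * (c⁻¹ * (q + 1 : ℂ)) = -1 := by field_simp
  rw [h6] at h5
  refine h5.congr' ?_
  filter_upwards [(tendsto_norm_cocompact_atTop (E := ℂ)).eventually_gt_atTop 0] with z hz
  have hz0 : z ≠ 0 := norm_pos_iff.1 hz
  have h7 : N P Q z = z * (1 - u z) := by
    rw [hu]
    unfold N
    simp only [inv_pow]
    rw [pow_succ]
    field_simp
  have h8 : z ^ (q + 1) * u z = z ^ q * P.eval z / (D P Q).eval z := by
    rw [hu]
    simp only [inv_pow]
    field_simp
  have h9 : (∑ i ∈ Finset.range (q + 1), (1 - u z) ^ i) * (1 - u z - 1) =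
      (1 - u z) ^ (q + 1) - 1 := geom_sum_mul _ _
  rw [h7, mul_pow, ← h8]
  linear_combination (c / (q + 1)) * z ^ (q + 1) * h9

/-- The derivative of `N`. -/
lemma N_hasStrictDerivAt {w : ℂ} (hw : (D P Q).eval w ≠ 0) :
    HasStrictDerivAt (N P Q) (1 + (P.eval w * (derivative (D P Q)).eval w -
      (derivative P).eval w * (D P Q).eval w) / (D P Q).eval w ^ 2) w := by
  have h1 := (hasStrictDerivAt_id w).sub ((P.hasStrictDerivAt w).div ((D P Q).hasStrictDerivAt w) hw)
  have h2 : (1 - ((derivative P).eval w * (D P Q).eval w - P.eval w * (derivative (D P Q)).eval w) /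
      (D P Q).eval w ^ 2) = (1 + (P.eval w * (derivative (D P Q)).eval w -
      (derivative P).eval w * (D P Q).eval w) / (D P Q).eval w ^ 2) := by ring
  rw [← h2]
  exact h1

lemma N_deriv_eq {w : ℂ} (hw : (D P Q).eval w ≠ 0) :
    (1 + (P.eval w * (derivative (D P Q)).eval w -
      (derivative P).eval w * (D P Q).eval w) / (D P Q).eval w ^ 2) =
    P.eval w * (Q * D P Q + derivative (D P Q)).eval w / (D P Q).eval w ^ 2 := by
  have h : (D P Q).eval w = Q.eval w * P.eval w + (derivative P).eval w := by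
    unfold D; simp
  rw [eval_add, eval_mul]
  field_simp
  linear_combination ((D P Q).eval w) * h

/-- `z ^ (q + 2) (N' z - 1 - q / (c z ^ (q + 1)))` is bounded near infinity. -/
lemma deriv_asymp (hP : 0 < P.natDegree) (hQ : Q ≠ 0) : ∃ C : ℝ, 0 < C ∧ ∀ᶠ z in cocompact ℂ,
    ‖deriv (N P Q) z - 1 - Q.natDegree / (Q.leadingCoeff * z ^ (Q.natDegree + 1))‖ ≤
      C / ‖z‖ ^ (Q.natDegree + 2) := by
  have hP0 : P ≠ 0 := by rintro rfl; simp at hP
  have hl : P.leadingCoeff ≠ 0 := leadingCoeff_ne_zero.2 hP0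
  have hc : Q.leadingCoeff ≠ 0 := leadingCoeff_ne_zero.2 hQ
  have hD := tendsto_eval_div_pow (D P Q) (D_natDegree_le hP0 hQ)
  rw [D_coeff hP] at hD
  obtain ⟨n, hn⟩ : ∃ n, P.natDegree = n + 1 := ⟨P.natDegree - 1, by omega⟩
  set q := Q.natDegree with hq
  set c := Q.leadingCoeff with hc'
  set l := P.leadingCoeff with hl'
  have hdD : (D P Q).natDegree ≤ n + q + 1 := by
    have := D_natDegree_le hP0 hQ
    omega
  have hcD : (D P Q).coeff (n + q + 1) = c * l := by
    rw [← D_coeff hP, hn]; congr 1; omega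
  have hcP : P.coeff (n + 1) = l := by rw [hl', leadingCoeff, hn]
  -- the polynomial
  set G : ℂ[X] := C c * X ^ (q + 1) * (P * derivative (D P Q) - derivative P * D P Q) -
    C (q : ℂ) * (D P Q) ^ 2 with hG
  have hd1 : (derivative (D P Q)).natDegree ≤ n + q := (natDegree_derivative_le _).trans (by omega)
  have hd2 : (derivative P).natDegree ≤ n := (natDegree_derivative_le _).trans (by omega)
  have hG1 : G.natDegree ≤ 2 * (n + q + 1) := by
    rw [hG]
    refine (natDegree_sub_le _ _).trans (max_le ?_ ?_)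
    · refine natDegree_mul_le.trans ?_
      have h1 : (C c * X ^ (q + 1) : ℂ[X]).natDegree ≤ q + 1 := natDegree_C_mul_X_pow_le _ _
      have h2 : (P * derivative (D P Q) - derivative P * D P Q).natDegree ≤ 2 * n + q + 1 := by
        refine (natDegree_sub_le _ _).trans (max_le ?_ ?_)
        · refine natDegree_mul_le.trans ?_
          omega
        · refine natDegree_mul_le.trans ?_
          omega
      omega
    · refine (natDegree_C_mul_le _ _).trans (natDegree_pow_le.trans ?_)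
      omega
  have hG2 : G.coeff (2 * (n + q + 1)) = 0 := by
    have e1 : (P * derivative (D P Q)).coeff (2 * n + q + 1) = l * (c * l * (n + q + 1)) := by
      have : 2 * n + q + 1 = (n + 1) + (n + q) := by ring
      rw [this, coeff_mul_add_eq_of_natDegree_le (by omega) hd1, hcP, coeff_derivative, hcD]
      push_cast
      ring
    have e2 : (derivative P * D P Q).coeff (2 * n + q + 1) = l * (n + 1) * (c * l) := by
      have : 2 * n + q + 1 = n + (n + q + 1) := by ring
      rw [this, coeff_mul_add_eq_of_natDegree_le hd2 hdD, hcD, coeff_derivative, hcP]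
    have e3 : ((D P Q) ^ 2).coeff (2 * (n + q + 1)) = (c * l) ^ 2 := by
      have := coeff_pow_of_natDegree_le (m := 2) hdD
      rw [hcD] at this
      exact this
    rw [hG, coeff_sub, coeff_C_mul, e3, mul_assoc, coeff_C_mul, mul_comm (X ^ (q + 1))]
    have : 2 * (n + q + 1) = (2 * n + q + 1) + (q + 1) := by ring
    rw [this, coeff_mul_X_pow, coeff_sub, e1, e2]
    ring
  have hG3 : G.natDegree ≤ 2 * (n + q) + 1 := by
    have := natDegree_le_pred hG1 hG2
    omega
  have hG4 := tendsto_eval_div_pow G hG3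
  have hD' : Tendsto (fun z : ℂ => (D P Q).eval z / z ^ (n + q + 1)) (cocompact ℂ)
      (𝓝 (c * l)) := by
    have : P.natDegree + q = n + q + 1 := by omega
    rw [this] at hD
    exact hD
  have hlim := (hG4.div ((hD'.pow 2).const_mul c) (by positivity)).norm
  obtain ⟨C, hC⟩ := hlim.isBoundedUnder_le
  rw [eventually_map] at hC
  refine ⟨|C| + 1, by positivity, ?_⟩
  filter_upwards [hC, D_eventually_ne hP hQ,
    (tendsto_norm_cocompact_atTop (E := ℂ)).eventually_gt_atTop 0] with z h1 h2 h3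
  have hz0 : z ≠ 0 := norm_pos_iff.1 h3
  rw [(N_hasStrictDerivAt h2).hasDerivAt.deriv]
  have h4 : (1 + (P.eval z * (derivative (D P Q)).eval z -
      (derivative P).eval z * (D P Q).eval z) / (D P Q).eval z ^ 2) - 1 - q / (c * z ^ (q + 1)) =
      ((G.eval z / z ^ (2 * (n + q) + 1)) / (c * ((D P Q).eval z / z ^ (n + q + 1)) ^ 2)) /
        z ^ (q + 2) := by
    have h5 : G.eval z = c * z ^ (q + 1) * (P.eval z * (derivative (D P Q)).eval z -
      (derivative P).eval z * (D P Q).eval z) - q * (D P Q).eval z ^ 2 := by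
      rw [hG]
      simp only [eval_sub, eval_mul, eval_pow, eval_X, eval_C]
    rw [h5]
    have h6 : (z ^ (n + q + 1)) ^ 2 = z ^ (2 * (n + q) + 1) * z := by ring
    rw [div_pow, h6]
    field_simp
    ring
  rw [h4, norm_div, norm_pow]
  have h7 : ‖(G.eval z / z ^ (2 * (n + q) + 1)) / (c * ((D P Q).eval z / z ^ (n + q + 1)) ^ 2)‖ ≤
      |C| + 1 := by
    have : ‖(G.eval z / z ^ (2 * (n + q) + 1)) / (c * ((D P Q).eval z / z ^ (n + q + 1)) ^ 2)‖ ≤ C :=
      h1
    linarith [le_abs_self C]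
  gcongr

/-- An orbit in a petal at infinity. -/
lemma exists_orbit (hP : 0 < P.natDegree) (hQ : Q ≠ 0) : ∃ x : ℕ → ℂ,
    (∀ k, (D P Q).eval (x k) ≠ 0 ∧ x (k + 1) = N P Q (x k)) ∧
    Tendsto (fun k => ‖x k‖) atTop atTop ∧
    ∃ C : ℝ, ∀ k, ‖∏ i ∈ Finset.range k, deriv (N P Q) (x i)‖ ≤ C := by
  have hc : Q.leadingCoeff ≠ 0 := leadingCoeff_ne_zero.2 hQ
  obtain ⟨C, hC0, hC⟩ := deriv_asymp hP hQ
  have hT := tendsto_T hP hQ
  set q := Q.natDegree with hq
  set c := Q.leadingCoeff with hc'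
  have hq1 : (q + 1 : ℂ) ≠ 0 := Nat.cast_add_one_ne_zero q
  set a : ℂ := c / (q + 1) with ha
  have ha0 : a ≠ 0 := div_ne_zero hc hq1
  have hT' : ∀ᶠ z in cocompact ℂ, ‖a * (N P Q z) ^ (q + 1) - a * z ^ (q + 1) - (-1)‖ < 1 / 2 := by
    have := (Metric.tendsto_nhds.1 hT) (1 / 2) (by norm_num)
    filter_upwards [this] with z hz
    rwa [dist_eq_norm] at hz
  have hall := hC.and (hT'.and (D_eventually_ne hP hQ))
  rw [← Metric.cobounded_eq_cocompact, hasBasis_cobounded_norm.eventually_iff] at hall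
  obtain ⟨ρ, -, hρ⟩ := hall
  set ρ' := max ρ 0 with hρ'
  set R := max 1 (‖a‖ * (ρ' + 1) ^ (q + 1)) with hR
  have hR1 : 1 ≤ R := le_max_left _ _
  -- points with `Re T ≤ -R` are large
  have hbig : ∀ z : ℂ, (a * z ^ (q + 1)).re ≤ -R → ρ ≤ ‖z‖ := by
    intro z hz
    by_contra hcon
    push Not at hcon
    have h1 : R ≤ ‖a * z ^ (q + 1)‖ := by
      have := abs_re_le_norm (a * z ^ (q + 1))
      have h2 := neg_le_abs (a * z ^ (q + 1)).re
      linarith
    rw [norm_mul, norm_pow] at h1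
    have h2 : ‖a‖ * ‖z‖ ^ (q + 1) ≤ ‖a‖ * ρ' ^ (q + 1) := by
      have : ‖z‖ ≤ ρ' := hcon.le.trans (le_max_left _ _)
      gcongr
    have h3 : ‖a‖ * ρ' ^ (q + 1) < ‖a‖ * (ρ' + 1) ^ (q + 1) := by
      have h4 : 0 < ‖a‖ := norm_pos_iff.2 ha0
      have h5 : 0 ≤ ρ' := le_max_right _ _
      have h6 : ρ' ^ (q + 1) < (ρ' + 1) ^ (q + 1) := pow_lt_pow_left₀ (by linarith) h5 (by omega)
      exact mul_lt_mul_of_pos_left h6 h4
    have h7 := le_max_right 1 (‖a‖ * (ρ' + 1) ^ (q + 1))
    rw [← hR] at h7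
    linarith
  obtain ⟨x0, hx0⟩ := IsAlgClosed.exists_pow_nat_eq (-(R : ℂ) / a) (n := q + 1) (by omega)
  set x : ℕ → ℂ := fun k => (N P Q)^[k] x0 with hx
  have hx1 : ∀ k, x (k + 1) = N P Q (x k) := fun k => Function.iterate_succ_apply' _ _ _
  have hre : ∀ k : ℕ, (a * x k ^ (q + 1)).re ≤ -R - k / 2 := by
    intro k
    induction k with
    | zero =>
      have : x 0 = x0 := rfl
      rw [this, hx0]
      have : a * (-(R : ℂ) / a) = ((-R : ℝ) : ℂ) := by push_cast; field_simp
      rw [this]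
      simp
    | succ k ih =>
      have hk0 : (0 : ℝ) ≤ k := Nat.cast_nonneg k
      have h1 := hbig (x k) (by linarith)
      have h2 := (hρ h1).2.1
      rw [← hx1] at h2
      have h3 := (abs_re_le_norm _).trans_lt h2
      rw [abs_lt] at h3
      simp only [sub_re, neg_re, one_re] at h3
      push_cast
      linarith [h3.2]
  have hxρ : ∀ k, ρ ≤ ‖x k‖ := fun k => hbig _ (by
    have := hre k
    have hk0 : (0 : ℝ) ≤ k := Nat.cast_nonneg k
    linarith)
  have hsize : ∀ k : ℕ, ((k : ℝ) + 1) / (2 * ‖a‖) ≤ ‖x k‖ ^ (q + 1) := by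
    intro k
    have h1 : ((k : ℝ) + 1) / 2 ≤ ‖a * x k ^ (q + 1)‖ := by
      have := abs_re_le_norm (a * x k ^ (q + 1))
      have h2 := neg_le_abs (a * x k ^ (q + 1)).re
      have := hre k
      linarith
    rw [norm_mul, norm_pow] at h1
    rw [div_le_iff₀ (by have := norm_pos_iff.2 ha0; positivity)]
    linarith
  have ha1 : 0 < ‖a‖ := norm_pos_iff.2 ha0
  refine ⟨x, fun k => ⟨(hρ (hxρ k)).2.2, hx1 k⟩, ?_, ?_⟩
  · -- escape
    rw [Filter.tendsto_atTop]
    intro A
    have h1 : Tendsto (fun k : ℕ => ((k : ℝ) + 1) / (2 * ‖a‖)) atTop atTop :=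
      (tendsto_atTop_add_const_right _ _ tendsto_natCast_atTop_atTop).atTop_div_const
        (by positivity)
    filter_upwards [h1.eventually_ge_atTop (|A| ^ (q + 1))] with k hk
    have h2 := hk.trans (hsize k)
    have h3 := le_of_pow_le_pow_left₀ (by omega) (norm_nonneg _) h2
    exact (le_abs_self A).trans h3
  · -- the derivatives
    set s : ℝ := 1 + 1 / (q + 1) with hs
    have hs1 : 1 < s := by rw [hs]; have : (0 : ℝ) < 1 / (q + 1) := by positivity
                           linarith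
    set b : ℝ := 1 / (2 * ‖a‖) with hb
    have hb0 : 0 < b := by rw [hb]; positivity
    set e : ℕ → ℝ := fun k => C / (b * (k + 1)) ^ s with he
    have he0 : ∀ k, 0 ≤ e k := fun k => by rw [he]; positivity
    have hesum : Summable e := by
      have h1 : Summable (fun k : ℕ => 1 / ((k + 1 : ℕ) : ℝ) ^ s) :=
        (summable_nat_add_iff 1).2 (Real.summable_one_div_nat_rpow.2 hs1)
      refine (h1.mul_left (C / b ^ s)).congr fun k => ?_
      rw [he]
      simp only
      rw [Real.mul_rpow hb0.le (by positivity)]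
      push_cast
      field_simp
    have hder : ∀ k, ‖deriv (N P Q) (x k)‖ ≤ 1 + e k := by
      intro k
      have h1 := (hρ (hxρ k)).1
      have hk0 : (0 : ℝ) ≤ k := Nat.cast_nonneg k
      have hTk : (a * x k ^ (q + 1)).re ≤ -1 := by linarith [hre k]
      have hκ0 : (0 : ℝ) ≤ q / (q + 1) := by positivity
      have hκ1 : (q : ℝ) / (q + 1) ≤ 1 := by
        rw [div_le_one (by positivity)]; linarith
      have h2 := norm_one_add_le hκ0 hκ1 hTk
      have h3 : 1 + (((q : ℝ) / (q + 1) : ℝ) : ℂ) / (a * x k ^ (q + 1)) =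
          1 + q / (c * x k ^ (q + 1)) := by
        have hxk : x k ≠ 0 := by
          intro h0
          have h5 := hsize k
          rw [h0, norm_zero, zero_pow (by omega)] at h5
          have h6 : 0 < ((k : ℝ) + 1) / (2 * ‖a‖) := by positivity
          linarith
        rw [ha]
        push_cast
        field_simp
      rw [h3] at h2
      have h4 : deriv (N P Q) (x k) = (1 + q / (c * x k ^ (q + 1))) +
          (deriv (N P Q) (x k) - 1 - q / (c * x k ^ (q + 1))) := by ring
      rw [h4]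
      refine (norm_add_le _ _).trans (add_le_add h2 (h1.trans ?_))
      rw [he]
      simp only
      have h5 : b * (k + 1) ≤ ‖x k‖ ^ (q + 1) := by
        have := hsize k
        rw [hb]
        have e1 : 1 / (2 * ‖a‖) * ((k : ℝ) + 1) = ((k : ℝ) + 1) / (2 * ‖a‖) := by ring
        rw [e1]
        exact this
      have h6 : (b * (k + 1)) ^ s ≤ ‖x k‖ ^ (q + 2) := by
        calc (b * (k + 1)) ^ s ≤ (‖x k‖ ^ (q + 1)) ^ s :=
              Real.rpow_le_rpow (by positivity) h5 (by linarith)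
          _ = ‖x k‖ ^ (q + 2) := by
              rw [← Real.rpow_natCast, ← Real.rpow_mul (norm_nonneg _), ← Real.rpow_natCast]
              congr 1
              rw [hs]
              push_cast
              field_simp
              ring
      have h7 : 0 < (b * (k + 1)) ^ s := by positivity
      gcongr
    refine ⟨Real.exp (∑' k, e k), fun k => ?_⟩
    rw [norm_prod]
    calc ∏ i ∈ Finset.range k, ‖deriv (N P Q) (x i)‖ ≤ ∏ i ∈ Finset.range k, Real.exp (e i) :=
          Finset.prod_le_prod (fun i _ => norm_nonneg _) fun i _ => (hder i).trans (by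
            rw [add_comm]; exact Real.add_one_le_exp _)
      _ = Real.exp (∑ i ∈ Finset.range k, e i) := (Real.exp_sum _ _).symm
      _ ≤ Real.exp (∑' k, e k) := Real.exp_le_exp.2 (hesum.sum_le_tsum _ fun i _ => he0 i)

/-- `N` is a proper map from the complement of its poles to the plane. -/
lemma N_proper (hP : 0 < P.natDegree) (hQ : Q ≠ 0)
    (hs : ∀ z, P.eval z = 0 → (derivative P).eval z ≠ 0) :
    IsProperMap (fun w : {z : ℂ | (D P Q).eval z ≠ 0} => N P Q w) := by
  have hDz : ∀ z, (D P Q).eval z = Q.eval z * P.eval z + (derivative P).eval z := by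
    intro z; unfold D; simp
  rw [isProperMap_iff_isCompact_preimage]
  constructor
  · rw [continuous_iff_continuousAt]
    intro w
    exact (N_hasStrictDerivAt w.2).hasDerivAt.continuousAt.comp continuous_subtype_val.continuousAt
  intro K hK
  rw [Subtype.isCompact_iff]
  -- `|N z| ≥ |z| / 2` for large `z`
  have hinv : Tendsto (fun z : ℂ => z⁻¹) (cocompact ℂ) (𝓝 0) := by
    rw [← Metric.cobounded_eq_cocompact]; exact tendsto_inv₀_cobounded
  have h1 := tendsto_ratio hP hQ
  set q := Q.natDegree with hq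
  have h2 : Tendsto (fun z => z ^ q * P.eval z / (D P Q).eval z * (z⁻¹) ^ (q + 1)) (cocompact ℂ)
      (𝓝 0) := by
    have := h1.mul (hinv.pow (q + 1))
    rwa [zero_pow (by omega), mul_zero] at this
  have h3 : ∀ᶠ z in cocompact ℂ, ‖z‖ / 2 ≤ ‖N P Q z‖ := by
    have h4 := (Metric.tendsto_nhds.1 h2) (1 / 2) (by norm_num)
    filter_upwards [h4, (tendsto_norm_cocompact_atTop (E := ℂ)).eventually_gt_atTop 0] with z h5 h6
    have hz0 : z ≠ 0 := norm_pos_iff.1 h6
    rw [dist_zero_right] at h5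
    have h7 : z ^ q * P.eval z / (D P Q).eval z * (z⁻¹) ^ (q + 1) =
        P.eval z / (D P Q).eval z / z := by
      rw [inv_pow, pow_succ]
      field_simp
    rw [h7, norm_div, div_lt_iff₀ h6] at h5
    have h8 : ‖z‖ ≤ ‖N P Q z‖ + ‖P.eval z / (D P Q).eval z‖ := by
      have : z = N P Q z + P.eval z / (D P Q).eval z := by unfold N; ring
      calc ‖z‖ = ‖N P Q z + P.eval z / (D P Q).eval z‖ := by rw [← this]
        _ ≤ _ := norm_add_le _ _
    linarith
  obtain ⟨B, hB⟩ := hK.isBounded.exists_norm_le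
  rw [← Metric.cobounded_eq_cocompact, hasBasis_cobounded_norm.eventually_iff] at h3
  obtain ⟨ρ, -, hρ⟩ := h3
  have hlarge : ∀ z, N P Q z ∈ K → ‖z‖ ≤ max ρ (2 * B) := by
    intro z hz
    by_contra hcon
    push Not at hcon
    have h5 := hρ (show ρ ≤ ‖z‖ from (le_max_left _ _).trans hcon.le)
    have h6 := hB _ hz
    have h7 : 2 * B < ‖z‖ := (le_max_right _ _).trans_lt hcon
    linarith
  -- the preimage is the projection of a compact set
  have hcomp : IsCompact {p : ℂ × ℂ | (‖p.1‖ ≤ max ρ (2 * B) ∧ p.2 ∈ K) ∧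
      (p.1 - p.2) * (D P Q).eval p.1 = P.eval p.1} := by
    have e : {p : ℂ × ℂ | (‖p.1‖ ≤ max ρ (2 * B) ∧ p.2 ∈ K) ∧
        (p.1 - p.2) * (D P Q).eval p.1 = P.eval p.1} =
        ((closedBall (0 : ℂ) (max ρ (2 * B))) ×ˢ K) ∩
          {p : ℂ × ℂ | (p.1 - p.2) * (D P Q).eval p.1 = P.eval p.1} := by
      ext p
      simp [mem_closedBall, dist_zero_right]
    rw [e]
    refine ((isCompact_closedBall _ _).prod hK).inter_right (isClosed_eq ?_ ?_)
    · exact (continuous_fst.sub continuous_snd).mul ((D P Q).continuous.comp continuous_fst)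
    · exact P.continuous.comp continuous_fst
  have himg : (Subtype.val '' ((fun w : {z : ℂ | (D P Q).eval z ≠ 0} => N P Q w) ⁻¹' K)) =
      Prod.fst '' {p : ℂ × ℂ | (‖p.1‖ ≤ max ρ (2 * B) ∧ p.2 ∈ K) ∧
      (p.1 - p.2) * (D P Q).eval p.1 = P.eval p.1} := by
    ext w
    constructor
    · rintro ⟨⟨w', hw'⟩, hw, rfl⟩
      have hw1 : N P Q w' ∈ K := hw
      have hw2 : (D P Q).eval w' ≠ 0 := hw'
      refine ⟨(w', N P Q w'), ⟨⟨hlarge _ hw1, hw1⟩, ?_⟩, rfl⟩
      simp only
      unfold N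
      field_simp
      ring
    · rintro ⟨⟨w', z⟩, ⟨⟨h5, h6⟩, h7⟩, rfl⟩
      simp only at h5 h6 h7 ⊢
      have h8 : (D P Q).eval w' ≠ 0 := by
        intro h0
        rw [h0, mul_zero] at h7
        have h9 := hDz w'
        rw [h0, ← h7, mul_zero, zero_add] at h9
        exact hs w' h7.symm h9.symm
      have h10 : N P Q w' = z := by
        unfold N
        rw [← h7]
        field_simp
        ring
      exact ⟨⟨w', h8⟩, by rw [mem_preimage, h10]; exact h6, rfl⟩
  rw [himg]
  exact hcomp.image continuous_fst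

end

/-- **Main theorem.** For a nonconstant polynomial `P` with only simple zeros and `Q ≠ 0`,
`D = Q P + P'`, some zero of `Q D + D'` is a zero neither of `D` nor of `P`. -/
theorem newton_false (P Q : ℂ[X]) (hP : 0 < P.natDegree) (hQ : Q ≠ 0)
    (hs : ∀ z, P.eval z = 0 → (derivative P).eval z ≠ 0)
    (hZ : ∀ z, (D P Q).eval z ≠ 0 → (Q * D P Q + derivative (D P Q)).eval z = 0 →
      P.eval z = 0) : False := by
  have hDz : ∀ z, (D P Q).eval z = Q.eval z * P.eval z + (derivative P).eval z := by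
    intro z; unfold D; simp
  have hfix : ∀ w ∈ {z : ℂ | P.eval z = 0}, N P Q w = w := by
    intro w hw
    have hw' : P.eval w = 0 := hw
    unfold N
    rw [hw']
    simp
  have hZD : ∀ w, P.eval w = 0 → (D P Q).eval w ≠ 0 := by
    intro w hw
    rw [hDz, hw, mul_zero, zero_add]
    exact hs w hw
  have hU : IsOpen {z : ℂ | (D P Q).eval z ≠ 0} :=
    isOpen_ne_fun (D P Q).continuous continuous_const
  have hN : ∀ w ∈ {z : ℂ | (D P Q).eval z ≠ 0}, N P Q w ∉ {z : ℂ | P.eval z = 0} →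
      ∃ n', n' ≠ 0 ∧ HasStrictDerivAt (N P Q) n' w := by
    intro w hw hNw
    have hw' : (D P Q).eval w ≠ 0 := hw
    refine ⟨_, ?_, N_hasStrictDerivAt hw'⟩
    rw [N_deriv_eq hw']
    have hPw : P.eval w ≠ 0 := by
      intro h0
      apply hNw
      rw [hfix w h0]
      exact h0
    exact div_ne_zero (mul_ne_zero hPw fun h0 => hPw (hZ w hw' h0)) (pow_ne_zero _ hw')
  -- an attracting fixed point
  obtain ⟨ζ, hζ⟩ : ∃ ζ, P.eval ζ = 0 := by
    obtain ⟨ζ, hζ⟩ := IsAlgClosed.exists_root P (by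
      intro h
      rw [degree_eq_natDegree (by rintro rfl; simp at hP)] at h
      have : P.natDegree = 0 := by exact_mod_cast h
      omega)
    exact ⟨ζ, hζ⟩
  have hζd : HasDerivAt (N P Q) 0 ζ := by
    have h1 := (N_hasStrictDerivAt (hZD ζ hζ)).hasDerivAt
    rw [N_deriv_eq (hZD ζ hζ), hζ, zero_mul, zero_div] at h1
    exact h1
  obtain ⟨δ, hδ, hatt⟩ : ∃ δ > 0, ∀ w ∈ ball ζ δ, N P Q w ∈ ball ζ δ := by
    have h1 := hζd.isLittleO.bound (show (0 : ℝ) < 1 / 2 by norm_num)
    rw [Metric.eventually_nhds_iff] at h1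
    obtain ⟨δ, hδ, h2⟩ := h1
    refine ⟨δ, hδ, fun w hw => ?_⟩
    have h3 := h2 (mem_ball.1 hw)
    rw [hfix ζ hζ, smul_zero, sub_zero] at h3
    rw [mem_ball, dist_eq_norm] at hw ⊢
    linarith [norm_nonneg (w - ζ)]
  -- everything is bounded
  obtain ⟨M, hM⟩ : ∃ M, ∀ w, M < ‖w‖ → w ∉ {z : ℂ | P.eval z = 0} ∧ w ∉ ball ζ δ := by
    have hfin : {z : ℂ | P.eval z = 0}.Finite := by
      have hP0 : P ≠ 0 := by rintro rfl; simp at hP
      refine (P.roots.toFinset.finite_toSet).subset fun z hz => ?_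
      rw [Finset.mem_coe, Multiset.mem_toFinset, mem_roots hP0]
      exact hz
    obtain ⟨M, hM⟩ := (hfin.isBounded.union (isBounded_ball (x := ζ) (r := δ))).exists_norm_le
    refine ⟨M, fun w hw => ⟨fun h => ?_, fun h => ?_⟩⟩
    · exact absurd (hM w (Or.inl h)) (not_le.2 hw)
    · exact absurd (hM w (Or.inr h)) (not_le.2 hw)
  obtain ⟨x, hx, hlim, C, hC⟩ := exists_orbit hP hQ
  exact Petal.no_escape hU hN (N_proper hP hQ hs) hfix hδ hatt hM hx hlim hC

end Pool.Agent.R261.Newton
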