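import Mathlib

/-!
# Peak functions built from sums of functions with positive real part

`g α c w = 1 / (w ^ α + w / c)` behaves like `w ^ (-α)` for small `w` and like `c / w` for large
`w`, and has nonnegative real part in the right half-plane.
-/

set_option autoImplicit false

open Set Filter Topology Complex Metric ComplexConjugate

namespace Pool.Agent.R261.PeakSum

/-- `g α c w = 1 / (w ^ α + w / c)` -/
noncomputable def g (α c : ℝ) (w : ℂ) : ℂ := 1 / (w ^ (α : ℂ) + w / c)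

/-- `min (ρ ^ (-α)) (c / ρ)` -/
noncomputable def m (α c ρ : ℝ) : ℝ := min (ρ ^ (-α)) (c / ρ)

lemma m_nonneg {α c ρ : ℝ} (hc : 0 ≤ c) (hρ : 0 ≤ ρ) : 0 ≤ m α c ρ :=
  le_min (Real.rpow_nonneg hρ _) (div_nonneg hc hρ)

section

variable {α c : ℝ} (hα0 : 0 < α) (hα1 : α < 1) (hc : 0 < c)

include hα0 hα1

omit hα0 hα1 in
lemma arg_bounds {w : ℂ} (hw : 0 ≤ w.re) : |arg w| ≤ Real.pi / 2 :=
  abs_arg_le_pi_div_two_iff.2 hw

lemma cos_pos : 0 < Real.cos (α * (Real.pi / 2)) := by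
  apply Real.cos_pos_of_mem_Ioo
  have := Real.pi_pos
  constructor <;> nlinarith

lemma pow_re_ge {w : ℂ} (hw : 0 ≤ w.re) :
    Real.cos (α * (Real.pi / 2)) * ‖w‖ ^ α ≤ (w ^ (α : ℂ)).re := by
  rw [cpow_ofReal_re, mul_comm]
  have h1 := arg_bounds hw
  have hpi := Real.pi_pos
  have h2 : Real.cos (α * (Real.pi / 2)) ≤ Real.cos (arg w * α) := by
    rw [← Real.cos_abs (arg w * α), abs_mul, abs_of_pos hα0]
    apply Real.cos_le_cos_of_nonneg_of_le_pi (by positivity) (by nlinarith)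
    rw [mul_comm]
    gcongr
  exact mul_le_mul_of_nonneg_left h2 (Real.rpow_nonneg (norm_nonneg _) _)

lemma pow_re_nonneg {w : ℂ} (hw : 0 ≤ w.re) : 0 ≤ (w ^ (α : ℂ)).re :=
  (mul_nonneg (cos_pos hα0 hα1).le (Real.rpow_nonneg (norm_nonneg _) _)).trans
    (pow_re_ge hα0 hα1 hw)

lemma inner_nonneg {w : ℂ} (hw : 0 ≤ w.re) :
    0 ≤ (w ^ (α : ℂ)).re * w.re + (w ^ (α : ℂ)).im * w.im := by
  have e1 : w.re = ‖w‖ * Real.cos (arg w) := (norm_mul_cos_arg w).symm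
  have e2 : w.im = ‖w‖ * Real.sin (arg w) := (norm_mul_sin_arg w).symm
  rw [cpow_ofReal_re, cpow_ofReal_im]
  have h1 := arg_bounds hw
  have h2 : 0 ≤ Real.cos (arg w - arg w * α) := by
    have hpi := Real.pi_pos
    have h3 : |arg w - arg w * α| ≤ Real.pi / 2 := by
      have : arg w - arg w * α = arg w * (1 - α) := by ring
      rw [this, abs_mul, abs_of_pos (show 0 < 1 - α by linarith)]
      nlinarith [abs_nonneg (arg w)]
    rw [abs_le] at h3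
    exact Real.cos_nonneg_of_neg_pi_div_two_le_of_le (by linarith [h3.1]) h3.2
  rw [Real.cos_sub] at h2
  calc (0 : ℝ) ≤ ‖w‖ ^ α * ‖w‖ * (Real.cos (arg w) * Real.cos (arg w * α) +
        Real.sin (arg w) * Real.sin (arg w * α)) := by positivity
    _ = ‖w‖ ^ α * Real.cos (arg w * α) * (‖w‖ * Real.cos (arg w)) +
        ‖w‖ ^ α * Real.sin (arg w * α) * (‖w‖ * Real.sin (arg w)) := by ring
    _ = _ := by rw [← e1, ← e2]

include hc

/-- the square of the norm of the denominator -/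
lemma normSq_den {w : ℂ} (hw : 0 ≤ w.re) :
    (‖w‖ ^ α) ^ 2 + (‖w‖ / c) ^ 2 ≤ ‖w ^ (α : ℂ) + w / c‖ ^ 2 := by
  have h1 := inner_nonneg hα0 hα1 hw
  have h2 : ‖w ^ (α : ℂ)‖ = ‖w‖ ^ α := norm_cpow_real w α
  rw [← h2, ← normSq_eq_norm_sq, ← normSq_eq_norm_sq, div_pow, ← normSq_eq_norm_sq]
  rw [normSq_apply, normSq_apply, normSq_apply]
  have e1 : (w / (c : ℂ)).re = w.re / c := by rw [div_ofReal_re]
  have e2 : (w / (c : ℂ)).im = w.im / c := by rw [div_ofReal_im]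
  simp only [add_re, add_im, e1, e2]
  have h3 : 0 ≤ 2 / c * ((w ^ (α : ℂ)).re * w.re + (w ^ (α : ℂ)).im * w.im) := by positivity
  have h4 : ((w ^ (α : ℂ)).re + w.re / c) * ((w ^ (α : ℂ)).re + w.re / c) +
      ((w ^ (α : ℂ)).im + w.im / c) * ((w ^ (α : ℂ)).im + w.im / c) =
      (w ^ (α : ℂ)).re * (w ^ (α : ℂ)).re + (w ^ (α : ℂ)).im * (w ^ (α : ℂ)).im +
      (w.re * w.re + w.im * w.im) / c ^ 2 +
      2 / c * ((w ^ (α : ℂ)).re * w.re + (w ^ (α : ℂ)).im * w.im) := by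
    field_simp
    ring
  rw [h4]
  linarith

lemma den_ge_left {w : ℂ} (hw : 0 ≤ w.re) : ‖w‖ ^ α ≤ ‖w ^ (α : ℂ) + w / c‖ := by
  have h := normSq_den hα0 hα1 hc hw
  have h0 : 0 ≤ ‖w‖ ^ α := Real.rpow_nonneg (norm_nonneg _) _
  refine (sq_le_sq₀ h0 (norm_nonneg _)).1 ?_
  nlinarith [sq_nonneg (‖w‖ / c)]

lemma den_ge_right {w : ℂ} (hw : 0 ≤ w.re) : ‖w‖ / c ≤ ‖w ^ (α : ℂ) + w / c‖ := by
  have h := normSq_den hα0 hα1 hc hw
  have h0 : 0 ≤ ‖w‖ / c := by positivity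
  refine (sq_le_sq₀ h0 (norm_nonneg _)).1 ?_
  nlinarith [sq_nonneg (‖w‖ ^ α)]

lemma den_ne {w : ℂ} (hw : 0 ≤ w.re) (hw0 : w ≠ 0) : w ^ (α : ℂ) + w / c ≠ 0 := by
  have h := den_ge_left hα0 hα1 hc hw
  have h1 : 0 < ‖w‖ ^ α := Real.rpow_pos_of_pos (norm_pos_iff.2 hw0) _
  intro h0
  rw [h0, norm_zero] at h
  linarith

lemma g_norm_le {w : ℂ} (hw : 0 ≤ w.re) (hw0 : w ≠ 0) : ‖g α c w‖ ≤ m α c ‖w‖ := by
  have hn : 0 < ‖w‖ := norm_pos_iff.2 hw0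
  unfold g m
  rw [norm_div, norm_one]
  refine le_min ?_ ?_
  · rw [Real.rpow_neg hn.le, ← one_div]
    exact one_div_le_one_div_of_le (Real.rpow_pos_of_pos hn _) (den_ge_left hα0 hα1 hc hw)
  · have h1 := den_ge_right hα0 hα1 hc hw
    have h2 : c / ‖w‖ = 1 / (‖w‖ / c) := by field_simp
    rw [h2]
    exact one_div_le_one_div_of_le (by positivity) h1

lemma g_re_nonneg {w : ℂ} (hw : 0 ≤ w.re) : 0 ≤ (g α c w).re := by
  unfold g
  rw [one_div, inv_re]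
  refine div_nonneg ?_ (normSq_nonneg _)
  rw [add_re, div_ofReal_re]
  exact add_nonneg (pow_re_nonneg hα0 hα1 hw) (div_nonneg hw hc.le)

/-- lower bound for the real part for small `w` -/
lemma g_re_lower {w : ℂ} (hw : 0 ≤ w.re) (hw0 : w ≠ 0) (hwc : ‖w‖ / c ≤ ‖w‖ ^ α) :
    Real.cos (α * (Real.pi / 2)) / 4 * ‖w‖ ^ (-α) ≤ (g α c w).re := by
  have hn : 0 < ‖w‖ := norm_pos_iff.2 hw0
  have hp : 0 < ‖w‖ ^ α := Real.rpow_pos_of_pos hn _
  unfold g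
  rw [one_div, inv_re]
  have h1 : Real.cos (α * (Real.pi / 2)) * ‖w‖ ^ α ≤ (w ^ (α : ℂ) + w / c).re := by
    rw [add_re, div_ofReal_re]
    have := pow_re_ge hα0 hα1 hw
    have h2 : 0 ≤ w.re / c := div_nonneg hw hc.le
    linarith
  have h3 : ‖w ^ (α : ℂ) + w / c‖ ≤ 2 * ‖w‖ ^ α := by
    refine (norm_add_le _ _).trans ?_
    rw [norm_cpow_real, norm_div, norm_real, Real.norm_of_nonneg hc.le]
    linarith
  have h4 : normSq (w ^ (α : ℂ) + w / c) ≤ 4 * (‖w‖ ^ α) ^ 2 := by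
    rw [normSq_eq_norm_sq]
    nlinarith [norm_nonneg (w ^ (α : ℂ) + w / c)]
  have h5 : 0 < normSq (w ^ (α : ℂ) + w / c) := normSq_pos.2 (den_ne hα0 hα1 hc hw hw0)
  have hcos := cos_pos hα0 hα1
  rw [le_div_iff₀ h5, Real.rpow_neg hn.le]
  calc Real.cos (α * (Real.pi / 2)) / 4 * (‖w‖ ^ α)⁻¹ * normSq (w ^ (α : ℂ) + w / c)
      ≤ Real.cos (α * (Real.pi / 2)) / 4 * (‖w‖ ^ α)⁻¹ * (4 * (‖w‖ ^ α) ^ 2) := by gcongr
    _ = Real.cos (α * (Real.pi / 2)) * ‖w‖ ^ α := by field_simp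
    _ ≤ _ := h1

lemma m_le_two {ρ ρ' : ℝ} (hρ : 0 < ρ) (h : ρ ≤ 2 * ρ') : m α c ρ' ≤ 2 * m α c ρ := by
  have hρ' : 0 < ρ' := by linarith
  unfold m
  rw [mul_min_of_nonneg _ _ (by norm_num : (0 : ℝ) ≤ 2)]
  refine le_min ((min_le_left _ _).trans ?_) ((min_le_right _ _).trans ?_)
  · have h1 : ρ' ^ (-α) ≤ (ρ / 2) ^ (-α) :=
      Real.rpow_le_rpow_of_nonpos (by positivity) (by linarith) (by linarith)
    have h2 : (ρ / 2) ^ (-α) = 2 ^ α * ρ ^ (-α) := by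
      rw [Real.div_rpow hρ.le (by norm_num), div_eq_mul_inv, ← Real.rpow_neg (by norm_num)]
      ring_nf
    have h3 : (2 : ℝ) ^ α ≤ 2 := by
      calc (2 : ℝ) ^ α ≤ 2 ^ (1 : ℝ) :=
            Real.rpow_le_rpow_of_exponent_le (by norm_num) (by linarith)
        _ = 2 := Real.rpow_one 2
    have h4 : 0 ≤ ρ ^ (-α) := Real.rpow_nonneg hρ.le _
    rw [h2] at h1
    exact h1.trans (by gcongr)
  · rw [div_le_iff₀ hρ']
    have e : 2 * (c / ρ) * ρ' = c * (2 * ρ' / ρ) := by ring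
    rw [e]
    have : 1 ≤ 2 * ρ' / ρ := by rw [le_div_iff₀ hρ]; linarith
    nlinarith

omit hc in
/-- difference of powers -/
lemma pow_sub_le {w w' : ℂ} (hw : 0 ≤ w.re) (hw' : 0 ≤ w'.re) (hw0 : w ≠ 0)
    (h : ‖w - w'‖ ≤ ‖w‖ / 2) :
    ‖w ^ (α : ℂ) - w' ^ (α : ℂ)‖ ≤ 2 * ‖w‖ ^ (α - 1) * ‖w - w'‖ := by
  have hn : 0 < ‖w‖ := norm_pos_iff.2 hw0
  have hseg : ∀ u ∈ segment ℝ w' w, 0 ≤ u.re ∧ ‖w‖ / 2 ≤ ‖u‖ := by
    intro u hu
    have hu1 : 0 ≤ u.re := by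
      have hconv : Convex ℝ {z : ℂ | 0 ≤ z.re} := convex_halfSpace_re_ge 0
      exact hconv.segment_subset hw' hw hu
    have hu2 : ‖w - u‖ ≤ ‖w‖ / 2 := by
      have hconv := convex_closedBall w (‖w‖ / 2)
      have h1 : w' ∈ closedBall w (‖w‖ / 2) := by
        rw [mem_closedBall, dist_comm, dist_eq_norm]; exact h
      have h2 : w ∈ closedBall w (‖w‖ / 2) := mem_closedBall_self (by positivity)
      have h3 := hconv.segment_subset h1 h2 hu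
      rwa [mem_closedBall, dist_comm, dist_eq_norm] at h3
    refine ⟨hu1, ?_⟩
    have := norm_sub_norm_le w (w - u)
    have e : w - (w - u) = u := by ring
    rw [e] at this
    linarith
  have hslit : ∀ u ∈ segment ℝ w' w, u ∈ slitPlane := by
    intro u hu
    obtain ⟨h1, h2⟩ := hseg u hu
    rcases h1.lt_or_eq with h3 | h3
    · exact Or.inl h3
    · right
      intro h4
      have : u = 0 := Complex.ext h3.symm h4
      rw [this, norm_zero] at h2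
      linarith
  have h1 := (convex_segment (𝕜 := ℝ) w' w).norm_image_sub_le_of_norm_hasDerivWithin_le
    (𝕜 := ℂ) (f := fun u : ℂ => u ^ (α : ℂ)) (f' := fun u => (α : ℂ) * u ^ ((α : ℂ) - 1))
    (C := 2 * ‖w‖ ^ (α - 1))
    (fun u hu => (hasStrictDerivAt_cpow_const (hslit u hu)).hasDerivAt.hasDerivWithinAt)
    (fun u hu => by
      rw [norm_mul, norm_real, Real.norm_of_nonneg hα0.le]
      have e : ((α : ℂ) - 1) = ((α - 1 : ℝ) : ℂ) := by push_cast; ring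
      rw [e, norm_cpow_real]
      have h2 := (hseg u hu).2
      have h3 : ‖u‖ ^ (α - 1) ≤ (‖w‖ / 2) ^ (α - 1) :=
        Real.rpow_le_rpow_of_nonpos (by positivity) h2 (by linarith)
      have h4 : (‖w‖ / 2) ^ (α - 1) = 2 ^ (1 - α) * ‖w‖ ^ (α - 1) := by
        rw [Real.div_rpow hn.le (by norm_num), div_eq_mul_inv, ← Real.rpow_neg (by norm_num)]
        ring_nf
      have h5 : (2 : ℝ) ^ (1 - α) ≤ 2 := by
        calc (2 : ℝ) ^ (1 - α) ≤ 2 ^ (1 : ℝ) :=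
              Real.rpow_le_rpow_of_exponent_le (by norm_num) (by linarith)
          _ = 2 := Real.rpow_one 2
      have h6 : 0 ≤ ‖w‖ ^ (α - 1) := Real.rpow_nonneg hn.le _
      have h7 : 0 ≤ ‖u‖ ^ (α - 1) := Real.rpow_nonneg (norm_nonneg _) _
      calc α * ‖u‖ ^ (α - 1) ≤ 1 * ‖u‖ ^ (α - 1) := by gcongr
        _ ≤ 2 ^ (1 - α) * ‖w‖ ^ (α - 1) := by rw [one_mul, ← h4]; exact h3
        _ ≤ 2 * ‖w‖ ^ (α - 1) := by gcongr)
    (left_mem_segment ℝ w' w) (right_mem_segment ℝ w' w)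
  exact h1

/-- the Lipschitz estimate for `g` -/
lemma g_sub_le {w w' : ℂ} (hw : 0 ≤ w.re) (hw' : 0 ≤ w'.re) (hw0 : w ≠ 0)
    (h : ‖w - w'‖ ≤ ‖w‖ / 2) :
    ‖g α c w - g α c w'‖ ≤ 8 * m α c ‖w‖ * (‖w - w'‖ / ‖w‖) := by
  have hn : 0 < ‖w‖ := norm_pos_iff.2 hw0
  have hn' : ‖w‖ / 2 ≤ ‖w'‖ := by
    have := norm_sub_norm_le w (w - w')
    have e : w - (w - w') = w' := by ring
    rw [e] at this
    linarith
  have hw0' : w' ≠ 0 := by
    rintro rfl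
    rw [norm_zero] at hn'
    linarith
  have hd := den_ne hα0 hα1 hc hw hw0
  have hd' := den_ne hα0 hα1 hc hw' hw0'
  have e1 : g α c w - g α c w' = g α c w * g α c w' *
      ((w' ^ (α : ℂ) - w ^ (α : ℂ)) + (w' - w) / c) := by
    unfold g
    field_simp
    ring
  have hp : 0 < ‖w‖ ^ α := Real.rpow_pos_of_pos hn _
  have h1 : ‖(w' ^ (α : ℂ) - w ^ (α : ℂ)) + (w' - w) / c‖ ≤
      2 * (‖w‖ ^ α + ‖w‖ / c) * (‖w - w'‖ / ‖w‖) := by
    refine (norm_add_le _ _).trans ?_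
    rw [norm_sub_rev, norm_div, norm_real, Real.norm_of_nonneg hc.le, norm_sub_rev w' w]
    have h2 := pow_sub_le hα0 hα1 hw hw' hw0 h
    have h3 : ‖w‖ ^ (α - 1) = ‖w‖ ^ α / ‖w‖ := by
      rw [Real.rpow_sub hn, Real.rpow_one]
    rw [h3] at h2
    calc ‖w ^ (α : ℂ) - w' ^ (α : ℂ)‖ + ‖w - w'‖ / c
        ≤ 2 * (‖w‖ ^ α / ‖w‖) * ‖w - w'‖ + 2 * (‖w - w'‖ / c) := by
          have : 0 ≤ ‖w - w'‖ / c := by positivity
          linarith
      _ = 2 * (‖w‖ ^ α + ‖w‖ / c) * (‖w - w'‖ / ‖w‖) := by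
          field_simp
  have hm0 : 0 < m α c ‖w‖ := lt_min (Real.rpow_pos_of_pos hn _) (by positivity)
  have h4 : (‖w‖ ^ α + ‖w‖ / c) * m α c ‖w‖ ≤ 2 := by
    have h5 : ‖w‖ ^ α * m α c ‖w‖ ≤ 1 := by
      calc ‖w‖ ^ α * m α c ‖w‖ ≤ ‖w‖ ^ α * ‖w‖ ^ (-α) := by
            gcongr; exact min_le_left _ _
        _ = 1 := by rw [← Real.rpow_add hn]; simp
    have h6 : ‖w‖ / c * m α c ‖w‖ ≤ 1 := by
      calc ‖w‖ / c * m α c ‖w‖ ≤ ‖w‖ / c * (c / ‖w‖) := by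
            gcongr; exact min_le_right _ _
        _ = 1 := by field_simp
    linarith
  have h7 : ‖g α c w'‖ ≤ 2 * m α c ‖w‖ := by
    have h8 := g_norm_le hα0 hα1 hc hw' hw0'
    have hn'0 : 0 < ‖w'‖ := norm_pos_iff.2 hw0'
    exact h8.trans (m_le_two hα0 hα1 hc hn (by linarith))
  rw [e1, norm_mul, norm_mul]
  have h9 := g_norm_le hα0 hα1 hc hw hw0
  calc ‖g α c w‖ * ‖g α c w'‖ * ‖(w' ^ (α : ℂ) - w ^ (α : ℂ)) + (w' - w) / c‖
      ≤ m α c ‖w‖ * (2 * m α c ‖w‖) * (2 * (‖w‖ ^ α + ‖w‖ / c) * (‖w - w'‖ / ‖w‖)) := by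
        gcongr
    _ = 4 * m α c ‖w‖ * ((‖w‖ ^ α + ‖w‖ / c) * m α c ‖w‖) * (‖w - w'‖ / ‖w‖) := by ring
    _ ≤ 4 * m α c ‖w‖ * 2 * (‖w - w'‖ / ‖w‖) := by gcongr
    _ = _ := by ring

end

end Pool.Agent.R261.PeakSum
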