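import Mathlib
import Pool.Agent.R261.PeakSum

/-!
# Peak sets for Lipschitz classes from configurations of points

A configuration is a sequence of points `ζ j ≠ 1` of the circle with numbers `t j` such that
`(t j) ^ α = 8 |1 - ζ j|`, and such that the sums of the masses `c j = (t j) ^ (1 - α)` and the sums
`|1 - ζ k| ∑ c j / |ζ j - ζ k|` are small. The set `{1} ∪ {ζ j}` is then a peak set for `A_α`.
-/

set_option autoImplicit false

open Set Filter Topology Complex Metric ComplexConjugate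

namespace Pool.Agent.R261.PeakConfig

open Pool.Agent.R261.PeakSum

structure Config (α : ℝ) (J : Type) where
  ζ : J → ℂ
  t : J → ℝ
  norm_ζ : ∀ j, ‖ζ j‖ = 1
  ne_one : ∀ j, ζ j ≠ 1
  t_pos : ∀ j, 0 < t j
  t_def : ∀ j, (t j) ^ α = 8 * ‖1 - ζ j‖
  closed : IsClosed (insert 1 (range ζ))
  sum_c : Summable (fun j => (t j) ^ (1 - α))
  K1 : ∑' j, (t j) ^ (1 - α) ≤ 1 / 16
  sum_K2 : ∀ k, Summable (fun j => (t j) ^ (1 - α) / ‖ζ j - ζ k‖)
  K2 : ∀ k, ‖1 - ζ k‖ * ∑' j, (t j) ^ (1 - α) / ‖ζ j - ζ k‖ ≤ 1 / 64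
  inj : Function.Injective ζ

namespace Config

variable {α : ℝ} {J : Type} (X : Config α J)

/-- the masses -/
noncomputable def c (j : J) : ℝ := (X.t j) ^ (1 - α)

/-- the set -/
def E : Set ℂ := insert 1 (range X.ζ)

/-- `1 - z / ζ j` -/
noncomputable def w (j : J) (z : ℂ) : ℂ := 1 - z * conj (X.ζ j)

/-- the majorant of the `j`-th term -/
noncomputable def Mf (j : J) (z : ℂ) : ℝ := m α (X.c j) ‖z - X.ζ j‖

/-- the sum -/
noncomputable def G (z : ℂ) : ℂ := 1 / (1 - z) + ∑' j, g α (X.c j) (X.w j z)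

/-- the majorant of the sum -/
noncomputable def Lam (z : ℂ) : ℝ := 1 / ‖1 - z‖ + ∑' j, X.Mf j z

lemma c_pos (j : J) : 0 < X.c j := Real.rpow_pos_of_pos (X.t_pos j) _

lemma zz (j : J) : X.ζ j * conj (X.ζ j) = 1 := by
  rw [mul_conj, normSq_eq_norm_sq, X.norm_ζ j]
  simp

lemma w_norm (j : J) (z : ℂ) : ‖X.w j z‖ = ‖z - X.ζ j‖ := by
  have h : X.w j z = -(z - X.ζ j) * conj (X.ζ j) := by
    unfold w
    linear_combination -(X.zz j)
  rw [h, norm_mul, norm_neg, Complex.norm_conj, X.norm_ζ, mul_one]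

lemma w_sub (j : J) (z z' : ℂ) : ‖X.w j z - X.w j z'‖ = ‖z - z'‖ := by
  have h : X.w j z - X.w j z' = -(z - z') * conj (X.ζ j) := by
    unfold w
    ring
  rw [h, norm_mul, norm_neg, Complex.norm_conj, X.norm_ζ, mul_one]

lemma w_re (j : J) {z : ℂ} (hz : ‖z‖ ≤ 1) : 0 ≤ (X.w j z).re := by
  unfold w
  rw [sub_re, one_re]
  have h1 : (z * conj (X.ζ j)).re ≤ ‖z * conj (X.ζ j)‖ := re_le_norm _
  rw [norm_mul, Complex.norm_conj, X.norm_ζ, mul_one] at h1
  linarith

lemma E_sub : X.E ⊆ sphere 0 1 := by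
  rintro z (rfl | ⟨j, rfl⟩)
  · simp
  · simpa using X.norm_ζ j

lemma E_closed : IsClosed X.E := X.closed

lemma E_compact : IsCompact X.E :=
  (isCompact_sphere (0 : ℂ) 1).of_isClosed_subset X.E_closed X.E_sub

lemma E_nonempty : X.E.Nonempty := ⟨1, mem_insert _ _⟩

lemma dist_le_one (z : ℂ) : infDist z X.E ≤ ‖1 - z‖ := by
  have := infDist_le_dist_of_mem (x := z) (mem_insert (1 : ℂ) (range X.ζ))
  rw [dist_comm, dist_eq_norm] at this
  exact this

lemma dist_le (j : J) (z : ℂ) : infDist z X.E ≤ ‖z - X.ζ j‖ := by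
  have := infDist_le_dist_of_mem (x := z) (show X.ζ j ∈ X.E from Or.inr ⟨j, rfl⟩)
  rwa [dist_eq_norm] at this

lemma dist_le_two {z : ℂ} (hz : ‖z‖ ≤ 1) : infDist z X.E ≤ 2 := by
  refine (X.dist_le_one z).trans ((norm_sub_le _ _).trans ?_)
  rw [norm_one]
  linarith

section estimates

variable (hα0 : 0 < α) (hα1 : α < 1)

include hα0 hα1

omit hα0 hα1 in
lemma Mf_nonneg (j : J) (z : ℂ) : 0 ≤ X.Mf j z := m_nonneg (X.c_pos j).le (norm_nonneg _)

omit hα0 hα1 in
lemma Mf_le (j : J) (z : ℂ) : X.Mf j z ≤ X.c j / ‖z - X.ζ j‖ := min_le_right _ _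

omit hα0 hα1 in
lemma Mf_summable {z : ℂ} (hz : 0 < infDist z X.E) : Summable fun j => X.Mf j z := by
  refine Summable.of_nonneg_of_le (fun j => X.Mf_nonneg j z) (fun j => ?_)
    (X.sum_c.div_const (infDist z X.E))
  refine (X.Mf_le j z).trans ?_
  have := X.c_pos j
  exact div_le_div_of_nonneg_left this.le hz (X.dist_le j z)

lemma g_le {z : ℂ} (hz1 : ‖z‖ ≤ 1) (hz : 0 < infDist z X.E) (j : J) :
    ‖g α (X.c j) (X.w j z)‖ ≤ X.Mf j z := by
  have h0 : X.w j z ≠ 0 := by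
    rw [← norm_pos_iff, X.w_norm]
    exact hz.trans_le (X.dist_le j z)
  have := g_norm_le hα0 hα1 (X.c_pos j) (X.w_re j hz1) h0
  rwa [X.w_norm] at this

lemma g_summable {z : ℂ} (hz1 : ‖z‖ ≤ 1) (hz : 0 < infDist z X.E) :
    Summable fun j => g α (X.c j) (X.w j z) :=
  Summable.of_norm_bounded (X.Mf_summable hz) (X.g_le hα0 hα1 hz1 hz)

lemma sum_le {z : ℂ} (hz1 : ‖z‖ ≤ 1) (hz : 0 < infDist z X.E) :
    ‖∑' j, g α (X.c j) (X.w j z)‖ ≤ ∑' j, X.Mf j z :=
  tsum_of_norm_bounded (X.Mf_summable hz).hasSum (X.g_le hα0 hα1 hz1 hz)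

omit hα0 hα1 in
/-- real part of `1 / (1 - z)` -/
lemma re_one_div {z : ℂ} (hz1 : ‖z‖ ≤ 1) (hz : z ≠ 1) : 1 / 2 ≤ (1 / (1 - z)).re := by
  have h0 : 1 - z ≠ 0 := sub_ne_zero.2 hz.symm
  rw [show (1 / (1 - z) : ℂ) = (1 - z)⁻¹ from one_div _, inv_re]
  have h1 : 0 < normSq (1 - z) := normSq_pos.2 h0
  rw [div_le_div_iff₀ (by norm_num) h1]
  have h2 : normSq z ≤ 1 := by
    rw [normSq_eq_norm_sq]
    nlinarith [norm_nonneg z]
  rw [normSq_apply] at h2 ⊢
  simp only [sub_re, one_re, sub_im, one_im]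
  nlinarith

lemma G_re_ge {z : ℂ} (hz1 : ‖z‖ ≤ 1) (hz : 0 < infDist z X.E) (k : J) :
    1 / 2 + (g α (X.c k) (X.w k z)).re ≤ (X.G z).re := by
  have h1 : z ≠ 1 := by
    rintro rfl
    have := X.dist_le_one 1
    simp at this
    linarith
  unfold G
  rw [add_re, re_tsum (X.g_summable hα0 hα1 hz1 hz)]
  have h2 : (g α (X.c k) (X.w k z)).re ≤ ∑' j, (g α (X.c j) (X.w j z)).re := by
    refine ((hasSum_re (X.g_summable hα0 hα1 hz1 hz).hasSum).summable).le_tsum k fun j _ => ?_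
    exact g_re_nonneg hα0 hα1 (X.c_pos j) (X.w_re j hz1)
  have := re_one_div hz1 h1
  linarith

lemma G_re_half {z : ℂ} (hz1 : ‖z‖ ≤ 1) (hz : 0 < infDist z X.E) :
    1 / 2 ≤ (X.G z).re := by
  have h1 : z ≠ 1 := by
    rintro rfl
    have := X.dist_le_one 1
    simp at this
    linarith
  unfold G
  rw [add_re, re_tsum (X.g_summable hα0 hα1 hz1 hz)]
  have h2 : 0 ≤ ∑' j, (g α (X.c j) (X.w j z)).re :=
    tsum_nonneg fun j => g_re_nonneg hα0 hα1 (X.c_pos j) (X.w_re j hz1)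
  have := re_one_div hz1 h1
  linarith

/-- the sum over the points other than the nearest one, and the lower bound for `G` -/
lemma main_case (z : ℂ) (hz1 : ‖z‖ ≤ 1) (hz : 0 < infDist z X.E) :
    Real.cos (α * (Real.pi / 2)) / 76 * X.Lam z ≤ ‖X.G z‖ ∧
    Real.cos (α * (Real.pi / 2)) / 76 * (infDist z X.E) ^ (-α) ≤ X.Lam z := by
  classical
  set κ := Real.cos (α * (Real.pi / 2)) with hκ
  have hκ0 : 0 < κ := cos_pos hα0 hα1
  have hκ1 : κ ≤ 1 := Real.cos_le_one _
  set δ := infDist z X.E with hδ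
  have hδ2 : δ ≤ 2 := X.dist_le_two hz1
  have hn1 : 0 < ‖1 - z‖ := hz.trans_le (X.dist_le_one z)
  have hMs := X.Mf_summable hz
  have hM0 : ∀ j, 0 ≤ X.Mf j z := fun j => X.Mf_nonneg j z
  have hMt : 0 ≤ ∑' j, X.Mf j z := tsum_nonneg hM0
  have hδα : 0 < δ ^ (-α) := Real.rpow_pos_of_pos hz _
  have hsum := X.sum_le hα0 hα1 hz1 hz
  have hGlow : 1 / ‖1 - z‖ - ∑' j, X.Mf j z ≤ ‖X.G z‖ := by
    unfold G
    have h1 := norm_sub_le_norm_add (1 / (1 - z)) (∑' j, g α (X.c j) (X.w j z))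
    rw [norm_div, norm_one] at h1
    linarith
  obtain ⟨e, heE, he⟩ := X.E_compact.exists_infDist_eq_dist X.E_nonempty z
  rw [← hδ, dist_eq_norm] at he
  rcases heE with rfl | ⟨k, rfl⟩
  · -- the nearest point is `1`
    have he' : δ = ‖1 - z‖ := by rw [he, norm_sub_rev]
    have h1 : ∑' j, X.Mf j z ≤ 1 / 16 / ‖1 - z‖ := by
      calc ∑' j, X.Mf j z ≤ ∑' j, X.c j / ‖1 - z‖ := by
            refine hMs.tsum_le_tsum (fun j => ?_) (X.sum_c.div_const _)
            refine (X.Mf_le j z).trans ?_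
            exact div_le_div_of_nonneg_left (X.c_pos j).le hn1 (by rw [← he']; exact X.dist_le j z)
        _ = (∑' j, X.c j) / ‖1 - z‖ := tsum_div_const
        _ ≤ 1 / 16 / ‖1 - z‖ := by
            gcongr
            exact X.K1
    have hpos : 0 < 1 / ‖1 - z‖ := by positivity
    have e1 : 1 / 16 / ‖1 - z‖ = 1 / 16 * (1 / ‖1 - z‖) := by ring
    rw [e1] at h1
    have hLam : X.Lam z ≤ 17 / 16 * (1 / ‖1 - z‖) := by
      unfold Lam
      linarith
    have hLam' : 1 / ‖1 - z‖ ≤ X.Lam z := by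
      unfold Lam
      linarith
    constructor
    · have h2 : κ / 76 * X.Lam z ≤ 1 / 76 * (17 / 16 * (1 / ‖1 - z‖)) := by
        have : 0 ≤ X.Lam z := hpos.le.trans hLam'
        gcongr
      linarith
    · have h3 : δ ^ (-α) ≤ 2 * (1 / ‖1 - z‖) := by
        rw [← he']
        have h4 : δ ^ (-α) = δ ^ (1 - α) * (1 / δ) := by
          rw [one_div, ← Real.rpow_neg_one, ← Real.rpow_add hz]
          congr 1
          ring
        rw [h4]
        have h5 : δ ^ (1 - α) ≤ 2 := by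
          calc δ ^ (1 - α) ≤ 2 ^ (1 - α) := Real.rpow_le_rpow hz.le hδ2 (by linarith)
            _ ≤ 2 ^ (1 : ℝ) := Real.rpow_le_rpow_of_exponent_le (by norm_num) (by linarith)
            _ = 2 := Real.rpow_one 2
        gcongr
      have h6 : κ / 76 * δ ^ (-α) ≤ 1 / 76 * δ ^ (-α) := by gcongr
      linarith
  · -- the nearest point is `ζ k`
    set d := ‖1 - X.ζ k‖ with hd
    have hd0 : 0 < d := norm_pos_iff.2 (sub_ne_zero.2 (X.ne_one k).symm)
    have ht : 0 < X.t k := X.t_pos k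
    have htd : (X.t k) ^ α = 8 * d := X.t_def k
    have hck : X.c k = (X.t k) ^ (1 - α) := rfl
    have hck0 := X.c_pos k
    have hδz : ‖1 - z‖ ≤ d + δ := by
      have : 1 - z = (1 - X.ζ k) - (z - X.ζ k) := by ring
      rw [this, he]
      exact norm_sub_le _ _
    -- the rest
    set F : J → ℝ := fun j => if j = k then 0 else X.Mf j z with hF
    have hsplit : ∑' j, X.Mf j z = X.Mf k z + ∑' j, F j := hMs.tsum_eq_add_tsum_ite k
    have hFj : ∀ j, ‖1 - z‖ * F j ≤ X.c j + 2 * (d * (X.c j / ‖X.ζ j - X.ζ k‖)) := by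
      intro j
      have hcj := X.c_pos j
      rw [hF]
      simp only
      split_ifs with hjk
      · rw [mul_zero]; positivity
      · have h0 : 0 < ‖z - X.ζ j‖ := hz.trans_le (X.dist_le j z)
        have h1 : ‖X.ζ j - X.ζ k‖ ≤ 2 * ‖z - X.ζ j‖ := by
          have e1 : X.ζ j - X.ζ k = (z - X.ζ k) - (z - X.ζ j) := by ring
          have h2 := norm_sub_le (z - X.ζ k) (z - X.ζ j)
          rw [← e1, ← he] at h2
          have := X.dist_le j z
          linarith
        have h2 : ‖1 - z‖ ≤ d + ‖z - X.ζ j‖ := hδz.trans (by gcongr; exact X.dist_le j z)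
        have h3 : 0 < ‖X.ζ j - X.ζ k‖ :=
          norm_pos_iff.2 (sub_ne_zero.2 fun h => hjk (X.inj h))
        calc ‖1 - z‖ * X.Mf j z ≤ (d + ‖z - X.ζ j‖) * (X.c j / ‖z - X.ζ j‖) := by
              gcongr
              · exact hM0 j
              · exact X.Mf_le j z
          _ = X.c j + d * (X.c j / ‖z - X.ζ j‖) := by field_simp; ring
          _ ≤ X.c j + d * (X.c j / (‖X.ζ j - X.ζ k‖ / 2)) := by
              gcongr
              linarith
          _ = _ := by field_simp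
    have hFs : Summable F := by
      refine Summable.of_nonneg_of_le (fun j => ?_) (fun j => ?_) hMs
      · rw [hF]; simp only; split_ifs
        · exact le_rfl
        · exact hM0 j
      · rw [hF]; simp only; split_ifs
        · exact hM0 j
        · exact le_rfl
    have hrest : ‖1 - z‖ * ∑' j, F j ≤ 3 / 32 := by
      rw [← tsum_mul_left]
      have hs1 : Summable fun j => X.c j + 2 * (d * (X.c j / ‖X.ζ j - X.ζ k‖)) :=
        X.sum_c.add (((X.sum_K2 k).mul_left d).mul_left 2)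
      refine ((hFs.mul_left _).tsum_le_tsum hFj hs1).trans ?_
      have hs2 : Summable fun j => X.c j := X.sum_c
      have hs3 : Summable fun j => 2 * (d * (X.c j / ‖X.ζ j - X.ζ k‖)) :=
        ((X.sum_K2 k).mul_left d).mul_left 2
      rw [hs2.tsum_add hs3, tsum_mul_left, tsum_mul_left]
      have h1 : ∑' j, X.c j ≤ 1 / 16 := X.K1
      have h2 : d * ∑' j, X.c j / ‖X.ζ j - X.ζ k‖ ≤ 1 / 64 := X.K2 k
      linarith
    have hF0 : 0 ≤ ∑' j, F j := tsum_nonneg fun j => by
      rw [hF]; simp only; split_ifs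
      · exact le_rfl
      · exact hM0 j
    have hrest' : ∑' j, F j ≤ 3 / 32 * (1 / ‖1 - z‖) := by
      rw [mul_one_div, le_div_iff₀ hn1]
      linarith
    have hLam' : 1 / ‖1 - z‖ ≤ X.Lam z := by
      unfold Lam
      linarith
    have hpos : 0 < 1 / ‖1 - z‖ := by positivity
    rcases lt_or_ge (X.t k) δ with hcase | hcase
    · -- away from `ζ k`
      have h1 : ‖1 - z‖ * X.Mf k z ≤ 3 / 16 := by
        have h2 : X.Mf k z ≤ X.c k / δ := by rw [he]; exact X.Mf_le k z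
        have h3 : d * (X.c k / X.t k) = 1 / 8 := by
          have h4 : X.c k / X.t k = 1 / (X.t k) ^ α := by
            rw [hck, Real.rpow_sub ht, Real.rpow_one]
            field_simp
          rw [h4, htd]
          field_simp
        have h5 : X.c k ≤ 1 / 16 :=
          (X.sum_c.le_tsum k fun j _ => (X.c_pos j).le).trans X.K1
        calc ‖1 - z‖ * X.Mf k z ≤ (d + δ) * (X.c k / δ) := by
              gcongr
              exact hM0 k
          _ = d * (X.c k / δ) + X.c k := by field_simp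
          _ ≤ d * (X.c k / X.t k) + X.c k := by gcongr
          _ ≤ 3 / 16 := by rw [h3]; linarith
      have h1' : X.Mf k z ≤ 3 / 16 * (1 / ‖1 - z‖) := by
        rw [mul_one_div, le_div_iff₀ hn1]
        linarith
      have hLam : X.Lam z ≤ 41 / 32 * (1 / ‖1 - z‖) := by
        unfold Lam
        rw [hsplit]
        linarith
      constructor
      · have h2 : κ / 76 * X.Lam z ≤ 1 / 76 * (41 / 32 * (1 / ‖1 - z‖)) := by
          have : 0 ≤ X.Lam z := hpos.le.trans hLam'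
          gcongr
        rw [hsplit] at hGlow
        linarith
      · have h3 : ‖1 - z‖ ≤ 3 * δ ^ α := by
          have h4 : 8 * d ≤ δ ^ α := by
            rw [← htd]
            exact Real.rpow_le_rpow ht.le hcase.le hα0.le
          have h5 : δ ≤ 2 * δ ^ α := by
            have h6 : δ = δ ^ (1 - α) * δ ^ α := by
              rw [← Real.rpow_add hz]
              simp
            have h7 : δ ^ (1 - α) ≤ 2 := by
              calc δ ^ (1 - α) ≤ 2 ^ (1 - α) := Real.rpow_le_rpow hz.le hδ2 (by linarith)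
                _ ≤ 2 ^ (1 : ℝ) := Real.rpow_le_rpow_of_exponent_le (by norm_num) (by linarith)
                _ = 2 := Real.rpow_one 2
            calc δ = δ ^ (1 - α) * δ ^ α := h6
              _ ≤ 2 * δ ^ α := by
                  have : 0 ≤ δ ^ α := Real.rpow_nonneg hz.le _
                  gcongr
          linarith
        have h8 : 0 < δ ^ α := Real.rpow_pos_of_pos hz _
        have h9 : δ ^ (-α) ≤ 3 * (1 / ‖1 - z‖) := by
          rw [Real.rpow_neg hz.le, mul_one_div, le_div_iff₀ hn1, inv_mul_le_iff₀ h8]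
          linarith
        have h10 : κ / 76 * δ ^ (-α) ≤ 1 / 76 * δ ^ (-α) := by gcongr
        linarith
    · -- near `ζ k`
      have hw0 : X.w k z ≠ 0 := by
        rw [← norm_pos_iff, X.w_norm, ← he]
        exact hz
      have hwn : ‖X.w k z‖ = δ := by rw [X.w_norm, he]
      have hδc : δ / X.c k ≤ δ ^ α := by
        rw [div_le_iff₀ hck0]
        have h1 : δ ^ (1 - α) ≤ X.c k := Real.rpow_le_rpow hz.le hcase (by linarith)
        calc δ = δ ^ α * δ ^ (1 - α) := by rw [← Real.rpow_add hz]; simp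
          _ ≤ δ ^ α * X.c k := by
              have : 0 ≤ δ ^ α := Real.rpow_nonneg hz.le _
              gcongr
      have h1 := g_re_lower hα0 hα1 hck0 (X.w_re k hz1) hw0 (by rw [hwn]; exact hδc)
      rw [hwn, ← hκ] at h1
      have h2 := X.G_re_ge hα0 hα1 hz1 hz k
      have h3 : κ / 4 * δ ^ (-α) ≤ ‖X.G z‖ := by
        have := re_le_norm (X.G z)
        linarith
      have hd2 : 1 / ‖1 - z‖ ≤ 16 * δ ^ (-α) := by
        have h4 : d ≤ 2 * ‖1 - z‖ := by
          have e1 : 1 - X.ζ k = (1 - z) + (z - X.ζ k) := by ring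
          rw [hd, e1]
          refine (norm_add_le _ _).trans ?_
          rw [← he]
          have := X.dist_le_one z
          rw [← hδ] at this
          linarith
        have h5 : δ ^ α ≤ 8 * d := by
          rw [← htd]
          exact Real.rpow_le_rpow hz.le hcase hα0.le
        have h8 : 0 < δ ^ α := Real.rpow_pos_of_pos hz _
        rw [Real.rpow_neg hz.le, ← div_eq_mul_inv, div_le_div_iff₀ hn1 h8]
        linarith
      have hMk : X.Mf k z = δ ^ (-α) := by
        unfold Mf m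
        rw [← he]
        apply min_eq_left
        rw [le_div_iff₀ hz]
        calc δ ^ (-α) * δ = δ ^ (1 - α) := by
              rw [← Real.rpow_add_one hz.ne']
              congr 1
              ring
          _ ≤ X.c k := Real.rpow_le_rpow hz.le hcase (by linarith)
      constructor
      · have h6 : X.Lam z ≤ 19 * δ ^ (-α) := by
          unfold Lam
          rw [hsplit, hMk]
          linarith
        calc κ / 76 * X.Lam z ≤ κ / 76 * (19 * δ ^ (-α)) := by gcongr
          _ = κ / 4 * δ ^ (-α) := by ring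
          _ ≤ _ := h3
      · have h7 : δ ^ (-α) ≤ X.Lam z := by
          unfold Lam
          rw [hsplit, hMk]
          linarith
        have h10 : κ / 76 * δ ^ (-α) ≤ 1 / 76 * δ ^ (-α) := by gcongr
        linarith

omit hα0 hα1 in
lemma infDist_pos' {z : ℂ} (hz : z ∉ X.E) : 0 < infDist z X.E :=
  (X.E_closed.notMem_iff_infDist_pos X.E_nonempty).1 hz

open Classical in
/-- `1 / G`, with value `0` on `E` -/
noncomputable def phi (z : ℂ) : ℂ := if z ∈ X.E then 0 else 1 / X.G z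

lemma phi_bound {z : ℂ} (hz1 : ‖z‖ ≤ 1) : ‖X.phi z‖ ≤
    (Real.cos (α * (Real.pi / 2)) / 76)⁻¹ ^ 2 * (infDist z X.E) ^ α := by
  set c0 := Real.cos (α * (Real.pi / 2)) / 76 with hc0
  have hc0' : 0 < c0 := div_pos (cos_pos hα0 hα1) (by norm_num)
  unfold phi
  split_ifs with hz
  · rw [norm_zero]
    have := Real.rpow_nonneg (infDist_nonneg (x := z) (s := X.E)) α
    positivity
  · have hδ := X.infDist_pos' hz
    obtain ⟨h1, h2⟩ := X.main_case hα0 hα1 z hz1 hδ
    rw [← hc0] at h1 h2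
    have h3 : c0 ^ 2 * (infDist z X.E) ^ (-α) ≤ ‖X.G z‖ := by
      calc c0 ^ 2 * (infDist z X.E) ^ (-α) = c0 * (c0 * (infDist z X.E) ^ (-α)) := by ring
        _ ≤ c0 * X.Lam z := by gcongr
        _ ≤ _ := h1
    have h4 : 0 < (infDist z X.E) ^ (-α) := Real.rpow_pos_of_pos hδ _
    rw [norm_div, norm_one]
    have h5 : 1 / ‖X.G z‖ ≤ 1 / (c0 ^ 2 * (infDist z X.E) ^ (-α)) :=
      one_div_le_one_div_of_le (by positivity) h3
    refine h5.trans (le_of_eq ?_)
    rw [Real.rpow_neg hδ.le]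
    field_simp

omit hα0 in
lemma le_two_mul_rpow {ρ : ℝ} (h0 : 0 ≤ ρ) (h2 : ρ ≤ 2) (hα0' : 0 < α) : ρ ≤ 2 * ρ ^ α := by
  rcases h0.lt_or_eq with h | h
  · have h6 : ρ = ρ ^ (1 - α) * ρ ^ α := by
      rw [← Real.rpow_add h]
      simp
    have h7 : ρ ^ (1 - α) ≤ 2 := by
      calc ρ ^ (1 - α) ≤ 2 ^ (1 - α) := Real.rpow_le_rpow h.le h2 (by linarith)
        _ ≤ 2 ^ (1 : ℝ) := Real.rpow_le_rpow_of_exponent_le (by norm_num) (by linarith)
        _ = 2 := Real.rpow_one 2
    calc ρ = ρ ^ (1 - α) * ρ ^ α := h6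
      _ ≤ 2 * ρ ^ α := by
          have : 0 ≤ ρ ^ α := Real.rpow_nonneg h.le _
          gcongr
  · rw [← h, Real.zero_rpow hα0'.ne']
    simp

/-- The Lipschitz estimate on the closed disc. -/
lemma phi_lip : ∃ C : ℝ, 0 ≤ C ∧ ∀ z z' : ℂ, ‖z‖ ≤ 1 → ‖z'‖ ≤ 1 →
    ‖X.phi z - X.phi z'‖ ≤ C * ‖z - z'‖ ^ α := by
  set c0 := Real.cos (α * (Real.pi / 2)) / 76 with hc0
  have hc0' : 0 < c0 := div_pos (cos_pos hα0 hα1) (by norm_num)
  refine ⟨c0⁻¹ ^ 2 * 5 + 2 * c0⁻¹ ^ 2 * (4 + 8 * c0⁻¹), by positivity, fun z z' hz hz' => ?_⟩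
  set ρ := ‖z - z'‖ with hρ
  have hρ0 : 0 ≤ ρ := norm_nonneg _
  have hρ2 : ρ ≤ 2 := (norm_sub_le _ _).trans (by linarith)
  have hρα : 0 ≤ ρ ^ α := Real.rpow_nonneg hρ0 _
  set δ := infDist z X.E with hδ
  set δ' := infDist z' X.E with hδ'
  have hδ0 : 0 ≤ δ := infDist_nonneg
  have hδ0' : 0 ≤ δ' := infDist_nonneg
  have h1 : δ' ≤ δ + ρ := by
    have := infDist_le_infDist_add_dist (s := X.E) (x := z') (y := z)
    rw [dist_comm, dist_eq_norm] at this
    exact this
  have h1' : δ ≤ δ' + ρ := by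
    have := infDist_le_infDist_add_dist (s := X.E) (x := z) (y := z')
    rw [dist_eq_norm] at this
    exact this
  rcases le_or_gt δ (2 * ρ) with hcase | hcase
  · have h2 := X.phi_bound hα0 hα1 hz
    have h3 := X.phi_bound hα0 hα1 hz'
    rw [← hc0] at h2 h3
    have h4 : δ ^ α ≤ 2 * ρ ^ α := by
      calc δ ^ α ≤ (2 * ρ) ^ α := Real.rpow_le_rpow hδ0 hcase hα0.le
        _ = 2 ^ α * ρ ^ α := Real.mul_rpow (by norm_num) hρ0
        _ ≤ 2 * ρ ^ α := by
            have : (2 : ℝ) ^ α ≤ 2 := by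
              calc (2 : ℝ) ^ α ≤ 2 ^ (1 : ℝ) :=
                    Real.rpow_le_rpow_of_exponent_le (by norm_num) hα1.le
                _ = 2 := Real.rpow_one 2
            gcongr
    have h5 : δ' ^ α ≤ 3 * ρ ^ α := by
      calc δ' ^ α ≤ (3 * ρ) ^ α := Real.rpow_le_rpow hδ0' (by linarith) hα0.le
        _ = 3 ^ α * ρ ^ α := Real.mul_rpow (by norm_num) hρ0
        _ ≤ 3 * ρ ^ α := by
            have : (3 : ℝ) ^ α ≤ 3 := by
              calc (3 : ℝ) ^ α ≤ 3 ^ (1 : ℝ) :=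
                    Real.rpow_le_rpow_of_exponent_le (by norm_num) hα1.le
                _ = 3 := Real.rpow_one 3
            gcongr
    calc ‖X.phi z - X.phi z'‖ ≤ ‖X.phi z‖ + ‖X.phi z'‖ := norm_sub_le _ _
      _ ≤ c0⁻¹ ^ 2 * δ ^ α + c0⁻¹ ^ 2 * δ' ^ α := add_le_add h2 h3
      _ ≤ c0⁻¹ ^ 2 * (2 * ρ ^ α) + c0⁻¹ ^ 2 * (3 * ρ ^ α) := by gcongr
      _ = c0⁻¹ ^ 2 * 5 * ρ ^ α := by ring
      _ ≤ (c0⁻¹ ^ 2 * 5 + 2 * c0⁻¹ ^ 2 * (4 + 8 * c0⁻¹)) * ρ ^ α := by
          have : 0 ≤ 2 * c0⁻¹ ^ 2 * (4 + 8 * c0⁻¹) := by positivity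
          gcongr
          linarith
  · -- near
    have hδp : 0 < δ := by linarith
    have hδp' : 0 < δ' := by linarith
    have hzE : z ∉ X.E := fun h => by
      rw [hδ, infDist_zero_of_mem h] at hδp
      exact lt_irrefl _ hδp
    have hzE' : z' ∉ X.E := fun h => by
      rw [hδ', infDist_zero_of_mem h] at hδp'
      exact lt_irrefl _ hδp'
    obtain ⟨hG, hL⟩ := X.main_case hα0 hα1 z hz hδp
    obtain ⟨hG', -⟩ := X.main_case hα0 hα1 z' hz' hδp'
    rw [← hc0] at hG hL hG'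
    have hn1 : δ ≤ ‖1 - z‖ := X.dist_le_one z
    have hn0 : 0 < ‖1 - z‖ := hδp.trans_le hn1
    have hn1' : ‖1 - z‖ / 2 ≤ ‖1 - z'‖ := by
      have e1 : 1 - z = (1 - z') - (z - z') := by ring
      have h2 := norm_sub_le (1 - z') (z - z')
      rw [← e1, ← hρ] at h2
      linarith
    have hn2' : ‖1 - z'‖ ≤ 2 * ‖1 - z‖ := by
      have e1 : 1 - z' = (1 - z) + (z - z') := by ring
      have h2 := norm_add_le (1 - z) (z - z')
      rw [← e1, ← hρ] at h2
      linarith
    have hn0' : 0 < ‖1 - z'‖ := by linarith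
    have hMs := X.Mf_summable hδp
    have hMs' := X.Mf_summable hδp'
    have hM0 : ∀ j, 0 ≤ X.Mf j z := fun j => X.Mf_nonneg j z
    have hMt : 0 ≤ ∑' j, X.Mf j z := tsum_nonneg hM0
    have hLdef : X.Lam z = 1 / ‖1 - z‖ + ∑' j, X.Mf j z := rfl
    have hLdef' : X.Lam z' = 1 / ‖1 - z'‖ + ∑' j, X.Mf j z' := rfl
    set Λ := X.Lam z with hΛ
    have hδα : 0 < δ ^ (-α) := Real.rpow_pos_of_pos hδp _
    have hΛ0 : 0 < Λ := lt_of_lt_of_le (by positivity) hL
    -- lower bound for `Λ(z')`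
    have hΛ' : Λ / 2 ≤ X.Lam z' := by
      rw [hLdef, hLdef']
      have h2 : 1 / ‖1 - z‖ / 2 ≤ 1 / ‖1 - z'‖ := by
        rw [div_div, one_div_le_one_div (by positivity) hn0']
        linarith
      have h3 : (∑' j, X.Mf j z) / 2 ≤ ∑' j, X.Mf j z' := by
        rw [← tsum_div_const]
        refine (hMs.div_const 2).tsum_le_tsum (fun j => ?_) hMs'
        have h4 : ‖z' - X.ζ j‖ ≤ 2 * ‖z - X.ζ j‖ := by
          have e1 : z' - X.ζ j = (z - X.ζ j) - (z - z') := by ring
          have h5 := norm_sub_le (z - X.ζ j) (z - z')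
          rw [← e1, ← hρ] at h5
          have := X.dist_le j z
          rw [← hδ] at this
          linarith
        have h6 : 0 < ‖z' - X.ζ j‖ := hδp'.trans_le (X.dist_le j z')
        have h7 := m_le_two hα0 hα1 (X.c_pos j) h6 h4
        unfold Mf
        linarith
      linarith
    -- difference of `G`
    have hdiff : ‖X.G z - X.G z'‖ ≤ ρ * (2 * Λ ^ 2 + 8 * Λ / δ) := by
      have e1 : X.G z - X.G z' = (1 / (1 - z) - 1 / (1 - z')) +
          ∑' j, (g α (X.c j) (X.w j z) - g α (X.c j) (X.w j z')) := by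
        rw [(X.g_summable hα0 hα1 hz hδp).tsum_sub (X.g_summable hα0 hα1 hz' hδp')]
        unfold G
        ring
      have h2 : ‖1 / (1 - z) - 1 / (1 - z')‖ ≤ ρ * (2 * (1 / ‖1 - z‖) ^ 2) := by
        have hne : 1 - z ≠ 0 := norm_pos_iff.1 hn0
        have hne' : 1 - z' ≠ 0 := norm_pos_iff.1 hn0'
        have e2 : 1 / (1 - z) - 1 / (1 - z') = (z - z') / ((1 - z) * (1 - z')) := by
          field_simp
          ring
        rw [e2, norm_div, norm_mul, ← hρ]
        calc ρ / (‖1 - z‖ * ‖1 - z'‖) ≤ ρ / (‖1 - z‖ * (‖1 - z‖ / 2)) := by gcongr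
          _ = ρ * (2 * (1 / ‖1 - z‖) ^ 2) := by field_simp
      have h3 : ‖∑' j, (g α (X.c j) (X.w j z) - g α (X.c j) (X.w j z'))‖ ≤
          ρ * (8 * (∑' j, X.Mf j z) / δ) := by
        have h4 : ∀ j, ‖g α (X.c j) (X.w j z) - g α (X.c j) (X.w j z')‖ ≤
            8 * ρ / δ * X.Mf j z := by
          intro j
          have h5 : 0 < ‖z - X.ζ j‖ := hδp.trans_le (X.dist_le j z)
          have h6 := g_sub_le hα0 hα1 (X.c_pos j) (X.w_re j hz) (X.w_re j hz')
            (by rw [← norm_pos_iff, X.w_norm]; exact h5)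
            (by
              rw [X.w_sub, X.w_norm, ← hρ]
              have := X.dist_le j z
              rw [← hδ] at this
              linarith)
          rw [X.w_sub, X.w_norm, ← hρ] at h6
          refine h6.trans ?_
          have h7 : ρ / ‖z - X.ζ j‖ ≤ ρ / δ := by
            gcongr
            exact X.dist_le j z
          calc 8 * m α (X.c j) ‖z - X.ζ j‖ * (ρ / ‖z - X.ζ j‖)
              ≤ 8 * m α (X.c j) ‖z - X.ζ j‖ * (ρ / δ) := by
                have : 0 ≤ m α (X.c j) ‖z - X.ζ j‖ := hM0 j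
                gcongr
            _ = 8 * ρ / δ * X.Mf j z := by
                unfold Mf
                ring
        refine (tsum_of_norm_bounded (hMs.mul_left (8 * ρ / δ)).hasSum h4).trans ?_
        rw [tsum_mul_left]
        apply le_of_eq
        ring
      have h5 : 1 / ‖1 - z‖ ≤ Λ := by rw [hLdef]; linarith
      have h6 : ∑' j, X.Mf j z ≤ Λ := by
        rw [hLdef]
        have : 0 ≤ 1 / ‖1 - z‖ := by positivity
        linarith
      rw [e1]
      calc _ ≤ ‖1 / (1 - z) - 1 / (1 - z')‖ +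
            ‖∑' j, (g α (X.c j) (X.w j z) - g α (X.c j) (X.w j z'))‖ := norm_add_le _ _
        _ ≤ ρ * (2 * (1 / ‖1 - z‖) ^ 2) + ρ * (8 * (∑' j, X.Mf j z) / δ) := add_le_add h2 h3
        _ ≤ ρ * (2 * Λ ^ 2) + ρ * (8 * Λ / δ) := by gcongr
        _ = _ := by ring
    have hG0 : 0 < ‖X.G z‖ := lt_of_lt_of_le (by positivity) hG
    have hG2 : c0 * (Λ / 2) ≤ ‖X.G z'‖ := by
      calc c0 * (Λ / 2) ≤ c0 * X.Lam z' := by gcongr
        _ ≤ _ := hG'
    have hG0' : 0 < ‖X.G z'‖ := lt_of_lt_of_le (by positivity) hG2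
    have e3 : X.phi z - X.phi z' = -(X.G z - X.G z') / (X.G z * X.G z') := by
      unfold phi
      rw [if_neg hzE, if_neg hzE']
      have := norm_pos_iff.1 hG0
      have := norm_pos_iff.1 hG0'
      field_simp
      ring
    rw [e3, norm_div, norm_neg, norm_mul]
    have h8 : ‖X.G z - X.G z'‖ / (‖X.G z‖ * ‖X.G z'‖) ≤
        ρ * (2 * Λ ^ 2 + 8 * Λ / δ) / ((c0 * Λ) * (c0 * (Λ / 2))) := by
      gcongr
    have h9 : ρ * (2 * Λ ^ 2 + 8 * Λ / δ) / ((c0 * Λ) * (c0 * (Λ / 2))) =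
        2 * c0⁻¹ ^ 2 * (2 * ρ + 8 * (ρ * (1 / (δ * Λ)))) := by
      field_simp
    have h10 : ρ ≤ 2 * ρ ^ α := le_two_mul_rpow hα1 hρ0 hρ2 hα0
    have h11 : ρ * (1 / (δ * Λ)) ≤ c0⁻¹ * ρ ^ α := by
      have h12 : 1 / (δ * Λ) ≤ c0⁻¹ * (δ ^ α / δ) := by
        have h13 : δ ^ (-α) = (δ ^ α)⁻¹ := Real.rpow_neg hδp.le _
        have h14 : 0 < δ ^ α := Real.rpow_pos_of_pos hδp _
        rw [h13] at hL
        have h15 : c0 ≤ Λ * δ ^ α := by
          rwa [← div_eq_mul_inv, div_le_iff₀ h14] at hL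
        rw [div_le_iff₀ (by positivity)]
        have e4 : c0⁻¹ * (δ ^ α / δ) * (δ * Λ) = (Λ * δ ^ α) / c0 := by field_simp
        rw [e4, one_le_div hc0']
        exact h15
      rcases hρ0.lt_or_eq with hρp | hρp
      · have h16 : δ ^ α / δ ≤ ρ ^ α / ρ := by
          rw [← Real.rpow_sub_one hδp.ne', ← Real.rpow_sub_one hρp.ne']
          exact Real.rpow_le_rpow_of_nonpos hρp (by linarith) (by linarith)
        calc ρ * (1 / (δ * Λ)) ≤ ρ * (c0⁻¹ * (ρ ^ α / ρ)) := by
              gcongr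
              exact h12.trans (by gcongr)
          _ = c0⁻¹ * ρ ^ α := by field_simp
      · rw [← hρp]
        simp only [zero_mul]
        positivity
    calc ‖X.G z - X.G z'‖ / (‖X.G z‖ * ‖X.G z'‖)
        ≤ 2 * c0⁻¹ ^ 2 * (2 * ρ + 8 * (ρ * (1 / (δ * Λ)))) := by rw [← h9]; exact h8
      _ ≤ 2 * c0⁻¹ ^ 2 * (2 * (2 * ρ ^ α) + 8 * (c0⁻¹ * ρ ^ α)) := by gcongr
      _ = 2 * c0⁻¹ ^ 2 * (4 + 8 * c0⁻¹) * ρ ^ α := by ring
      _ ≤ (c0⁻¹ ^ 2 * 5 + 2 * c0⁻¹ ^ 2 * (4 + 8 * c0⁻¹)) * ρ ^ α := by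
          have : 0 ≤ c0⁻¹ ^ 2 * 5 := by positivity
          gcongr
          linarith

omit hα0 hα1 in
lemma ball_notMem {z : ℂ} (hz : z ∈ ball (0 : ℂ) 1) : z ∉ X.E := by
  intro h
  have h1 := X.E_sub h
  rw [mem_sphere] at h1
  rw [mem_ball, h1] at hz
  exact lt_irrefl _ hz

/-- `G` is holomorphic in the disc. -/
lemma G_diff : DifferentiableOn ℂ X.G (ball 0 1) := by
  intro z hz
  have hz1 : ‖z‖ < 1 := by rwa [mem_ball, dist_zero_right] at hz
  obtain ⟨r, hr1, hr2⟩ := exists_between hz1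
  have hr0 : 0 < r := (norm_nonneg z).trans_lt hr1
  have hnb : ball (0 : ℂ) r ∈ 𝓝 z := isOpen_ball.mem_nhds (by rwa [mem_ball, dist_zero_right])
  have hsum : DifferentiableOn ℂ (fun z => ∑' j, g α (X.c j) (X.w j z)) (ball 0 r) := by
    refine differentiableOn_tsum_of_summable_norm (u := fun j => X.c j / (1 - r))
      (X.sum_c.div_const _) (fun j => ?_) isOpen_ball (fun j u hu => ?_)
    · intro u hu
      have hu1 : ‖u‖ < 1 := by
        rw [mem_ball, dist_zero_right] at hu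
        linarith
      have hre : 0 < (X.w j u).re := by
        unfold w
        rw [sub_re, one_re]
        have h1 : (u * conj (X.ζ j)).re ≤ ‖u * conj (X.ζ j)‖ := re_le_norm _
        rw [norm_mul, Complex.norm_conj, X.norm_ζ, mul_one] at h1
        linarith
      have hw0 : X.w j u ≠ 0 := by
        intro h
        rw [h] at hre
        simp at hre
      have hwd : DifferentiableAt ℂ (X.w j) u := by
        unfold w
        exact (differentiableAt_id.mul_const _).const_sub _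
      have hpd : DifferentiableAt ℂ (fun u => (X.w j u) ^ (α : ℂ)) u :=
        hwd.cpow_const (Or.inl hre)
      have : DifferentiableAt ℂ (fun u => g α (X.c j) (X.w j u)) u := by
        unfold g
        exact (differentiableAt_const _).div (hpd.add (hwd.div_const _))
          (den_ne hα0 hα1 (X.c_pos j) hre.le hw0)
      exact this.differentiableWithinAt
    · have hu1 : ‖u‖ < r := by rwa [mem_ball, dist_zero_right] at hu
      have hδ : 1 - r ≤ infDist u X.E := by
        rw [le_infDist X.E_nonempty]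
        intro ζ hζ
        have hζ1 : ‖ζ‖ = 1 := by simpa using X.E_sub hζ
        rw [dist_eq_norm, norm_sub_rev]
        have := norm_sub_norm_le ζ u
        linarith
      have h1 := X.g_le hα0 hα1 (z := u) (by linarith) (by linarith) j
      refine h1.trans ((X.Mf_le j u).trans ?_)
      have := X.c_pos j
      have h2 := X.dist_le j u
      have h3 : 0 < 1 - r := by linarith
      gcongr
      linarith
  have h1 : DifferentiableAt ℂ (fun z : ℂ => 1 / (1 - z)) z := by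
    refine (differentiableAt_const _).div (differentiableAt_id.const_sub _) ?_
    rw [sub_ne_zero]
    rintro rfl
    simp at hz1
  exact (h1.add (hsum.differentiableAt hnb)).differentiableWithinAt

/-- The set of a configuration is a peak set. -/
theorem peak : ∃ f : ℂ → ℂ, (DifferentiableOn ℂ f (ball 0 1) ∧ ContinuousOn f (closedBall 0 1) ∧
    ∃ C : ℝ, ∀ z ∈ sphere (0 : ℂ) 1, ∀ w ∈ sphere (0 : ℂ) 1, ‖f z - f w‖ ≤ C * ‖z - w‖ ^ α) ∧
    (∀ z ∈ X.E, f z = 1) ∧ ∀ z ∈ sphere (0 : ℂ) 1, z ∉ X.E → ‖f z‖ < 1 := by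
  obtain ⟨C, hC0, hC⟩ := X.phi_lip hα0 hα1
  have hlip : ∀ z w : ℂ, ‖z‖ ≤ 1 → ‖w‖ ≤ 1 →
      ‖(1 - X.phi z / 2) - (1 - X.phi w / 2)‖ ≤ C * ‖z - w‖ ^ α := by
    intro z w hz hw
    have e : (1 - X.phi z / 2) - (1 - X.phi w / 2) = -(X.phi z - X.phi w) / 2 := by ring
    rw [e, norm_div, norm_neg, Complex.norm_ofNat]
    have := hC z w hz hw
    linarith [norm_nonneg (X.phi z - X.phi w)]
  have hGne : ∀ z, ‖z‖ ≤ 1 → 0 < infDist z X.E → X.G z ≠ 0 := by
    intro z hz hδ h0
    have := X.G_re_half hα0 hα1 hz hδ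
    rw [h0, zero_re] at this
    norm_num at this
  refine ⟨fun z => 1 - X.phi z / 2, ⟨?_, ?_, C, ?_⟩, ?_, ?_⟩
  · have h1 : DifferentiableOn ℂ (fun z => 1 - 1 / X.G z / 2) (ball 0 1) := by
      intro z hz
      have hz1 : ‖z‖ ≤ 1 := by
        rw [mem_ball, dist_zero_right] at hz
        exact hz.le
      have := hGne z hz1 (X.infDist_pos' (X.ball_notMem hz))
      exact (((differentiableWithinAt_const _).div (X.G_diff hα0 hα1 z hz) this).div_const 2).const_sub 1
    refine h1.congr fun z hz => ?_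
    unfold phi
    rw [if_neg (X.ball_notMem hz)]
  · rw [Metric.continuousOn_iff]
    intro z hz ε hε
    rw [mem_closedBall, dist_zero_right] at hz
    refine ⟨(ε / (C + 1)) ^ (1 / α), by positivity, fun w hw hwz => ?_⟩
    rw [mem_closedBall, dist_zero_right] at hw
    rw [dist_eq_norm] at hwz ⊢
    refine (hlip w z hw hz).trans_lt ?_
    have h1 : ‖w - z‖ ^ α < ((ε / (C + 1)) ^ (1 / α)) ^ α :=
      Real.rpow_lt_rpow (norm_nonneg _) hwz hα0
    rw [← Real.rpow_mul (by positivity), one_div, inv_mul_cancel₀ hα0.ne', Real.rpow_one] at h1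
    have h2 : 0 ≤ ‖w - z‖ ^ α := Real.rpow_nonneg (norm_nonneg _) _
    rw [lt_div_iff₀ (by positivity)] at h1
    nlinarith
  · intro z hz w hw
    rw [mem_sphere, dist_zero_right] at hz hw
    exact hlip z w hz.le hw.le
  · intro z hz
    simp only [phi, if_pos hz]
    simp
  · intro z hz hzE
    rw [mem_sphere, dist_zero_right] at hz
    have hδ := X.infDist_pos' hzE
    have h1 := X.G_re_half hα0 hα1 hz.le hδ
    have h2 := hGne z hz.le hδ
    simp only [phi, if_neg hzE]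
    have e : 1 - 1 / X.G z / 2 = (2 * X.G z - 1) / (2 * X.G z) := by field_simp
    rw [e, norm_div, div_lt_one (norm_pos_iff.2 (mul_ne_zero two_ne_zero h2))]
    rw [← sq_lt_sq₀ (norm_nonneg _) (norm_nonneg _), ← normSq_eq_norm_sq, ← normSq_eq_norm_sq,
      normSq_apply, normSq_apply]
    simp only [sub_re, mul_re, re_ofNat, im_ofNat, zero_mul, sub_zero, one_re, sub_im, mul_im,
      add_zero, one_im]
    nlinarith

end estimates

end Config

end Pool.Agent.R261.PeakConfig
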