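import Mathlib
import Pool.Agent.R261.PeakConfig

/-!
# A countable peak set which is not a zero set of the Gevrey class

Blocks of `N n` equally spaced points on the arcs `[4^(-n), 2 * 4^(-n)]`,
`N n = ⌈ 4^(n κ) n^(-1/α) ⌉`, `κ = (1 - α) / α`.
-/

set_option autoImplicit false

open Set Filter Topology Complex Metric

namespace Pool.Agent.R261.PeakExample

lemma chord {θ φ : ℝ} (h : |θ - φ| ≤ 1) :
    |θ - φ| / 2 ≤ ‖exp (θ * I) - exp (φ * I)‖ ∧ ‖exp (θ * I) - exp (φ * I)‖ ≤ |θ - φ| := by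
  have e1 : exp (θ * I) - exp (φ * I) = exp (φ * I) * (exp (I * ((θ - φ : ℝ) : ℂ)) - 1) := by
    rw [mul_sub, mul_one, ← Complex.exp_add]
    congr 2
    push_cast
    ring
  rw [e1, norm_mul, norm_exp_ofReal_mul_I, one_mul, norm_exp_I_mul_ofReal_sub_one, norm_mul]
  rw [Real.norm_eq_abs, Real.norm_eq_abs, abs_of_pos (show (0 : ℝ) < 2 by norm_num)]
  have e2 : |(θ - φ) / 2| = |θ - φ| / 2 := by
    rw [abs_div, abs_of_pos (show (0 : ℝ) < 2 by norm_num)]
  have hpi := Real.pi_pos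
  have hpi3 := Real.pi_gt_three
  have hpi4 := Real.pi_le_four
  constructor
  · have h1 : |(θ - φ) / 2| ≤ Real.pi / 2 := by rw [e2]; linarith
    have h2 := Real.mul_abs_le_abs_sin h1
    rw [e2] at h2
    have h3 : (1 : ℝ) / 2 ≤ 2 / Real.pi := by
      rw [div_le_div_iff₀ (by norm_num) hpi]
      linarith
    have h4 : 0 ≤ |θ - φ| := abs_nonneg _
    nlinarith
  · have h1 := Real.abs_sin_le_abs (x := (θ - φ) / 2)
    rw [e2] at h1
    linarith

lemma sigma_bound {N : ℕ → ℕ} (F : (Σ k, Fin (N k)) → ℝ) (hF : ∀ j, 0 ≤ F j) (B : ℕ → ℝ)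
    (hB : Summable B) (h : ∀ k, ∑ i, F ⟨k, i⟩ ≤ B k) : Summable F ∧ ∑' j, F j ≤ ∑' k, B k := by
  have hs : Summable F := by
    rw [summable_sigma_of_nonneg hF]
    refine ⟨fun k => (hasSum_fintype _).summable, ?_⟩
    refine Summable.of_nonneg_of_le (fun k => tsum_nonneg fun i => hF _) (fun k => ?_) hB
    rw [tsum_fintype]
    exact h k
  refine ⟨hs, ?_⟩
  rw [hs.tsum_sigma]
  refine Summable.tsum_le_tsum (fun k => ?_) ((summable_sigma_of_nonneg hF).1 hs).2 hB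
  rw [tsum_fintype]
  exact h k

/-- the harmonic sums -/
noncomputable def H (N : ℕ) : ℝ := ∑ r ∈ Finset.range (N + 1), 1 / (r : ℝ)

lemma H_mono {a b : ℕ} (h : a ≤ b) : H a ≤ H b := by
  unfold H
  refine Finset.sum_le_sum_of_subset_of_nonneg ?_ fun r _ _ => by positivity
  exact Finset.range_mono (by omega)

lemma H_le (N : ℕ) : H N ≤ 1 + Real.log N := by
  have h := harmonic_le_one_add_log N
  refine le_trans (le_of_eq ?_) h
  unfold H harmonic
  rw [Finset.sum_range_succ']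
  push_cast
  simp

/-- the sum of the reciprocals of the distances between indices -/
lemma sum_inv_abs (N : ℕ) (i : Fin N) : ∑ j : Fin N, 1 / |((j : ℕ) : ℝ) - ((i : ℕ) : ℝ)| ≤ 2 * H N := by
  rw [Fin.sum_univ_eq_sum_range (fun j => 1 / |(j : ℝ) - ((i : ℕ) : ℝ)|) N]
  have hi : (i : ℕ) < N := i.2
  rw [← Finset.sum_range_add_sum_Ico _ hi.le]
  have h1 : ∑ j ∈ Finset.range (i : ℕ), 1 / |(j : ℝ) - ((i : ℕ) : ℝ)| ≤ H N := by
    refine le_trans ?_ (H_mono hi.le)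
    unfold H
    rw [Finset.sum_range_succ', ← Finset.sum_range_reflect]
    simp only [Nat.cast_zero, div_zero, add_zero]
    refine Finset.sum_le_sum fun j hj => ?_
    rw [Finset.mem_range] at hj
    apply le_of_eq
    congr 1
    have e : ((i : ℕ) - 1 - j : ℕ) = ((i : ℕ) : ℝ) - (j + 1 : ℕ) := by
      rw [← Nat.cast_sub (by omega)]
      congr 1
      omega
    rw [e]
    push_cast
    have : ((i : ℕ) : ℝ) - (j + 1) - (i : ℕ) = -(j + 1 : ℝ) := by ring
    rw [this, abs_neg, abs_of_pos (by positivity)]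
  have h2 : ∑ j ∈ Finset.Ico (i : ℕ) N, 1 / |(j : ℝ) - ((i : ℕ) : ℝ)| ≤ H N := by
    rw [Finset.sum_Ico_eq_sum_range]
    unfold H
    refine le_trans (Finset.sum_le_sum (g := fun r : ℕ => 1 / (r : ℝ)) fun j hj => ?_)
      (Finset.sum_le_sum_of_subset_of_nonneg (Finset.range_mono (by omega))
        fun r _ _ => by positivity)
    apply le_of_eq
    push_cast
    congr 1
    rw [add_sub_cancel_left, abs_of_nonneg (by positivity)]
  linarith

/-- the radii of the blocks -/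
noncomputable def ρ (n : ℕ) : ℝ := (1 / 4) ^ n

/-- `κ = (1 - α) / α` -/
noncomputable def kap (α : ℝ) : ℝ := (1 - α) / α

/-- the number of points in the `n`-th block -/
noncomputable def Nn (α : ℝ) (n : ℕ) : ℕ := ⌈((4 : ℝ) ^ kap α) ^ n * (n : ℝ) ^ (-(1 / α))⌉₊

/-- the bound for the masses in the `n`-th block -/
noncomputable def Cn (α : ℝ) (n : ℕ) : ℝ := (16 * ρ n) ^ kap α

lemma ρ_pos (n : ℕ) : 0 < ρ n := by unfold ρ; positivity

lemma ρ_le {n : ℕ} (hn : 1 ≤ n) : ρ n ≤ 1 / 4 := by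
  unfold ρ
  calc ((1 : ℝ) / 4) ^ n ≤ (1 / 4) ^ 1 := pow_le_pow_of_le_one (by norm_num) (by norm_num) hn
    _ = 1 / 4 := pow_one _

lemma ρ_lt {n n' : ℕ} (h : n < n') : 4 * ρ n' ≤ ρ n := by
  unfold ρ
  calc 4 * ((1 : ℝ) / 4) ^ n' ≤ 4 * (1 / 4) ^ (n + 1) := by
        gcongr 4 * ?_
        exact pow_le_pow_of_le_one (by norm_num) (by norm_num) h
    _ = (1 / 4) ^ n := by rw [pow_succ]; ring

section

variable {α : ℝ} (hα0 : 0 < α) (hα1 : α < 1)

include hα0 hα1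

lemma kap_pos : 0 < kap α := div_pos (by linarith) hα0

lemma q_gt : 1 < (4 : ℝ) ^ kap α := Real.one_lt_rpow (by norm_num) (kap_pos hα0 hα1)

lemma N_pos {n : ℕ} (hn : 1 ≤ n) : 1 ≤ Nn α n := by
  unfold Nn
  have hn' : (0 : ℝ) < n := by exact_mod_cast hn
  have : (0 : ℝ) < ((4 : ℝ) ^ kap α) ^ n * (n : ℝ) ^ (-(1 / α)) := by positivity
  exact Nat.one_le_iff_ne_zero.2 (Nat.ceil_pos.2 this).ne'

lemma C_eq (n : ℕ) : Cn α n = 16 ^ kap α * (((4 : ℝ) ^ kap α)⁻¹) ^ n := by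
  unfold Cn ρ
  rw [Real.mul_rpow (by norm_num) (by positivity), ← Real.rpow_natCast, ← Real.rpow_mul (by norm_num),
    mul_comm (n : ℝ), Real.rpow_mul (by norm_num), Real.rpow_natCast, one_div,
    Real.inv_rpow (by norm_num)]

lemma v_le {n : ℕ} (hn : 1 ≤ n) : Cn α n * Nn α n ≤
    16 ^ kap α * ((n : ℝ) ^ (-(1 / α)) + (((4 : ℝ) ^ kap α)⁻¹) ^ n) := by
  rw [C_eq hα0 hα1]
  set q := (4 : ℝ) ^ kap α with hq
  have hq1 : 1 < q := q_gt hα0 hα1
  have hn' : (0 : ℝ) < n := by exact_mod_cast hn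
  have h1 : (Nn α n : ℝ) ≤ q ^ n * (n : ℝ) ^ (-(1 / α)) + 1 :=
    (Nat.ceil_lt_add_one (by positivity)).le
  calc 16 ^ kap α * (q⁻¹) ^ n * (Nn α n : ℝ)
      ≤ 16 ^ kap α * (q⁻¹) ^ n * (q ^ n * (n : ℝ) ^ (-(1 / α)) + 1) := by gcongr
    _ = 16 ^ kap α * ((q⁻¹ * q) ^ n * (n : ℝ) ^ (-(1 / α)) + (q⁻¹) ^ n) := by
        rw [mul_pow]; ring
    _ = _ := by rw [inv_mul_cancel₀ (by linarith), one_pow, one_mul]

lemma v_nonneg (n : ℕ) : 0 ≤ Cn α n * Nn α n := by
  unfold Cn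
  have := ρ_pos n
  positivity

lemma v_summable : Summable fun n => Cn α n * Nn α n := by
  have hq1 : 1 < (4 : ℝ) ^ kap α := q_gt hα0 hα1
  have h1 : Summable fun n : ℕ => (n : ℝ) ^ (-(1 / α)) := by
    rw [Real.summable_nat_rpow]
    have : 1 < 1 / α := by rw [one_lt_div hα0]; exact hα1
    linarith
  have h2 : Summable fun n : ℕ => (((4 : ℝ) ^ kap α)⁻¹) ^ n :=
    summable_geometric_of_lt_one (by positivity) (inv_lt_one_of_one_lt₀ hq1)
  refine (summable_nat_add_iff 1).1 ?_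
  refine Summable.of_nonneg_of_le (fun n => v_nonneg hα0 hα1 _) (fun n => v_le hα0 hα1 (by omega))
    ((summable_nat_add_iff 1).2 ((h1.add h2).mul_left _))

lemma vH_tendsto : Tendsto (fun n => Cn α n * Nn α n * H (Nn α n)) atTop (𝓝 0) := by
  have hq1 : 1 < (4 : ℝ) ^ kap α := q_gt hα0 hα1
  set q := (4 : ℝ) ^ kap α with hq
  have hlq : 0 < Real.log q := Real.log_pos hq1
  have h1 : Tendsto (fun n : ℕ => (n : ℝ) ^ (-(1 / α - 1))) atTop (𝓝 0) := by
    have : 0 < 1 / α - 1 := by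
      have : 1 < 1 / α := by rw [one_lt_div hα0]; exact hα1
      linarith
    exact (tendsto_rpow_neg_atTop this).comp tendsto_natCast_atTop_atTop
  have h2 : Tendsto (fun n : ℕ => (n : ℝ) * (q⁻¹) ^ n) atTop (𝓝 0) :=
    tendsto_self_mul_const_pow_of_lt_one (by positivity) (inv_lt_one_of_one_lt₀ hq1)
  have h3 : Tendsto (fun n : ℕ => 16 ^ kap α * (2 + Real.log q) *
      ((n : ℝ) ^ (-(1 / α - 1)) + (n : ℝ) * (q⁻¹) ^ n)) atTop (𝓝 0) := by
    have := (h1.add h2).const_mul (16 ^ kap α * (2 + Real.log q))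
    rwa [add_zero, mul_zero] at this
  refine squeeze_zero' (Eventually.of_forall fun n => ?_) ?_ h3
  · have := v_nonneg hα0 hα1 n
    have h4 : 0 ≤ H (Nn α n) := Finset.sum_nonneg fun r _ => by positivity
    positivity
  · filter_upwards [eventually_ge_atTop 1] with n hn
    have hn' : (1 : ℝ) ≤ n := by exact_mod_cast hn
    have hN := N_pos hα0 hα1 hn
    have hN' : (1 : ℝ) ≤ Nn α n := by exact_mod_cast hN
    have h5 : (Nn α n : ℝ) ≤ 2 * q ^ n := by
      have h6 : (Nn α n : ℝ) ≤ q ^ n * (n : ℝ) ^ (-(1 / α)) + 1 :=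
        (Nat.ceil_lt_add_one (by positivity)).le
      have h7 : (n : ℝ) ^ (-(1 / α)) ≤ 1 :=
        Real.rpow_le_one_of_one_le_of_nonpos hn' (by
          have : 0 < 1 / α := by positivity
          linarith)
      have h8 : 1 ≤ q ^ n := one_le_pow₀ hq1.le
      nlinarith
    have h6 : H (Nn α n) ≤ (2 + Real.log q) * n := by
      refine (H_le _).trans ?_
      have h7 := Real.log_le_log (by linarith) h5
      rw [Real.log_mul (by norm_num) (by positivity), Real.log_pow] at h7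
      have h8 : Real.log 2 ≤ 1 := by linarith [Real.log_two_lt_d9]
      nlinarith
    have h7 := v_le hα0 hα1 hn
    have h8 : (n : ℝ) ^ (-(1 / α)) * n = (n : ℝ) ^ (-(1 / α - 1)) := by
      rw [← Real.rpow_add_one (by linarith)]
      congr 1
      ring
    calc Cn α n * Nn α n * H (Nn α n)
        ≤ 16 ^ kap α * ((n : ℝ) ^ (-(1 / α)) + (q⁻¹) ^ n) * ((2 + Real.log q) * n) := by
          have := v_nonneg hα0 hα1 n
          have h4 : 0 ≤ H (Nn α n) := Finset.sum_nonneg fun r _ => by positivity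
          gcongr
      _ = 16 ^ kap α * (2 + Real.log q) * ((n : ℝ) ^ (-(1 / α)) * n + n * (q⁻¹) ^ n) := by ring
      _ = _ := by rw [h8]

/-- the divergence -/
lemma diverge {n : ℕ} (hn : 1 ≤ n) : 1 / (n : ℝ) ≤ ρ n * (ρ n / Nn α n) ^ (-α) := by
  have hn' : (0 : ℝ) < n := by exact_mod_cast hn
  have hN := N_pos hα0 hα1 hn
  have hN' : (0 : ℝ) < Nn α n := by exact_mod_cast hN
  have hρ := ρ_pos n
  have h1 : ((4 : ℝ) ^ kap α) ^ n * (n : ℝ) ^ (-(1 / α)) ≤ Nn α n := Nat.le_ceil _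
  have e1 : ρ n * (ρ n / Nn α n) ^ (-α) = ρ n ^ (1 - α) * (Nn α n : ℝ) ^ α := by
    rw [Real.div_rpow hρ.le hN'.le, Real.rpow_neg hN'.le, div_inv_eq_mul, ← mul_assoc]
    congr 1
    rw [sub_eq_add_neg, Real.rpow_add hρ, Real.rpow_one]
  rw [e1]
  have h2 : (((4 : ℝ) ^ kap α) ^ n * (n : ℝ) ^ (-(1 / α))) ^ α ≤ (Nn α n : ℝ) ^ α :=
    Real.rpow_le_rpow (by positivity) h1 hα0.le
  have e2 : (((4 : ℝ) ^ kap α) ^ n * (n : ℝ) ^ (-(1 / α))) ^ α =
      ((4 : ℝ) ^ (1 - α)) ^ n * (1 / n) := by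
    rw [Real.mul_rpow (by positivity) (by positivity), ← Real.rpow_mul hn'.le]
    have e3 : -(1 / α) * α = -1 := by field_simp
    rw [e3, Real.rpow_neg_one, one_div]
    congr 1
    rw [← Real.rpow_natCast, ← Real.rpow_mul (by positivity), mul_comm (n : ℝ) α,
      Real.rpow_mul (by positivity), Real.rpow_natCast, ← Real.rpow_mul (by norm_num)]
    congr 2
    unfold kap
    field_simp
  have e4 : ρ n ^ (1 - α) = (((4 : ℝ) ^ (1 - α)) ^ n)⁻¹ := by
    unfold ρ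
    rw [← Real.rpow_natCast, ← Real.rpow_mul (by norm_num), mul_comm, Real.rpow_mul (by norm_num),
      Real.rpow_natCast, one_div, Real.inv_rpow (by norm_num), inv_pow]
  calc 1 / (n : ℝ) = ρ n ^ (1 - α) * (((4 : ℝ) ^ (1 - α)) ^ n * (1 / n)) := by
        rw [e4]; field_simp
    _ ≤ ρ n ^ (1 - α) * (Nn α n : ℝ) ^ α := by
        rw [← e2]; gcongr

/-- the number of the first block -/
lemma exists_start : ∃ m0 : ℕ, 1 ≤ m0 ∧ ∑' k, Cn α (k + m0) * Nn α (k + m0) ≤ 1 / 1024 ∧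
    ∀ n ≥ m0, Cn α n * Nn α n * H (Nn α n) ≤ 1 / 1024 := by
  have h1 := tendsto_sum_nat_add fun n => Cn α n * Nn α n
  have h2 := (h1.eventually_le_const (show (0 : ℝ) < 1 / 1024 by norm_num))
  have h3 := (vH_tendsto hα0 hα1).eventually_le_const (show (0 : ℝ) < 1 / 1024 by norm_num)
  rw [eventually_atTop] at h3
  obtain ⟨a, ha⟩ := h3
  obtain ⟨m0, hm1, hm2, hm3⟩ := (h2.and ((eventually_ge_atTop 1).and (eventually_ge_atTop a))).exists
  exact ⟨m0, hm2, hm1, fun n hn => ha n (hm3.trans hn)⟩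

end

section

variable (α : ℝ) (m0 : ℕ)

/-- the indices: block number and place in the block -/
abbrev Idx : Type := Σ k : ℕ, Fin (Nn α (k + m0))

/-- the angles -/
noncomputable def ang (j : Idx α m0) : ℝ :=
  ρ (j.1 + m0) * (1 + ((j.2 : ℕ) : ℝ) / Nn α (j.1 + m0))

/-- the points -/
noncomputable def pt (j : Idx α m0) : ℂ := exp (ang α m0 j * I)

/-- the lengths `t` -/
noncomputable def tt (j : Idx α m0) : ℝ := (8 * ‖1 - pt α m0 j‖) ^ (1 / α)

variable {α m0}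

lemma ang_ge (j : Idx α m0) : ρ (j.1 + m0) ≤ ang α m0 j := by
  unfold ang
  have := ρ_pos (j.1 + m0)
  have h : 0 ≤ ((j.2 : ℕ) : ℝ) / Nn α (j.1 + m0) := by positivity
  nlinarith

lemma ang_pos (j : Idx α m0) : 0 < ang α m0 j := (ρ_pos _).trans_le (ang_ge j)

lemma ang_le (j : Idx α m0) : ang α m0 j ≤ 2 * ρ (j.1 + m0) := by
  unfold ang
  have := ρ_pos (j.1 + m0)
  have h1 : ((j.2 : ℕ) : ℝ) ≤ Nn α (j.1 + m0) := by exact_mod_cast j.2.2.le
  have h2 : (0 : ℝ) < Nn α (j.1 + m0) := by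
    have : 0 < Nn α (j.1 + m0) := lt_of_le_of_lt (Nat.zero_le _) j.2.2
    exact_mod_cast this
  have h : ((j.2 : ℕ) : ℝ) / Nn α (j.1 + m0) ≤ 1 := by rwa [div_le_one h2]
  nlinarith

variable (hm0 : 1 ≤ m0)

include hm0

lemma ang_half (j : Idx α m0) : ang α m0 j ≤ 1 / 2 := by
  have := ang_le j
  have := ρ_le (n := j.1 + m0) (by omega)
  linarith

/-- separation of different blocks -/
lemma ang_sep {j k : Idx α m0} (h : j.1 ≠ k.1) : ang α m0 k / 2 ≤ |ang α m0 j - ang α m0 k| := by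
  have hj := ang_pos j
  have hk := ang_pos k
  rcases lt_or_gt_of_ne h with h1 | h1
  · have h2 := ρ_lt (show j.1 + m0 < k.1 + m0 by omega)
    have h3 := ang_ge j
    have h4 := ang_le k
    have := le_abs_self (ang α m0 j - ang α m0 k)
    linarith
  · have h2 := ρ_lt (show k.1 + m0 < j.1 + m0 by omega)
    have h3 := ang_ge k
    have h4 := ang_le j
    have := neg_le_abs (ang α m0 j - ang α m0 k)
    linarith

lemma chord' (j k : Idx α m0) : |ang α m0 j - ang α m0 k| / 2 ≤ ‖pt α m0 j - pt α m0 k‖ := by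
  refine (chord ?_).1
  have h1 := ang_half hm0 j
  have h2 := ang_half hm0 k
  have h3 := ang_pos j
  have h4 := ang_pos k
  rw [abs_le]
  constructor <;> linarith

lemma dist_one (j : Idx α m0) : ang α m0 j / 2 ≤ ‖1 - pt α m0 j‖ ∧ ‖1 - pt α m0 j‖ ≤ ang α m0 j := by
  have h1 := ang_half hm0 j
  have h3 := ang_pos j
  have h := chord (θ := ang α m0 j) (φ := 0) (by rw [sub_zero, abs_of_pos h3]; linarith)
  rw [sub_zero, abs_of_pos h3] at h
  have e : exp (((0 : ℝ) : ℂ) * I) = 1 := by simp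
  rw [e, norm_sub_rev] at h
  exact h

lemma dist_pos (j : Idx α m0) : 0 < ‖1 - pt α m0 j‖ := by
  have h1 := (dist_one hm0 j).1
  have h3 := ang_pos j
  linarith

/-- same block -/
lemma ang_diff (n : ℕ) (i i' : Fin (Nn α (n + m0))) :
    |ang α m0 ⟨n, i⟩ - ang α m0 ⟨n, i'⟩| =
      ρ (n + m0) / Nn α (n + m0) * |((i : ℕ) : ℝ) - ((i' : ℕ) : ℝ)| := by
  have hρ := ρ_pos (n + m0)
  have e : ang α m0 ⟨n, i⟩ - ang α m0 ⟨n, i'⟩ =
      ρ (n + m0) / Nn α (n + m0) * (((i : ℕ) : ℝ) - ((i' : ℕ) : ℝ)) := by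
    unfold ang
    simp only
    ring
  rw [e, abs_mul, abs_of_nonneg (by positivity)]

lemma pt_inj : Function.Injective (pt α m0) := by
  rintro ⟨n, i⟩ ⟨n', i'⟩ h
  have h1 := chord' hm0 ⟨n, i⟩ ⟨n', i'⟩
  rw [h, sub_self, norm_zero] at h1
  have h2 : |ang α m0 ⟨n, i⟩ - ang α m0 ⟨n', i'⟩| = 0 := le_antisymm (by linarith) (abs_nonneg _)
  by_cases hn : n = n'
  · subst hn
    rw [ang_diff hm0] at h2
    have hρ := ρ_pos (n + m0)
    have hN : (0 : ℝ) < Nn α (n + m0) := by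
      have : 0 < Nn α (n + m0) := lt_of_le_of_lt (Nat.zero_le _) i.2
      exact_mod_cast this
    have h3 : |((i : ℕ) : ℝ) - ((i' : ℕ) : ℝ)| = 0 := by
      rcases mul_eq_zero.1 h2 with h4 | h4
      · exact absurd h4 (by positivity)
      · exact h4
    rw [abs_eq_zero, sub_eq_zero] at h3
    have h4 : i = i' := Fin.ext (by exact_mod_cast h3)
    rw [h4]
  · exfalso
    have h3 := ang_sep hm0 (j := ⟨n, i⟩) (k := ⟨n', i'⟩) hn
    have h4 := ang_pos (⟨n', i'⟩ : Idx α m0)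
    linarith

variable (hα0 : 0 < α) (hα1 : α < 1)

include hα0 hα1

lemma tt_pos (j : Idx α m0) : 0 < tt α m0 j := by
  have := dist_pos hm0 j
  unfold tt
  positivity

lemma tt_pow (j : Idx α m0) : (tt α m0 j) ^ α = 8 * ‖1 - pt α m0 j‖ := by
  have := dist_pos hm0 j
  unfold tt
  rw [← Real.rpow_mul (by positivity), one_div, inv_mul_cancel₀ hα0.ne', Real.rpow_one]

lemma c_eq (j : Idx α m0) : (tt α m0 j) ^ (1 - α) = (8 * ‖1 - pt α m0 j‖) ^ kap α := by
  have := dist_pos hm0 j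
  unfold tt kap
  rw [← Real.rpow_mul (by positivity)]
  congr 1
  ring

lemma c_le (j : Idx α m0) : (tt α m0 j) ^ (1 - α) ≤ Cn α (j.1 + m0) := by
  rw [c_eq hm0 hα0 hα1]
  unfold Cn
  have h1 := (dist_one hm0 j).2
  have h2 := ang_le j
  have hk := kap_pos hα0 hα1
  exact Real.rpow_le_rpow (by positivity) (by linarith) hk.le

lemma c_nonneg (j : Idx α m0) : 0 ≤ (tt α m0 j) ^ (1 - α) :=
  Real.rpow_nonneg (tt_pos hm0 hα0 hα1 j).le _

lemma v_sum' : Summable fun k => Cn α (k + m0) * Nn α (k + m0) :=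
  (summable_nat_add_iff m0).2 (v_summable hα0 hα1)

lemma sum_c' (hm1 : ∑' k, Cn α (k + m0) * Nn α (k + m0) ≤ 1 / 1024) :
    Summable (fun j : Idx α m0 => (tt α m0 j) ^ (1 - α)) ∧
      ∑' j : Idx α m0, (tt α m0 j) ^ (1 - α) ≤ 1 / 16 := by
  have h := sigma_bound (fun j : Idx α m0 => (tt α m0 j) ^ (1 - α)) (c_nonneg hm0 hα0 hα1)
    (fun k => Cn α (k + m0) * Nn α (k + m0)) (v_sum' hm0 hα0 hα1) (fun k => by
      calc ∑ i, (tt α m0 ⟨k, i⟩) ^ (1 - α) ≤ ∑ _i : Fin (Nn α (k + m0)), Cn α (k + m0) :=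
            Finset.sum_le_sum fun i _ => c_le hm0 hα0 hα1 ⟨k, i⟩
        _ = Cn α (k + m0) * Nn α (k + m0) := by
            rw [Finset.sum_const, Finset.card_univ, Fintype.card_fin, nsmul_eq_mul]
            ring)
  exact ⟨h.1, h.2.trans (by linarith)⟩

/-- the condition K2 -/
lemma sum_K2' (hm1 : ∑' k, Cn α (k + m0) * Nn α (k + m0) ≤ 1 / 1024)
    (hm2 : ∀ n ≥ m0, Cn α n * Nn α n * H (Nn α n) ≤ 1 / 1024) (k : Idx α m0) :
    Summable (fun j : Idx α m0 => (tt α m0 j) ^ (1 - α) / ‖pt α m0 j - pt α m0 k‖) ∧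
      ‖1 - pt α m0 k‖ * ∑' j : Idx α m0, (tt α m0 j) ^ (1 - α) / ‖pt α m0 j - pt α m0 k‖
        ≤ 1 / 64 := by
  classical
  obtain ⟨n0, i0⟩ := k
  set d := ‖1 - pt α m0 ⟨n0, i0⟩‖ with hd
  have hd0 : 0 < d := dist_pos hm0 _
  have hdang : d ≤ ang α m0 ⟨n0, i0⟩ := (dist_one hm0 _).2
  have hCnn : ∀ n, 0 ≤ Cn α n := fun n => by
    unfold Cn
    have := ρ_pos n
    positivity
  have hC := hCnn (n0 + m0)
  have hρ := ρ_pos (n0 + m0)
  have hN0 : (0 : ℝ) < Nn α (n0 + m0) := by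
    have : 0 < Nn α (n0 + m0) := lt_of_le_of_lt (Nat.zero_le _) i0.2
    exact_mod_cast this
  set B : ℕ → ℝ := fun k => 4 * (Cn α (k + m0) * Nn α (k + m0)) / d +
    (if k = n0 then 8 * (Cn α (n0 + m0) * Nn α (n0 + m0) * H (Nn α (n0 + m0))) / d else 0) with hB
  have hs1 : Summable fun k => 4 * (Cn α (k + m0) * Nn α (k + m0)) / d :=
    ((v_sum' hm0 hα0 hα1).mul_left 4).div_const d
  have hs2 : HasSum (fun k => if k = n0 then
      8 * (Cn α (n0 + m0) * Nn α (n0 + m0) * H (Nn α (n0 + m0))) / d else 0)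
      (8 * (Cn α (n0 + m0) * Nn α (n0 + m0) * H (Nn α (n0 + m0))) / d) := hasSum_ite_eq n0 _
  have hH0 : 0 ≤ H (Nn α (n0 + m0)) := Finset.sum_nonneg fun r _ => by positivity
  have h := sigma_bound (fun j : Idx α m0 => (tt α m0 j) ^ (1 - α) /
      ‖pt α m0 j - pt α m0 ⟨n0, i0⟩‖)
    (fun j => div_nonneg (c_nonneg hm0 hα0 hα1 j) (norm_nonneg _)) B (hs1.add hs2.summable)
    (fun k => by
      rw [hB]
      simp only
      by_cases hk : k = n0
      · subst hk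
        rw [if_pos rfl]
        have h1 : ∑ i, (tt α m0 ⟨k, i⟩) ^ (1 - α) / ‖pt α m0 ⟨k, i⟩ - pt α m0 ⟨k, i0⟩‖ ≤
            ∑ i : Fin (Nn α (k + m0)), 2 * Cn α (k + m0) * (Nn α (k + m0) / ρ (k + m0)) *
              (1 / |((i : ℕ) : ℝ) - ((i0 : ℕ) : ℝ)|) := by
          refine Finset.sum_le_sum fun i _ => ?_
          by_cases hi : i = i0
          · rw [hi]
            simp
          · have hne : ((i : ℕ) : ℝ) - ((i0 : ℕ) : ℝ) ≠ 0 := by
              rw [sub_ne_zero]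
              intro h
              exact hi (Fin.ext (by exact_mod_cast h))
            have hpos : 0 < |((i : ℕ) : ℝ) - ((i0 : ℕ) : ℝ)| := abs_pos.2 hne
            have h2 := chord' hm0 ⟨k, i⟩ ⟨k, i0⟩
            rw [ang_diff hm0] at h2
            have h3 := c_le hm0 hα0 hα1 ⟨k, i⟩
            simp only at h3
            calc (tt α m0 ⟨k, i⟩) ^ (1 - α) / ‖pt α m0 ⟨k, i⟩ - pt α m0 ⟨k, i0⟩‖
                ≤ Cn α (k + m0) / (ρ (k + m0) / Nn α (k + m0) *
                    |((i : ℕ) : ℝ) - ((i0 : ℕ) : ℝ)| / 2) := by gcongr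
              _ = _ := by field_simp
        have h2 : ∑ i : Fin (Nn α (k + m0)), 2 * Cn α (k + m0) * (Nn α (k + m0) / ρ (k + m0)) *
              (1 / |((i : ℕ) : ℝ) - ((i0 : ℕ) : ℝ)|) ≤
            2 * Cn α (k + m0) * (Nn α (k + m0) / ρ (k + m0)) * (2 * H (Nn α (k + m0))) := by
          rw [← Finset.mul_sum]
          have := sum_inv_abs (Nn α (k + m0)) i0
          gcongr
        have h3 : d ≤ 2 * ρ (k + m0) := hdang.trans (ang_le _)
        have h4 : 2 * Cn α (k + m0) * (Nn α (k + m0) / ρ (k + m0)) * (2 * H (Nn α (k + m0))) ≤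
            8 * (Cn α (k + m0) * Nn α (k + m0) * H (Nn α (k + m0))) / d := by
          rw [le_div_iff₀ hd0]
          have e : 2 * Cn α (k + m0) * (Nn α (k + m0) / ρ (k + m0)) * (2 * H (Nn α (k + m0))) * d =
              4 * (Cn α (k + m0) * Nn α (k + m0) * H (Nn α (k + m0))) * (d / ρ (k + m0)) := by
            field_simp
            ring
          rw [e]
          have h5 : d / ρ (k + m0) ≤ 2 := by rwa [div_le_iff₀ hρ]
          calc 4 * (Cn α (k + m0) * Nn α (k + m0) * H (Nn α (k + m0))) * (d / ρ (k + m0))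
              ≤ 4 * (Cn α (k + m0) * Nn α (k + m0) * H (Nn α (k + m0))) * 2 := by gcongr
            _ = _ := by ring
        have h5 : 0 ≤ 4 * (Cn α (k + m0) * Nn α (k + m0)) / d := by positivity
        linarith
      · rw [if_neg hk, add_zero]
        calc ∑ i, (tt α m0 ⟨k, i⟩) ^ (1 - α) / ‖pt α m0 ⟨k, i⟩ - pt α m0 ⟨n0, i0⟩‖
            ≤ ∑ _i : Fin (Nn α (k + m0)), Cn α (k + m0) / (d / 4) := by
              refine Finset.sum_le_sum fun i _ => ?_
              have h1 := c_le hm0 hα0 hα1 ⟨k, i⟩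
              have h2 := chord' hm0 ⟨k, i⟩ ⟨n0, i0⟩
              have h3 := ang_sep hm0 (j := ⟨k, i⟩) (k := ⟨n0, i0⟩) hk
              simp only at h1
              have := hCnn (k + m0)
              gcongr
              linarith
          _ = 4 * (Cn α (k + m0) * Nn α (k + m0)) / d := by
              rw [Finset.sum_const, Finset.card_univ, Fintype.card_fin, nsmul_eq_mul]
              field_simp)
  refine ⟨h.1, ?_⟩
  have h1 : ∑' k, B k = 4 * (∑' k, Cn α (k + m0) * Nn α (k + m0)) / d +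
      8 * (Cn α (n0 + m0) * Nn α (n0 + m0) * H (Nn α (n0 + m0))) / d := by
    rw [hB, hs1.tsum_add hs2.summable, hs2.tsum_eq, tsum_div_const, tsum_mul_left]
  have h2 := h.2
  rw [h1] at h2
  have h3 := hm2 (n0 + m0) (by omega)
  calc d * ∑' j : Idx α m0, (tt α m0 j) ^ (1 - α) / ‖pt α m0 j - pt α m0 ⟨n0, i0⟩‖
      ≤ d * (4 * (∑' k, Cn α (k + m0) * Nn α (k + m0)) / d +
      8 * (Cn α (n0 + m0) * Nn α (n0 + m0) * H (Nn α (n0 + m0))) / d) := by gcongr
    _ = 4 * (∑' k, Cn α (k + m0) * Nn α (k + m0)) +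
      8 * (Cn α (n0 + m0) * Nn α (n0 + m0) * H (Nn α (n0 + m0))) := by field_simp
    _ ≤ 1 / 64 := by linarith

lemma pt_tendsto (hm1 : ∑' k, Cn α (k + m0) * Nn α (k + m0) ≤ 1 / 1024) :
    Tendsto (pt α m0) cofinite (𝓝 1) := by
  have h1 := (sum_c' hm0 hα0 hα1 hm1).1.tendsto_cofinite_zero
  have hk := kap_pos hα0 hα1
  have h2 : Tendsto (fun j : Idx α m0 => ((tt α m0 j) ^ (1 - α)) ^ (1 / kap α)) cofinite (𝓝 0) := by
    have := h1.rpow_const (p := 1 / kap α) (Or.inr (by positivity))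
    rwa [Real.zero_rpow (by positivity)] at this
  rw [tendsto_iff_norm_sub_tendsto_zero]
  have h3 : ∀ j : Idx α m0, ((tt α m0 j) ^ (1 - α)) ^ (1 / kap α) / 8 = ‖pt α m0 j - 1‖ := by
    intro j
    have := dist_pos hm0 j
    rw [c_eq hm0 hα0 hα1, ← Real.rpow_mul (by positivity), mul_one_div_cancel hk.ne',
      Real.rpow_one, norm_sub_rev]
    ring
  have h4 := h2.div_const 8
  rw [zero_div] at h4
  exact h4.congr h3

end

open Pool.Agent.R261.PeakConfig in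
/-- The configuration. -/
noncomputable def conf {α : ℝ} {m0 : ℕ} (hα0 : 0 < α) (hα1 : α < 1) (hm0 : 1 ≤ m0)
    (hm1 : ∑' k, Cn α (k + m0) * Nn α (k + m0) ≤ 1 / 1024)
    (hm2 : ∀ n ≥ m0, Cn α n * Nn α n * H (Nn α n) ≤ 1 / 1024) : Config α (Idx α m0) where
  ζ := pt α m0
  t := tt α m0
  norm_ζ := fun j => norm_exp_ofReal_mul_I _
  ne_one := fun j h => by
    have := dist_pos hm0 j
    rw [h, sub_self, norm_zero] at this
    exact lt_irrefl _ this
  t_pos := tt_pos hm0 hα0 hα1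
  t_def := tt_pow hm0 hα0 hα1
  closed := (pt_tendsto hm0 hα0 hα1 hm1).isCompact_insert_range_of_cofinite.isClosed
  sum_c := (sum_c' hm0 hα0 hα1 hm1).1
  K1 := (sum_c' hm0 hα0 hα1 hm1).2
  sum_K2 := fun k => (sum_K2' hm0 hα0 hα1 hm1 hm2 k).1
  K2 := fun k => (sum_K2' hm0 hα0 hα1 hm1 hm2 k).2
  inj := pt_inj hm0

open Pool.Agent.R261.PeakConfig in
/-- The points of the blocks are close to the set. -/
theorem exists_config {α : ℝ} (hα0 : 0 < α) (hα1 : α < 1) : ∃ (J : Type) (X : Config α J) (m0 : ℕ),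
    X.E.Countable ∧ 1 ≤ m0 ∧ ∀ n ≥ m0, ∀ θ ∈ Icc (ρ n) (2 * ρ n),
      infDist (circleMap 0 1 θ) X.E ≤ ρ n / Nn α n := by
  obtain ⟨m0, hm0, hm1, hm2⟩ := exists_start hα0 hα1
  refine ⟨Idx α m0, conf hα0 hα1 hm0 hm1 hm2, m0, (countable_range _).insert 1, hm0,
    fun n hn θ hθ => ?_⟩
  obtain ⟨k, rfl⟩ : ∃ k, n = k + m0 := ⟨n - m0, by omega⟩
  have hρ := ρ_pos (k + m0)
  have hρ4 := ρ_le (n := k + m0) (by omega)
  have hN := N_pos hα0 hα1 (n := k + m0) (by omega)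
  have hN' : (1 : ℝ) ≤ Nn α (k + m0) := by exact_mod_cast hN
  set N := Nn α (k + m0) with hNdef
  set s : ℝ := (θ / ρ (k + m0) - 1) * N with hs
  have hs0 : 0 ≤ s := by
    have : 1 ≤ θ / ρ (k + m0) := by rw [le_div_iff₀ hρ]; linarith [hθ.1]
    have : 0 ≤ θ / ρ (k + m0) - 1 := by linarith
    positivity
  have hsN : s ≤ N := by
    have h1 : θ / ρ (k + m0) ≤ 2 := by rw [div_le_iff₀ hρ]; exact hθ.2
    have : θ / ρ (k + m0) - 1 ≤ 1 := by linarith
    calc s ≤ 1 * N := by rw [hs]; gcongr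
      _ = N := one_mul _
  obtain ⟨i, hi, his⟩ : ∃ i : ℕ, i < N ∧ |s - i| ≤ 1 := by
    rcases Nat.lt_or_ge ⌊s⌋₊ N with h | h
    · refine ⟨⌊s⌋₊, h, ?_⟩
      have h1 := Nat.floor_le hs0
      have h2 := Nat.lt_floor_add_one s
      rw [abs_le]
      constructor <;> linarith
    · refine ⟨N - 1, by omega, ?_⟩
      have h1 : (N : ℝ) ≤ ⌊s⌋₊ := by exact_mod_cast h
      have h2 := Nat.floor_le hs0
      have h3 : s = N := le_antisymm hsN (h1.trans h2)
      rw [h3, Nat.cast_sub hN, Nat.cast_one]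
      have : (N : ℝ) - (N - 1) = 1 := by ring
      rw [this, abs_one]
  set j : Idx α m0 := ⟨k, ⟨i, hi⟩⟩ with hj
  have hmem : pt α m0 j ∈ (conf hα0 hα1 hm0 hm1 hm2).E := Or.inr ⟨j, rfl⟩
  refine (infDist_le_dist_of_mem hmem).trans ?_
  have hang : ang α m0 j = ρ (k + m0) * (1 + (i : ℝ) / N) := rfl
  have e1 : circleMap 0 1 θ = exp (θ * I) := by simp [circleMap]
  have e2 : θ - ang α m0 j = ρ (k + m0) / N * (s - i) := by
    rw [hang, hs]
    field_simp
    ring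
  have e3 : |θ - ang α m0 j| ≤ ρ (k + m0) / N := by
    rw [e2, abs_mul, abs_of_nonneg (by positivity)]
    calc ρ (k + m0) / N * |s - i| ≤ ρ (k + m0) / N * 1 := by gcongr
      _ = _ := mul_one _
  rw [dist_eq_norm, e1]
  refine (chord ?_).2.trans e3
  refine e3.trans ?_
  rw [div_le_iff₀ (by positivity)]
  linarith

end Pool.Agent.R261.PeakExample
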