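import Pool.Agent.R497.TB.Defs
import Pool.Agent.R235.TD.Corer

/-! TB-BCORER (helper261): from `a` in `[1, 2]` to all real `a`, boxes. -/

set_option autoImplicit false

namespace Pool.Agent.R261.TB

open MeasureTheory Filter Finset
open Pool.Agent.Y957.MC (IsFlow flowInv smo box bavg)
open Pool.Agent.R497.TD (NiceG)
open Pool.Agent.R497.TB
open Pool.Agent.R235.TD (flow_scale niceG_scale)

universe u

variable {X : Type u} [MeasurableSpace X] {μ : Measure X}

theorem niceWb_scale {k d : ℕ} {B : (Fin k → ℕ) → ℝ → X → ℂ} (h : NiceWb d B) (A : ℝ) :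
    NiceWb d fun m a x => B m (A * a) x := by
  obtain ⟨hm, C, h1, h2⟩ := h
  have hC := le_abs_self C
  have hC0 := abs_nonneg C
  have hA0 := abs_nonneg A
  refine ⟨fun m => ?_, |C| * (|A| + 1), fun m a x => ?_, fun m hn a a' x => ?_⟩
  · have h3 : Measurable fun p : ℝ × X => ((A * p.1, p.2) : ℝ × X) := by fun_prop
    exact (hm m).comp h3
  · refine (h1 m (A * a) x).trans ?_
    nlinarith [mul_nonneg hC0 hA0]
  · refine (h2 m hn (A * a) (A * a') x).trans ?_
    rw [← mul_sub, abs_mul]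
    have h4 : C * ((Finset.univ.sup m : ℕ) : ℝ) ^ (d - 1) * (|A| * |a - a'|) ≤
        |C| * ((Finset.univ.sup m : ℕ) : ℝ) ^ (d - 1) * (|A| * |a - a'|) := by gcongr
    refine h4.trans ?_
    have h5 : |C| * |A| ≤ |C| * (|A| + 1) := by
      gcongr
      linarith
    calc |C| * ((Finset.univ.sup m : ℕ) : ℝ) ^ (d - 1) * (|A| * |a - a'|)
        = (|C| * |A|) * (((Finset.univ.sup m : ℕ) : ℝ) ^ (d - 1) * |a - a'|) := by ring
      _ ≤ (|C| * (|A| + 1)) * (((Finset.univ.sup m : ℕ) : ℝ) ^ (d - 1) * |a - a'|) := by gcongr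
      _ = _ := by ring

/-- the conclusion at the time `a` -/
def Concl {k : ℕ} (μ : Measure X) (σ : ℝ → X → X) (g : X → ℝ) (p : Fin k → Polynomial ℝ)
    (B : (Fin k → ℕ) → ℝ → X → ℂ) (a : ℝ) : Prop :=
  ∀ᵐ x ∂μ, Tendsto (fun M => bavg M fun m => B m a x * (g (σ (a * sep p m) x) : ℂ)) atTop (nhds 0)

theorem t_BCORER (h : S_BCORE.{u}) : S_BCORER.{u} := by
  intro X _ μ _ σ g k d p B hk hσ hg hd hB
  have key : ∀ A : ℝ, A ≠ 0 → ∀ᵐ a : ℝ, A⁻¹ * a ∈ Set.Icc (1 : ℝ) 2 → Concl μ σ g p B a := by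
    intro A hA
    have h1 := h X μ (fun t => σ (A * t)) g k d p (fun m a x => B m (A * a) x) hk (flow_scale hσ A)
      (niceG_scale hg hA) hd (niceWb_scale hB A)
    have h2 : ∀ᵐ b : ℝ, b ∈ Set.Icc (1 : ℝ) 2 → Concl μ σ g p B (A * b) := by
      rw [ae_restrict_iff' measurableSet_Icc] at h1
      filter_upwards [h1] with b hb hbm
      have h3 := hb hbm
      unfold Concl
      filter_upwards [h3] with x hx
      have e : ∀ m : Fin k → ℕ, A * (b * sep p m) = A * b * sep p m := fun m => by ring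
      simpa only [e] using hx
    have h3 := (Measure.quasiMeasurePreserving_smul (volume : Measure ℝ) (inv_ne_zero hA)).ae h2
    filter_upwards [h3] with a ha hm
    have h4 := ha (by simpa only [smul_eq_mul] using hm)
    simpa only [smul_eq_mul, mul_inv_cancel_left₀ hA] using h4
  have h1 : ∀ᵐ a : ℝ, ∀ i : ℤ, (((2 : ℝ) ^ i)⁻¹ * a ∈ Set.Icc (1 : ℝ) 2 → Concl μ σ g p B a) ∧
      ((-(2 : ℝ) ^ i)⁻¹ * a ∈ Set.Icc (1 : ℝ) 2 → Concl μ σ g p B a) := by
    rw [ae_all_iff]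
    intro i
    have h2 : (2 : ℝ) ^ i ≠ 0 := by positivity
    filter_upwards [key _ h2, key _ (neg_ne_zero.2 h2)] with a ha hb
    exact ⟨ha, hb⟩
  have h0 : ∀ᵐ a : ℝ, a ≠ 0 := by
    rw [ae_iff]
    simp
  filter_upwards [h1, h0] with a ha ha0
  obtain ⟨i, hi⟩ := exists_mem_Ico_zpow (abs_pos.2 ha0) (one_lt_two : (1 : ℝ) < 2)
  have hp : (0 : ℝ) < 2 ^ i := by positivity
  have hi2 : |a| < 2 * 2 ^ i := by
    have := hi.2
    rw [zpow_add_one₀ (by norm_num)] at this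
    linarith
  have hmem : ((2 : ℝ) ^ i)⁻¹ * |a| ∈ Set.Icc (1 : ℝ) 2 := by
    constructor
    · rw [inv_mul_eq_div, le_div_iff₀ hp, one_mul]
      exact hi.1
    · rw [inv_mul_eq_div, div_le_iff₀ hp]
      exact hi2.le
  rcases lt_or_gt_of_ne ha0 with hneg | hpos
  · refine (ha i).2 ?_
    rw [abs_of_neg hneg] at hmem
    rw [inv_neg, neg_mul_comm]
    exact hmem
  · refine (ha i).1 ?_
    rw [abs_of_pos hpos] at hmem
    exact hmem

end Pool.Agent.R261.TB
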