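import Mathlib

/-!
Auxiliary file for MP_968b24_an: weights that are lacunary superpositions of geometric sequences.
-/

set_option autoImplicit false

open Filter Topology Finset

namespace Pool.Agent.R261.Weights

/-- the Abel mean `(1-t) ∑ t^n s_n` with `t = 1 - d` -/
noncomputable def abel (s : ℕ → ℝ) (d : ℝ) : ℝ := d * ∑' n, (1 - d) ^ n * s n

/-- the weights `w_n = ∑_j d_j (1-d_j)^n` -/
noncomputable def wt (d : ℕ → ℝ) (n : ℕ) : ℝ := ∑' j, d j * (1 - d j) ^ n

structure Lac (d : ℕ → ℝ) : Prop where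
  pos : ∀ j, 0 < d j
  half : d 0 ≤ 1 / 2
  lac : ∀ j, d (j + 1) ≤ d j / 2

variable {d : ℕ → ℝ}

lemma Lac.le (h : Lac d) (j : ℕ) : d j ≤ (1 / 2) ^ (j + 1) := by
  induction j with
  | zero => simpa using h.half
  | succ j ih =>
    have := h.lac j
    rw [pow_succ]
    linarith

lemma Lac.le_half (h : Lac d) (j : ℕ) : d j ≤ 1 / 2 := by
  refine (h.le j).trans ?_
  rw [pow_succ]
  have : ((1 : ℝ) / 2) ^ j ≤ 1 := pow_le_one₀ (by norm_num) (by norm_num)
  linarith

lemma Lac.lt_one (h : Lac d) (j : ℕ) : d j < 1 := by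
  have := h.le_half j
  linarith

lemma Lac.summable (h : Lac d) : Summable d := by
  refine Summable.of_nonneg_of_le (fun j => (h.pos j).le) h.le ?_
  have : Summable (fun j : ℕ => ((1 : ℝ) / 2) ^ j) := summable_geometric_of_lt_one (by norm_num) (by norm_num)
  simpa [pow_succ] using this.mul_right (1 / 2 : ℝ)

lemma Lac.pow_mem (h : Lac d) (j n : ℕ) : 0 < (1 - d j) ^ n ∧ (1 - d j) ^ n ≤ 1 := by
  have h1 := h.lt_one j
  have h2 := h.pos j
  exact ⟨pow_pos (by linarith) _, pow_le_one₀ (by linarith) (by linarith)⟩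

lemma Lac.summable_term (h : Lac d) (n : ℕ) : Summable (fun j => d j * (1 - d j) ^ n) := by
  refine Summable.of_nonneg_of_le (fun j => ?_) (fun j => ?_) h.summable
  · exact mul_nonneg (h.pos j).le (h.pow_mem j n).1.le
  · have := (h.pow_mem j n).2
    have h2 := h.pos j
    nlinarith

lemma wt_pos (h : Lac d) (n : ℕ) : 0 < wt d n := by
  unfold wt
  exact (h.summable_term n).tsum_pos (fun j => mul_nonneg (h.pos j).le (h.pow_mem j n).1.le) 0
    (mul_pos (h.pos 0) (h.pow_mem 0 n).1)

/-- iterated differences -/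
def dif (l : ℕ → ℝ) : ℕ → ℕ → ℝ
  | 0, n => l n
  | k + 1, n => dif l k n - dif l k (n + 1)

lemma dif_wt (h : Lac d) (k n : ℕ) :
    Summable (fun j => d j * (1 - d j) ^ n * d j ^ k) ∧
    dif (wt d) k n = ∑' j, d j * (1 - d j) ^ n * d j ^ k := by
  have hs : ∀ k n, Summable (fun j => d j * (1 - d j) ^ n * d j ^ k) := by
    intro k n
    refine Summable.of_nonneg_of_le (fun j => ?_) (fun j => ?_) (h.summable_term n)
    · have := (h.pow_mem j n).1.le
      have := (h.pos j).le
      positivity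
    · have h1 := (h.pow_mem j n).1.le
      have h2 := (h.pos j).le
      have h3 : d j ^ k ≤ 1 := pow_le_one₀ h2 (h.lt_one j).le
      have h4 : 0 ≤ d j * (1 - d j) ^ n := by positivity
      nlinarith
  refine ⟨hs k n, ?_⟩
  induction k generalizing n with
  | zero => simp [dif, wt]
  | succ k ih =>
    rw [dif, ih n, ih (n + 1), ← (hs k n).tsum_sub (hs k (n + 1))]
    congr 1
    ext j
    ring

lemma dif_nonneg (h : Lac d) (k n : ℕ) : 0 ≤ dif (wt d) k n := by
  rw [(dif_wt h k n).2]
  refine tsum_nonneg fun j => ?_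
  have h1 := (h.pow_mem j n).1.le
  have h2 := (h.pos j).le
  positivity

/-- partial sums of the `j`-th component -/
lemma comp_sum (x : ℝ) (N : ℕ) : ∑ n ∈ range N, x * (1 - x) ^ n = 1 - (1 - x) ^ N := by
  have := geom_sum_mul_neg (1 - x) N
  rw [← mul_sum, mul_comm]
  simpa using this

lemma sum_wt (h : Lac d) (N : ℕ) : Summable (fun j => 1 - (1 - d j) ^ N) ∧
    ∑ n ∈ range N, wt d n = ∑' j, (1 - (1 - d j) ^ N) := by
  have e : ∀ j, ∑ n ∈ range N, d j * (1 - d j) ^ n = 1 - (1 - d j) ^ N := fun j => comp_sum _ N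
  constructor
  · simp_rw [← e]
    exact summable_sum fun n _ => h.summable_term n
  · simp_rw [← e]
    rw [Summable.tsum_finsetSum fun n _ => h.summable_term n]
    rfl

lemma w_le (h : Lac d) (N j : ℕ) : 1 - (1 - d j) ^ N ≤ N * d j := by
  have := one_add_mul_le_pow (a := - d j) (by have := h.lt_one j; linarith) N
  have e : (1 + -d j) ^ N = (1 - d j) ^ N := by ring
  rw [e] at this
  linarith

lemma one_sub_w_le (h : Lac d) {N : ℕ} (hN : 0 < N) (j : ℕ) : (1 - d j) ^ N ≤ 1 / (N * d j) := by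
  have h0 := h.pos j
  have hN' : (0 : ℝ) < N := by exact_mod_cast hN
  have h1 : 1 - d j ≤ Real.exp (-(d j)) := by
    have := Real.add_one_le_exp (-(d j))
    linarith
  have h2 : (1 - d j) ^ N ≤ Real.exp (-(N * d j)) := by
    calc (1 - d j) ^ N ≤ Real.exp (-(d j)) ^ N :=
          pow_le_pow_left₀ (by have := h.lt_one j; linarith) h1 N
      _ = Real.exp (-(N * d j)) := by rw [← Real.exp_nat_mul]; ring_nf
  refine h2.trans ?_
  rw [Real.exp_neg, one_div]
  apply inv_anti₀ (by positivity)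
  have := Real.add_one_le_exp ((N : ℝ) * d j)
  linarith

lemma min_sum (h : Lac d) (N : ℕ) : Summable (fun j => min (1 - (1 - d j) ^ N) ((1 - d j) ^ N)) ∧
    ∑' j, min (1 - (1 - d j) ^ N) ((1 - d j) ^ N) ≤ 4 := by
  have hnn : ∀ j, 0 ≤ min (1 - (1 - d j) ^ N) ((1 - d j) ^ N) := fun j =>
    le_min (by linarith [(h.pow_mem j N).2]) (h.pow_mem j N).1.le
  have hsum : Summable (fun j => min (1 - (1 - d j) ^ N) ((1 - d j) ^ N)) :=
    Summable.of_nonneg_of_le hnn (fun j => min_le_left _ _) (sum_wt h N).1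
  refine ⟨hsum, ?_⟩
  rcases Nat.eq_zero_or_pos N with rfl | hN
  · simp
  have hN' : (0 : ℝ) < N := by exact_mod_cast hN
  -- the first index with `N * d j ≤ 1`
  have hex : ∃ j, (N : ℝ) * d j ≤ 1 := by
    have h1 : Tendsto (fun j => (N : ℝ) * d j) atTop (𝓝 0) := by
      simpa using h.summable.tendsto_atTop_zero.const_mul (N : ℝ)
    obtain ⟨j, hj⟩ := (h1.eventually (gt_mem_nhds (show (0 : ℝ) < 1 by norm_num))).exists
    exact ⟨j, hj.le⟩
  classical
  set J := Nat.find hex with hJ
  have hJ1 : (N : ℝ) * d J ≤ 1 := Nat.find_spec hex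
  have hJ2 : ∀ j < J, 1 < (N : ℝ) * d j := fun j hj => by
    have := Nat.find_min hex hj
    push Not at this
    exact this
  have hhi : ∀ i, (N : ℝ) * d (J + i) ≤ (1 / 2) ^ i := by
    intro i
    induction i with
    | zero => simpa using hJ1
    | succ i ih =>
      have := h.lac (J + i)
      rw [pow_succ, ← add_assoc]
      nlinarith
  have hlo : ∀ i, i < J → 1 / ((N : ℝ) * d (J - 1 - i)) ≤ (1 / 2) ^ i := by
    intro i
    induction i with
    | zero =>
      intro hi
      have := hJ2 (J - 1 - 0) (by omega)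
      rw [pow_zero]
      rw [div_le_one (by linarith)]
      exact this.le
    | succ i ih =>
      intro hi
      have h1 := ih (by omega)
      have h2 := h.lac (J - 1 - (i + 1))
      have e : J - 1 - (i + 1) + 1 = J - 1 - i := by omega
      rw [e] at h2
      have p1 := h.pos (J - 1 - i)
      have p2 := h.pos (J - 1 - (i + 1))
      have h3 : 1 / ((N : ℝ) * d (J - 1 - (i + 1))) ≤ 1 / ((N : ℝ) * d (J - 1 - i)) / 2 := by
        rw [div_div]
        apply one_div_le_one_div_of_le (by positivity)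
        nlinarith
      rw [pow_succ]
      linarith
  have hgeo : ∑' i : ℕ, ((1 : ℝ) / 2) ^ i = 2 := tsum_geometric_two
  have hgs : Summable (fun i : ℕ => ((1 : ℝ) / 2) ^ i) := summable_geometric_two
  rw [← hsum.sum_add_tsum_nat_add J]
  have hA : ∑ j ∈ range J, min (1 - (1 - d j) ^ N) ((1 - d j) ^ N) ≤ 2 := by
    calc ∑ j ∈ range J, min (1 - (1 - d j) ^ N) ((1 - d j) ^ N)
        ≤ ∑ j ∈ range J, 1 / ((N : ℝ) * d j) :=
          sum_le_sum fun j _ => (min_le_right _ _).trans (one_sub_w_le h hN j)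
      _ = ∑ i ∈ range J, 1 / ((N : ℝ) * d (J - 1 - i)) := (sum_range_reflect _ _).symm
      _ ≤ ∑ i ∈ range J, ((1 : ℝ) / 2) ^ i := sum_le_sum fun i hi => hlo i (mem_range.1 hi)
      _ ≤ ∑' i : ℕ, ((1 : ℝ) / 2) ^ i := hgs.sum_le_tsum _ fun i _ => by positivity
      _ = 2 := hgeo
  have hB : ∑' i, min (1 - (1 - d (i + J)) ^ N) ((1 - d (i + J)) ^ N) ≤ 2 := by
    rw [← hgeo]
    refine Summable.tsum_le_tsum (fun i => ?_) ((summable_nat_add_iff J).2 hsum) hgs
    refine (min_le_left _ _).trans ((w_le h N (i + J)).trans ?_)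
    rw [add_comm i J]
    exact hhi i
  linarith

lemma sum_wt_tendsto (h : Lac d) : Tendsto (fun N => ∑ n ∈ range N, wt d n) atTop atTop := by
  rw [tendsto_atTop]
  intro b
  obtain ⟨J, hJ⟩ := exists_nat_gt b
  have h1 : Tendsto (fun N : ℕ => ∑ j ∈ range J, (1 - (1 - d j) ^ N)) atTop
      (𝓝 (∑ j ∈ range J, (1 - 0 : ℝ))) := by
    refine tendsto_finsetSum _ fun j _ => ?_
    refine tendsto_const_nhds.sub ?_
    exact tendsto_pow_atTop_nhds_zero_of_lt_one (by linarith [h.lt_one j]) (by linarith [h.pos j])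
  have h2 : (∑ j ∈ range J, (1 - 0 : ℝ)) = J := by simp
  rw [h2] at h1
  filter_upwards [h1.eventually (lt_mem_nhds hJ)] with N hN
  rw [(sum_wt h N).2]
  refine hN.le.trans ?_
  exact (sum_wt h N).1.sum_le_tsum _ fun j _ => by linarith [(h.pow_mem j N).2]

lemma abel_sub {s : ℕ → ℝ} {B x : ℝ} (hs : ∀ n, |s n| ≤ B) (hx0 : 0 < x) (hx1 : x < 1) (N : ℕ) :
    |x * (∑ n ∈ range N, (1 - x) ^ n * s n) - abel s x| ≤ B * (1 - x) ^ N := by
  have hB : 0 ≤ B := (abs_nonneg _).trans (hs 0)
  have hg : Summable (fun n : ℕ => (1 - x) ^ n) :=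
    summable_geometric_of_lt_one (by linarith) (by linarith)
  have hle : ∀ n, ‖(1 - x) ^ n * s n‖ ≤ B * (1 - x) ^ n := fun n => by
    have h1 : 0 ≤ (1 - x) ^ n := pow_nonneg (by linarith) _
    rw [norm_mul, Real.norm_eq_abs, Real.norm_eq_abs, abs_of_nonneg h1, mul_comm]
    exact mul_le_mul_of_nonneg_right (hs n) h1
  have hsum : Summable (fun n : ℕ => (1 - x) ^ n * s n) :=
    Summable.of_norm_bounded (hg.mul_left B) hle
  unfold abel
  rw [← hsum.sum_add_tsum_nat_add N]
  have e : x * (∑ n ∈ range N, (1 - x) ^ n * s n) -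
      x * (∑ n ∈ range N, (1 - x) ^ n * s n + ∑' n, (1 - x) ^ (n + N) * s (n + N)) =
      -(x * ∑' n, (1 - x) ^ (n + N) * s (n + N)) := by ring
  rw [e, abs_neg, abs_mul, abs_of_pos hx0]
  have h2 : ‖∑' n, (1 - x) ^ (n + N) * s (n + N)‖ ≤ ∑' n, B * (1 - x) ^ (n + N) := by
    refine tsum_of_norm_bounded ?_ (fun n => hle (n + N))
    exact (((summable_nat_add_iff N).2 hg).mul_left B).hasSum
  have h3 : ∑' n, B * (1 - x) ^ (n + N) = B * (1 - x) ^ N * (1 / x) := by
    have : ∀ n : ℕ, B * (1 - x) ^ (n + N) = (B * (1 - x) ^ N) * (1 - x) ^ n := fun n => by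
      rw [pow_add]; ring
    simp_rw [this]
    rw [tsum_mul_left, tsum_geometric_of_lt_one (by linarith) (by linarith)]
    congr 1
    rw [one_div]; congr 1; ring
  rw [h3, Real.norm_eq_abs] at h2
  calc x * |∑' n, (1 - x) ^ (n + N) * s (n + N)| ≤ x * (B * (1 - x) ^ N * (1 / x)) :=
        mul_le_mul_of_nonneg_left h2 hx0.le
    _ = B * (1 - x) ^ N := by field_simp

/-- Main estimate: the weighted means converge to the limit of the Abel means along `d`. -/
theorem main {s : ℕ → ℝ} {B c : ℝ} (hs : ∀ n, |s n| ≤ B) (h : Lac d)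
    (hc : Tendsto (fun j => abel s (d j)) atTop (𝓝 c)) :
    Tendsto (fun N => (∑ n ∈ range N, wt d n * s n) / ∑ n ∈ range N, wt d n) atTop (𝓝 c) := by
  have hB : 0 ≤ B := (abs_nonneg _).trans (hs 0)
  set C := B + |c| with hC
  have hC0 : 0 ≤ C := by positivity
  have hL := sum_wt_tendsto h
  have hsummand : ∀ n, Summable (fun j => d j * (1 - d j) ^ n * s n) := fun n =>
    (h.summable_term n).mul_right _
  have hW : ∀ N, ∑ n ∈ range N, wt d n * s n =
      ∑' j, d j * ∑ n ∈ range N, (1 - d j) ^ n * s n := by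
    intro N
    have e : ∀ j, d j * ∑ n ∈ range N, (1 - d j) ^ n * s n =
        ∑ n ∈ range N, d j * (1 - d j) ^ n * s n := fun j => by
      rw [mul_sum]
      exact sum_congr rfl fun n _ => by ring
    simp_rw [e]
    rw [Summable.tsum_finsetSum fun n _ => hsummand n]
    exact sum_congr rfl fun n _ => by rw [wt, tsum_mul_right]
  have hWs : ∀ N, Summable (fun j => d j * ∑ n ∈ range N, (1 - d j) ^ n * s n) := by
    intro N
    have e : ∀ j, d j * ∑ n ∈ range N, (1 - d j) ^ n * s n =
        ∑ n ∈ range N, d j * (1 - d j) ^ n * s n := fun j => by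
      rw [mul_sum]
      exact sum_congr rfl fun n _ => by ring
    simp_rw [e]
    exact summable_sum fun n _ => hsummand n
  -- pointwise bound
  have hpt : ∀ N j, |d j * (∑ n ∈ range N, (1 - d j) ^ n * s n) - c * (1 - (1 - d j) ^ N)| ≤
      2 * C * min (1 - (1 - d j) ^ N) ((1 - d j) ^ N) +
        2 * |abel s (d j) - c| * (1 - (1 - d j) ^ N) := by
    intro N j
    set P := d j * (∑ n ∈ range N, (1 - d j) ^ n * s n) with hP
    set w := 1 - (1 - d j) ^ N with hw
    have hw1 : (1 - d j) ^ N = 1 - w := by rw [hw]; ring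
    have hw0 : 0 ≤ w := by have := (h.pow_mem j N).2; rw [hw]; linarith
    have hw2 : w ≤ 1 := by have := (h.pow_mem j N).1; rw [hw]; linarith
    have hPb : |P| ≤ B * w := by
      rw [hP, abs_mul, abs_of_pos (h.pos j), hw, ← comp_sum (d j) N, ← mul_sum]
      have : |∑ n ∈ range N, (1 - d j) ^ n * s n| ≤ ∑ n ∈ range N, (1 - d j) ^ n * B := by
        refine (abs_sum_le_sum_abs _ _).trans (sum_le_sum fun n _ => ?_)
        rw [abs_mul, abs_of_pos (h.pow_mem j n).1]
        exact mul_le_mul_of_nonneg_left (hs n) (h.pow_mem j n).1.le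
      rw [← sum_mul] at this
      have := mul_le_mul_of_nonneg_left this (h.pos j).le
      linarith
    have h1 : |P - c * w| ≤ C * w := by
      calc |P - c * w| ≤ |P| + |c * w| := abs_sub _ _
        _ ≤ B * w + |c| * w := by rw [abs_mul c w, abs_of_nonneg hw0]; linarith
        _ = C * w := by rw [hC]; ring
    have h2 : |P - c * w| ≤ C * (1 - w) + |abel s (d j) - c| := by
      have e : P - c * w = (P - abel s (d j)) + (abel s (d j) - c) + c * (1 - w) := by ring
      rw [e]
      have h3 := abel_sub hs (h.pos j) (h.lt_one j) N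
      rw [← hP, hw1] at h3
      calc |(P - abel s (d j)) + (abel s (d j) - c) + c * (1 - w)|
          ≤ |P - abel s (d j)| + |abel s (d j) - c| + |c * (1 - w)| := abs_add_three _ _ _
        _ ≤ B * (1 - w) + |abel s (d j) - c| + |c| * (1 - w) := by
            rw [abs_mul, abs_of_nonneg (show 0 ≤ 1 - w by linarith)]; linarith
        _ = C * (1 - w) + |abel s (d j) - c| := by rw [hC]; ring
    rw [hw1]
    have ha := abs_nonneg (abel s (d j) - c)
    rcases le_total w (1 / 2) with hw3 | hw3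
    · rw [min_eq_left (by linarith)]
      nlinarith [mul_nonneg hC0 hw0, mul_nonneg ha hw0]
    · rw [min_eq_right (by linarith)]
      nlinarith [mul_nonneg hC0 (show 0 ≤ 1 - w by linarith),
        mul_nonneg ha (show 0 ≤ w - 1 / 2 by linarith)]
  rw [Metric.tendsto_atTop]
  intro ε hε
  obtain ⟨J, hJ⟩ := (Metric.tendsto_atTop.1 hc) (ε / 8) (by positivity)
  -- constants
  set D := ∑ j ∈ range J, 2 * |abel s (d j) - c| with hD
  have hD0 : 0 ≤ D := sum_nonneg fun j _ => by positivity
  obtain ⟨N0, hN0⟩ := (tendsto_atTop.1 hL (4 * (8 * C + D) / ε + 1)).exists_forall_of_atTop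
  refine ⟨N0, fun N hN => ?_⟩
  have hLN := hN0 N hN
  set L := ∑ n ∈ range N, wt d n with hLdef
  have hLpos : 0 < L := by
    have : 0 ≤ 4 * (8 * C + D) / ε := by positivity
    linarith
  have hLt : L = ∑' j, (1 - (1 - d j) ^ N) := (sum_wt h N).2
  have hws := (sum_wt h N).1
  have hwnn : ∀ j, 0 ≤ 1 - (1 - d j) ^ N := fun j => by linarith [(h.pow_mem j N).2]
  have hbound : |∑ n ∈ range N, wt d n * s n - c * L| ≤ 8 * C + D + ε / 4 * L := by
    rw [hW N, hLt, ← tsum_mul_left, ← (hWs N).tsum_sub (hws.mul_left c)]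
    set F : ℕ → ℝ := fun j => d j * (∑ n ∈ range N, (1 - d j) ^ n * s n) - c * (1 - (1 - d j) ^ N)
      with hF
    set G : ℕ → ℝ := fun j => 2 * C * min (1 - (1 - d j) ^ N) ((1 - d j) ^ N) +
      ((if j < J then 2 * |abel s (d j) - c| else 0) + ε / 4 * (1 - (1 - d j) ^ N)) with hG
    have hs1 : Summable (fun j => if j < J then 2 * |abel s (d j) - c| else 0) := by
      apply summable_of_hasFiniteSupport
      refine (Set.finite_lt_nat J).subset fun j hj => ?_
      by_contra hcon
      exact hj (if_neg hcon)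
    have hs2 := (min_sum h N).1.mul_left (2 * C)
    have hs3 := hws.mul_left (ε / 4)
    have hFG : ∀ j, ‖F j‖ ≤ G j := by
      intro j
      rw [Real.norm_eq_abs]
      refine (hpt N j).trans ?_
      rw [hG]
      simp only
      have h5 : 2 * |abel s (d j) - c| * (1 - (1 - d j) ^ N) ≤
          (if j < J then 2 * |abel s (d j) - c| else 0) + ε / 4 * (1 - (1 - d j) ^ N) := by
        have hle1 : 1 - (1 - d j) ^ N ≤ 1 := by linarith [(h.pow_mem j N).1]
        split_ifs with hj
        · have := abs_nonneg (abel s (d j) - c)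
          have h6 : 0 ≤ ε / 4 * (1 - (1 - d j) ^ N) := mul_nonneg (by positivity) (hwnn j)
          nlinarith
        · have h7 := hJ j (by omega)
          rw [Real.dist_eq] at h7
          rw [zero_add]
          exact mul_le_mul_of_nonneg_right (by linarith) (hwnn j)
      linarith
    have hGs : Summable G := hs2.add (hs1.add hs3)
    have h8 := tsum_of_norm_bounded hGs.hasSum hFG
    rw [Real.norm_eq_abs] at h8
    refine h8.trans ?_
    rw [hG, hs2.tsum_add (hs1.add hs3), hs1.tsum_add hs3, tsum_mul_left, tsum_mul_left]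
    have h9 : ∑' j, (if j < J then 2 * |abel s (d j) - c| else 0) = D := by
      rw [tsum_eq_sum (s := range J) (fun j hj => by
        rw [mem_range] at hj; exact if_neg hj)]
      exact sum_congr rfl fun j hj => if_pos (mem_range.1 hj)
    rw [h9]
    have h10 := (min_sum h N).2
    nlinarith
  rw [Real.dist_eq]
  have e : (∑ n ∈ range N, wt d n * s n) / L - c = (∑ n ∈ range N, wt d n * s n - c * L) / L := by
    field_simp
  rw [e, abs_div, abs_of_pos hLpos, div_lt_iff₀ hLpos]
  have h11 : 8 * C + D ≤ ε / 4 * L := by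
    have : 4 * (8 * C + D) / ε ≤ L := by linarith
    rw [div_le_iff₀ hε] at this
    linarith
  have h12 : 0 < ε * L := by positivity
  linarith

/-- Choice of scales. -/
theorem exists_lac {s : ℕ → ℝ} {c : ℝ}
    (hf : ∀ ε > 0, ∀ η > 0, ∃ x, 0 < x ∧ x < η ∧ |abel s x - c| < ε) :
    ∃ d : ℕ → ℝ, Lac d ∧ Tendsto (fun j => abel s (d j)) atTop (𝓝 c) := by
  choose! f hf1 hf2 hf3 using hf
  let d : ℕ → ℝ := fun j => Nat.rec (f 1 (1 / 2)) (fun j x => f (1 / ((j : ℝ) + 2)) (x / 2)) j
  have d0 : d 0 = f 1 (1 / 2) := rfl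
  have ds : ∀ j, d (j + 1) = f (1 / ((j : ℝ) + 2)) (d j / 2) := fun j => rfl
  have hpos : ∀ j, 0 < d j := by
    intro j
    induction j with
    | zero => rw [d0]; exact hf1 1 one_pos (1 / 2) (by norm_num)
    | succ j ih => rw [ds]; exact hf1 _ (by positivity) _ (by positivity)
  refine ⟨d, ⟨hpos, ?_, ?_⟩, ?_⟩
  · rw [d0]; exact (hf2 1 one_pos (1 / 2) (by norm_num)).le
  · intro j
    rw [ds]
    exact (hf2 _ (by positivity) _ (by have := hpos j; positivity)).le
  · rw [← tendsto_add_atTop_iff_nat 1]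
    rw [tendsto_iff_dist_tendsto_zero]
    refine squeeze_zero (fun j => dist_nonneg) (g := fun j : ℕ => 1 / ((j : ℝ) + 1)) (fun j => ?_)
      tendsto_one_div_add_atTop_nhds_zero_nat
    rw [Real.dist_eq, ds]
    refine (hf3 _ (by positivity) _ (by have := hpos j; positivity)).le.trans ?_
    exact one_div_le_one_div_of_le (by positivity) (by linarith)

end Pool.Agent.R261.Weights
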